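import Pool.Agent.V5helper18.Deg.C

/-!
# Degree theory through continuous homotopies
-/

set_option autoImplicit false

open MeasureTheory Set Metric Topology Filter
open scoped NNReal Manifold ContDiff

namespace Pool.Agent.V5helper18.Nf

open Pool.Agent.V5helper18.Deg

section Coord

variable {ι : Type*} [Fintype ι]

theorem approx {V W : Type*} [NormedAddCommGroup V] [NormedSpace ℝ V] [FiniteDimensional ℝ V]
    [NormedAddCommGroup W] [NormedSpace ℝ W] {A : V → W} (hA : Continuous A) {ε : ℝ}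
    (hε : 0 < ε) : ∃ B : V → W, ContDiff ℝ 1 B ∧ ∀ x, ‖B x - A x‖ < ε := by
  obtain ⟨g, hg⟩ := exists_contMDiffMap_forall_mem_convex_of_local_const 𝓘(ℝ, V) (n := 1)
    (t := fun x => ball (A x) ε) (fun x => convex_ball _ _) (fun x => ⟨A x, by
      have h1 : ∀ᶠ y in 𝓝 x, dist (A y) (A x) < ε :=
        (Metric.tendsto_nhds.1 hA.continuousAt) ε hε
      filter_upwards [h1] with y hy
      rw [mem_ball, dist_comm]
      exact hy⟩)
  refine ⟨g, contMDiff_iff_contDiff.1 g.contMDiff, fun x => ?_⟩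
  rw [← dist_eq_norm]
  exact hg x

/-- Homotopy invariance for continuous homotopies. -/
theorem hom_inv_cont {G₀ G₁ : (ι → ℝ) → (ι → ℝ)} (h₀ : ContDiff ℝ 1 G₀) (h₁ : ContDiff ℝ 1 G₁)
    {A : ℝ × (ι → ℝ) → (ι → ℝ)} (hA : Continuous A) (hA0 : ∀ x, A (0, x) = G₀ x)
    (hA1 : ∀ x, A (1, x) = G₁ x)
    {O : Set (ι → ℝ)} (hO : IsOpen O) (hb : Bornology.IsBounded O) {c δ : ℝ} (hδ : 0 < δ)
    (hδc : δ < c / 2)
    (hf : ∀ t ∈ Icc (0 : ℝ) 1, ∀ x ∈ frontier O, c ≤ ‖A (t, x)‖) :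
    ∫ x in O, om δ (G₀ x) * (fderiv ℝ G₀ x).det = ∫ x in O, om δ (G₁ x) * (fderiv ℝ G₁ x).det := by
  have hc : 0 < c := by linarith
  have hK : IsCompact (Icc (0 : ℝ) 1 ×ˢ frontier O) :=
    isCompact_Icc.prod (hb.isCompact_closure.of_isClosed_subset isClosed_frontier
      frontier_subset_closure)
  have huc := hK.uniformContinuousOn_of_continuous hA.continuousOn
  obtain ⟨θ, hθ, h1⟩ := Metric.uniformContinuousOn_iff.1 huc (c / 8) (by positivity)
  obtain ⟨N, hN⟩ := exists_nat_gt (1 / θ)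
  have hN0 : (0 : ℝ) < N := lt_trans (by positivity) hN
  have hNθ : 1 / (N : ℝ) < θ := by
    rw [div_lt_iff₀ hN0]
    rw [div_lt_iff₀ hθ] at hN
    linarith
  have hN1 : 0 < N := by exact_mod_cast hN0
  have hB := fun i : ℕ => approx (A := fun x => A ((i : ℝ) / N, x)) (hA.comp (by fun_prop))
    (ε := c / 8) (by positivity)
  choose B' hB'1 hB'2 using hB
  let B : ℕ → (ι → ℝ) → (ι → ℝ) := fun i => if i = 0 then G₀ else if i = N then G₁ else B' i
  have hBs : ∀ i, ContDiff ℝ 1 (B i) := by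
    intro i
    by_cases h : i = 0
    · simp only [B, h, if_true]; exact h₀
    · by_cases h' : i = N
      · simp only [B, h, h', if_true, if_false, if_neg hN1.ne']; exact h₁
      · simp only [B, h, h', if_false]; exact hB'1 i
  have hBA : ∀ i x, ‖B i x - A ((i : ℝ) / N, x)‖ < c / 8 := by
    intro i x
    by_cases h : i = 0
    · simp only [B, h, if_true, Nat.cast_zero, zero_div, hA0, sub_self, norm_zero]
      positivity
    · by_cases h' : i = N
      · have e1 : (i : ℝ) / N = 1 := by rw [h', div_self hN0.ne']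
        rw [e1, hA1]
        simp only [B, h, h', if_true, if_neg hN1.ne', sub_self, norm_zero]
        positivity
      · simp only [B, h, h', if_false]; exact hB'2 i x
  have key : ∀ i : ℕ, i ≤ N → ∫ x in O, om δ (G₀ x) * (fderiv ℝ G₀ x).det =
      ∫ x in O, om δ (B i x) * (fderiv ℝ (B i) x).det := by
    intro i
    induction i with
    | zero => intro _; rfl
    | succ i ih =>
      intro hi
      rw [ih (by omega)]
      refine hom_inv (hBs i) (hBs (i + 1)) hO hb hδ fun s hs x hx => ?_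
      have hi' : (i : ℝ) / N ∈ Icc (0 : ℝ) 1 := by
        refine ⟨by positivity, ?_⟩
        rw [div_le_one hN0]
        exact_mod_cast (by omega : i ≤ N)
      have hi'' : ((i + 1 : ℕ) : ℝ) / N ∈ Icc (0 : ℝ) 1 := by
        refine ⟨by positivity, ?_⟩
        rw [div_le_one hN0]
        exact_mod_cast hi
      have h2 := hf _ hi' x hx
      have h3 := h1 ((i : ℝ) / N, x) ⟨hi', hx⟩ (((i + 1 : ℕ) : ℝ) / N, x) ⟨hi'', hx⟩ (by
        rw [Prod.dist_eq, dist_self, max_eq_left dist_nonneg, Real.dist_eq]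
        have e1 : (i : ℝ) / N - ((i + 1 : ℕ) : ℝ) / N = -(1 / N) := by
          push_cast
          field_simp
          ring
        rw [e1, abs_neg, abs_of_pos (by positivity)]
        exact hNθ)
      rw [dist_eq_norm] at h3
      have h4 := hBA i x
      have h5 := hBA (i + 1) x
      set a := A ((i : ℝ) / N, x) with ha
      set a' := A (((i + 1 : ℕ) : ℝ) / N, x) with ha'
      have e2 : a = ((1 - s) • B i x + s • B (i + 1) x) - ((1 - s) • (B i x - a) +
          s • (B (i + 1) x - a') - s • (a - a')) := by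
        simp only [smul_sub, sub_smul, one_smul]; abel
      have h6 := norm_sub_le ((1 - s) • B i x + s • B (i + 1) x) ((1 - s) • (B i x - a) +
          s • (B (i + 1) x - a') - s • (a - a'))
      rw [← e2] at h6
      have h7 := norm_sub_le ((1 - s) • (B i x - a) + s • (B (i + 1) x - a')) (s • (a - a'))
      have h8 := norm_add_le ((1 - s) • (B i x - a)) (s • (B (i + 1) x - a'))
      rw [norm_smul, norm_smul, Real.norm_eq_abs, Real.norm_eq_abs, abs_of_nonneg hs.1,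
        abs_of_nonneg (sub_nonneg.2 hs.2)] at h8
      rw [norm_smul, Real.norm_eq_abs, abs_of_nonneg hs.1] at h7
      have h9 : (1 - s) * ‖B i x - a‖ ≤ (1 - s) * (c / 8) :=
        mul_le_mul_of_nonneg_left h4.le (sub_nonneg.2 hs.2)
      have h10 : s * ‖B (i + 1) x - a'‖ ≤ s * (c / 8) :=
        mul_le_mul_of_nonneg_left h5.le hs.1
      have h11 : s * ‖a - a'‖ ≤ 1 * (c / 8) :=
        mul_le_mul hs.2 h3.le (norm_nonneg _) zero_le_one
      linarith
  have h2 := key N le_rfl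
  have e1 : B N = G₁ := by simp only [B, if_neg hN1.ne', if_true]
  rw [e1] at h2
  exact h2

theorem exists_low' {A : ℝ × (ι → ℝ) → (ι → ℝ)} (hA : Continuous A) {O : Set (ι → ℝ)}
    (hb : Bornology.IsBounded O)
    (hf : ∀ t ∈ Icc (0 : ℝ) 1, ∀ x ∈ frontier O, A (t, x) ≠ 0) :
    ∃ c : ℝ, 0 < c ∧ ∀ t ∈ Icc (0 : ℝ) 1, ∀ x ∈ frontier O, c ≤ ‖A (t, x)‖ := by
  have hK : IsCompact (Icc (0 : ℝ) 1 ×ˢ frontier O) :=
    isCompact_Icc.prod (hb.isCompact_closure.of_isClosed_subset isClosed_frontier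
      frontier_subset_closure)
  rcases (Icc (0 : ℝ) 1 ×ˢ frontier O).eq_empty_or_nonempty with he | hne
  · refine ⟨1, one_pos, fun t ht x hx => ?_⟩
    have : (t, x) ∈ Icc (0 : ℝ) 1 ×ˢ frontier O := ⟨ht, hx⟩
    rw [he] at this
    exact this.elim
  · obtain ⟨p, hp, hmin⟩ := hK.exists_isMinOn hne hA.norm.continuousOn
    exact ⟨‖A p‖, norm_pos_iff.2 (hf p.1 hp.1 p.2 hp.2), fun t ht x hx =>
      hmin (show (t, x) ∈ Icc (0 : ℝ) 1 ×ˢ frontier O from ⟨ht, hx⟩)⟩

theorem unique_zero_coord' {G₀ G₁ : (ι → ℝ) → (ι → ℝ)} (h₀ : ContDiff ℝ 1 G₀)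
    (h₁ : ContDiff ℝ 1 G₁) {A : ℝ × (ι → ℝ) → (ι → ℝ)} (hA : Continuous A)
    (hA0 : ∀ x, A (0, x) = G₀ x) (hA1 : ∀ x, A (1, x) = G₁ x)
    {O : Set (ι → ℝ)} (hO : IsOpen O) (hb : Bornology.IsBounded O)
    (hf : ∀ t ∈ Icc (0 : ℝ) 1, ∀ x ∈ frontier O, A (t, x) ≠ 0)
    {z₀ : ι → ℝ} (hz₀ : z₀ ∈ O) (hz0 : G₀ z₀ = 0) (huniq : ∀ z ∈ O, G₀ z = 0 → z = z₀)
    (hdet : (fderiv ℝ G₀ z₀).det ≠ 0) {σ : ℝ}
    (hσ : ∀ z ∈ O, G₁ z = 0 → 0 < σ * (fderiv ℝ G₁ z).det) :
    ∃ z, z ∈ O ∧ G₁ z = 0 ∧ ∀ w ∈ O, G₁ w = 0 → w = z := by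
  have hf0 : ∀ x ∈ frontier O, G₀ x ≠ 0 := by
    intro x hx
    have := hf 0 ⟨le_rfl, zero_le_one⟩ x hx
    rwa [hA0] at this
  have hf1 : ∀ x ∈ frontier O, G₁ x ≠ 0 := by
    intro x hx
    have := hf 1 ⟨zero_le_one, le_rfl⟩ x hx
    rwa [hA1] at this
  obtain ⟨Z₀, hZ₀, a, ha, h0⟩ := local_formula h₀ hO hb hf0 (by
    intro x hx hx0
    rw [huniq x hx hx0]; exact hdet)
  obtain ⟨Z₁, hZ₁, b, hb', h1⟩ := local_formula h₁ hO hb hf1 (by
    intro x hx hx0 h
    have := hσ x hx hx0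
    rw [h] at this
    simp at this)
  obtain ⟨c, hc, hcf⟩ := exists_low' hA hb hf
  set δ := min (min a b) (c / 2) / 2 with hδd
  have hm : 0 < min (min a b) (c / 2) := lt_min (lt_min ha hb') (half_pos hc)
  have hδ : 0 < δ := half_pos hm
  have hδa : δ < a := (half_lt_self hm).trans_le ((min_le_left _ _).trans (min_le_left _ _))
  have hδb : δ < b := (half_lt_self hm).trans_le ((min_le_left _ _).trans (min_le_right _ _))
  have hδc : δ < c / 2 := (half_lt_self hm).trans_le (min_le_right _ _)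
  have e0 := h0 δ hδ hδa
  have e1 := h1 δ hδ hδb
  have e2 := hom_inv_cont h₀ h₁ hA hA0 hA1 hO hb hδ hδc hcf
  rw [e0, e1] at e2
  have hZs : Z₀ = {z₀} := by
    ext x
    rw [hZ₀, Finset.mem_singleton]
    exact ⟨fun h => huniq x h.1 h.2, fun h => h ▸ ⟨hz₀, hz0⟩⟩
  rw [hZs, Finset.sum_singleton] at e2
  have habs0 : |Real.sign (fderiv ℝ G₀ z₀).det| = 1 := by
    rcases lt_or_gt_of_ne hdet with h | h
    · rw [Real.sign_of_neg h]; norm_num
    · rw [Real.sign_of_pos h]; norm_num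
  have hsum : ∑ z ∈ Z₁, Real.sign (fderiv ℝ G₁ z).det = Z₁.card * Real.sign σ := by
    rw [Finset.sum_congr rfl (g := fun _ => Real.sign σ), Finset.sum_const, nsmul_eq_mul]
    intro z hz
    have h := hσ z ((hZ₁ z).1 hz).1 ((hZ₁ z).1 hz).2
    rcases pos_and_pos_or_neg_and_neg_of_mul_pos h with ⟨h1, h2⟩ | ⟨h1, h2⟩
    · rw [Real.sign_of_pos h1, Real.sign_of_pos h2]
    · rw [Real.sign_of_neg h1, Real.sign_of_neg h2]
  rw [hsum] at e2
  have hcard : Z₁.card = 1 := by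
    rw [e2, abs_mul, Nat.abs_cast] at habs0
    have hσ1 : |Real.sign σ| = 1 := by
      rcases lt_trichotomy σ 0 with h | h | h
      · rw [Real.sign_of_neg h]; norm_num
      · rw [h, Real.sign_zero] at habs0; norm_num at habs0
      · rw [Real.sign_of_pos h]; norm_num
    rw [hσ1, mul_one] at habs0
    exact_mod_cast habs0
  obtain ⟨z, hz⟩ := Finset.card_eq_one.1 hcard
  have hzm : z ∈ Z₁ := hz ▸ Finset.mem_singleton_self z
  refine ⟨z, ((hZ₁ z).1 hzm).1, ((hZ₁ z).1 hzm).2, fun w hw hw0 => ?_⟩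
  have : w ∈ Z₁ := (hZ₁ w).2 ⟨hw, hw0⟩
  rw [hz] at this
  exact Finset.mem_singleton.1 this

theorem exists_zero_coord {G₀ : (ι → ℝ) → (ι → ℝ)} (h₀ : ContDiff ℝ 1 G₀)
    {A : ℝ × (ι → ℝ) → (ι → ℝ)} (hA : Continuous A)
    (hA0 : ∀ x, A (0, x) = G₀ x)
    {O : Set (ι → ℝ)} (hO : IsOpen O) (hb : Bornology.IsBounded O)
    (hf : ∀ t ∈ Icc (0 : ℝ) 1, ∀ x ∈ frontier O, A (t, x) ≠ 0)
    {z₀ : ι → ℝ} (hz₀ : z₀ ∈ O) (hz0 : G₀ z₀ = 0) (huniq : ∀ z ∈ O, G₀ z = 0 → z = z₀)
    (hdet : (fderiv ℝ G₀ z₀).det ≠ 0) : ∃ z ∈ O, A (1, z) = 0 := by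
  by_contra hcon
  push Not at hcon
  have hf0 : ∀ x ∈ frontier O, G₀ x ≠ 0 := by
    intro x hx
    have := hf 0 ⟨le_rfl, zero_le_one⟩ x hx
    rwa [hA0] at this
  obtain ⟨Z₀, hZ₀, a, ha, h0⟩ := local_formula h₀ hO hb hf0 (by
    intro x hx hx0
    rw [huniq x hx hx0]; exact hdet)
  obtain ⟨c, hc, hcf⟩ := exists_low' hA hb hf
  have hcl : ∀ x ∈ closure O, A (1, x) ≠ 0 := by
    intro x hx
    by_cases hxO : x ∈ O
    · exact hcon x hxO
    · exact hf 1 ⟨zero_le_one, le_rfl⟩ x (by rw [hO.frontier_eq]; exact ⟨hx, hxO⟩)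
  obtain ⟨m, hm, hmf⟩ : ∃ m : ℝ, 0 < m ∧ ∀ x ∈ closure O, m ≤ ‖A (1, x)‖ := by
    have hcont : Continuous fun x => ‖A (1, x)‖ := (hA.comp (by fun_prop)).norm
    obtain ⟨p, hp, hmin⟩ := hb.isCompact_closure.exists_isMinOn ⟨z₀, subset_closure hz₀⟩
      hcont.continuousOn
    exact ⟨_, norm_pos_iff.2 (hcl p hp), fun x hx => hmin hx⟩
  obtain ⟨B, hB1, hB2⟩ := approx (A := fun x => A (1, x)) (hA.comp (by fun_prop))
    (ε := min (c / 2) (m / 2)) (lt_min (half_pos hc) (half_pos hm))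
  let A' : ℝ × (ι → ℝ) → (ι → ℝ) := fun p => A p + p.1 • (B p.2 - A (1, p.2))
  have hA' : Continuous A' := by
    have := hB1.continuous
    have h2 : Continuous fun p : ℝ × (ι → ℝ) => A (1, p.2) := hA.comp (by fun_prop)
    fun_prop
  set δ := min (min a (c / 4)) (m / 2) / 2 with hδd
  have hmm : 0 < min (min a (c / 4)) (m / 2) := lt_min (lt_min ha (by positivity)) (half_pos hm)
  have hδ : 0 < δ := half_pos hmm
  have hδa : δ < a := (half_lt_self hmm).trans_le ((min_le_left _ _).trans (min_le_left _ _))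
  have hδc : δ < c / 4 := (half_lt_self hmm).trans_le ((min_le_left _ _).trans (min_le_right _ _))
  have hδm : δ < m / 2 := (half_lt_self hmm).trans_le (min_le_right _ _)
  have e0 := h0 δ hδ hδa
  have e2 := hom_inv_cont h₀ hB1 hA' (fun x => by simp [A', hA0]) (fun x => by simp [A']) hO hb
    (c := c / 2) hδ (by linarith) (fun t ht x hx => by
      have h1 := hcf t ht x hx
      have h2 := hB2 x
      have h3 : ‖A (t, x)‖ ≤ ‖A' (t, x)‖ + ‖t • (B x - A (1, x))‖ := by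
        have := norm_sub_le (A' (t, x)) (t • (B x - A (1, x)))
        have e : A' (t, x) - t • (B x - A (1, x)) = A (t, x) := by
          show A (t, x) + t • (B x - A (1, x)) - _ = _
          rw [add_sub_cancel_right]
        rwa [e] at this
      rw [norm_smul, Real.norm_eq_abs, abs_of_nonneg ht.1] at h3
      have h4 : t * ‖B x - A (1, x)‖ ≤ 1 * (c / 2) :=
        mul_le_mul ht.2 (h2.le.trans (min_le_left _ _)) (norm_nonneg _) zero_le_one
      linarith)
  have e3 : ∫ x in O, om δ (B x) * (fderiv ℝ B x).det = 0 := by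
    rw [← integral_zero (ι → ℝ) ℝ (μ := volume.restrict O)]
    apply setIntegral_congr_fun hO.measurableSet
    intro x hx
    have h1 := hmf x (subset_closure hx)
    have h2 := hB2 x
    have h3 : δ < ‖B x‖ := by
      have := norm_sub_le (B x) (B x - A (1, x))
      rw [sub_sub_cancel] at this
      have := min_le_right (c / 2) (m / 2)
      linarith
    simp only [om_zero hδ h3, zero_mul]
  have hZs : Z₀ = {z₀} := by
    ext x
    rw [hZ₀, Finset.mem_singleton]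
    exact ⟨fun h => huniq x h.1 h.2, fun h => h ▸ ⟨hz₀, hz0⟩⟩
  rw [e0, e3, hZs, Finset.sum_singleton, Real.sign_eq_zero_iff] at e2
  exact hdet e2

end Coord

variable {V : Type*} [NormedAddCommGroup V] [NormedSpace ℝ V] [FiniteDimensional ℝ V]

theorem coord_fderiv_det (e : V ≃L[ℝ] (Fin (Module.finrank ℝ V) → ℝ)) {G : V → V}
    (hG : ContDiff ℝ 1 G) (y) :
    (fderiv ℝ (fun y => e (G (e.symm y))) y).det = (fderiv ℝ G (e.symm y)).det := by
  have h1 : HasFDerivAt G (fderiv ℝ G (e.symm y)) (e.symm y) :=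
    (hG.differentiable (by norm_num) _).hasFDerivAt
  have h2 : HasFDerivAt (fun y => e (G (e.symm y)))
      ((e : V →L[ℝ] _).comp ((fderiv ℝ G (e.symm y)).comp (e.symm : _ →L[ℝ] V))) y :=
    e.hasFDerivAt.comp y (h1.comp y e.symm.hasFDerivAt)
  rw [h2.fderiv, det_conj]

/-- Uniqueness of zeros through a continuous homotopy. -/
theorem unique_zero' {G₀ G₁ : V → V} (h₀ : ContDiff ℝ 1 G₀)
    (h₁ : ContDiff ℝ 1 G₁) {A : ℝ × V → V} (hA : Continuous A)
    (hA0 : ∀ x, A (0, x) = G₀ x) (hA1 : ∀ x, A (1, x) = G₁ x)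
    {O : Set V} (hO : IsOpen O) (hb : Bornology.IsBounded O)
    (hf : ∀ t ∈ Icc (0 : ℝ) 1, ∀ x ∈ frontier O, A (t, x) ≠ 0)
    {z₀ : V} (hz₀ : z₀ ∈ O) (hz0 : G₀ z₀ = 0) (huniq : ∀ z ∈ O, G₀ z = 0 → z = z₀)
    (hdet : (fderiv ℝ G₀ z₀).det ≠ 0) {σ : ℝ}
    (hσ : ∀ z ∈ O, G₁ z = 0 → 0 < σ * (fderiv ℝ G₁ z).det) :
    ∃ z, z ∈ O ∧ G₁ z = 0 ∧ ∀ w ∈ O, G₁ w = 0 → w = z := by
  let e : V ≃L[ℝ] (Fin (Module.finrank ℝ V) → ℝ) :=
    ContinuousLinearEquiv.ofFinrankEq (by simp)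
  have hcd : ∀ G : V → V, ContDiff ℝ 1 G → ContDiff ℝ 1 (fun y => e (G (e.symm y))) :=
    fun G hG => e.contDiff.comp (hG.comp e.symm.contDiff)
  set O' : Set (Fin (Module.finrank ℝ V) → ℝ) := e.symm ⁻¹' O with hO'
  have hO'o : IsOpen O' := hO.preimage e.symm.continuous
  have hO'e : O' = e '' O := (e.image_eq_preimage_symm O).symm
  have hb' : Bornology.IsBounded O' := by
    rw [hO'e]
    exact e.lipschitz.isBounded_image hb
  have hfr : ∀ x ∈ frontier O', e.symm x ∈ frontier O := by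
    intro x hx
    have := e.symm.toHomeomorph.preimage_frontier O
    rw [← mem_preimage]
    have h2 : (e.symm : _ → V) ⁻¹' frontier O = frontier O' := this
    rw [h2]; exact hx
  obtain ⟨z, hz1, hz2, hz3⟩ := unique_zero_coord' (hcd G₀ h₀) (hcd G₁ h₁)
    (A := fun p => e (A (p.1, e.symm p.2))) (by fun_prop) (fun x => by simp only [hA0])
    (fun x => by simp only [hA1]) hO'o hb' (σ := σ)
    (z₀ := e z₀) (by
      intro t ht x hx h
      apply hf t ht _ (hfr x hx)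
      apply e.injective
      simpa using h) (by simpa [hO'] using hz₀) (by simp [hz0]) (by
      intro z hz hz'
      have h1 : G₀ (e.symm z) = 0 := by
        apply e.injective
        simpa using hz'
      rw [← huniq _ hz h1]; simp) (by
      rw [coord_fderiv_det e h₀]; simpa using hdet) (by
      intro z hz hz'
      have h1 : G₁ (e.symm z) = 0 := by
        apply e.injective
        simpa using hz'
      rw [coord_fderiv_det e h₁]
      exact hσ _ hz h1)
  refine ⟨e.symm z, hz1, ?_, ?_⟩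
  · apply e.injective
    simpa using hz2
  · intro w hw hw'
    rw [← hz3 (e w) (by simpa [hO'] using hw) (by simp [hw'])]
    simp

/-- Existence of zeros through a continuous homotopy. -/
theorem exists_zero' {G₀ : V → V} (h₀ : ContDiff ℝ 1 G₀) {A : ℝ × V → V} (hA : Continuous A)
    (hA0 : ∀ x, A (0, x) = G₀ x)
    {O : Set V} (hO : IsOpen O) (hb : Bornology.IsBounded O)
    (hf : ∀ t ∈ Icc (0 : ℝ) 1, ∀ x ∈ frontier O, A (t, x) ≠ 0)
    {z₀ : V} (hz₀ : z₀ ∈ O) (hz0 : G₀ z₀ = 0) (huniq : ∀ z ∈ O, G₀ z = 0 → z = z₀)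
    (hdet : (fderiv ℝ G₀ z₀).det ≠ 0) : ∃ z ∈ O, A (1, z) = 0 := by
  let e : V ≃L[ℝ] (Fin (Module.finrank ℝ V) → ℝ) :=
    ContinuousLinearEquiv.ofFinrankEq (by simp)
  have hcd : ∀ G : V → V, ContDiff ℝ 1 G → ContDiff ℝ 1 (fun y => e (G (e.symm y))) :=
    fun G hG => e.contDiff.comp (hG.comp e.symm.contDiff)
  set O' : Set (Fin (Module.finrank ℝ V) → ℝ) := e.symm ⁻¹' O with hO'
  have hO'o : IsOpen O' := hO.preimage e.symm.continuous
  have hO'e : O' = e '' O := (e.image_eq_preimage_symm O).symm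
  have hb' : Bornology.IsBounded O' := by
    rw [hO'e]
    exact e.lipschitz.isBounded_image hb
  have hfr : ∀ x ∈ frontier O', e.symm x ∈ frontier O := by
    intro x hx
    have := e.symm.toHomeomorph.preimage_frontier O
    rw [← mem_preimage]
    have h2 : (e.symm : _ → V) ⁻¹' frontier O = frontier O' := this
    rw [h2]; exact hx
  obtain ⟨z, hz1, hz2⟩ := exists_zero_coord (hcd G₀ h₀)
    (A := fun p => e (A (p.1, e.symm p.2))) (by fun_prop) (fun x => by simp only [hA0]) hO'o hb'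
    (z₀ := e z₀) (by
      intro t ht x hx h
      apply hf t ht _ (hfr x hx)
      apply e.injective
      simpa using h) (by simpa [hO'] using hz₀) (by simp [hz0]) (by
      intro z hz hz'
      have h1 : G₀ (e.symm z) = 0 := by
        apply e.injective
        simpa using hz'
      rw [← huniq _ hz h1]; simp) (by
      rw [coord_fderiv_det e h₀]; simpa using hdet)
  refine ⟨e.symm z, hz1, ?_⟩
  apply e.injective
  simpa using hz2

end Pool.Agent.V5helper18.Nf
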