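import Pool.Agent.V5helper18.Nf.A
import Pool.Agent.V5helper18.Ch.A

/-!
# The index of the fixed points of a map that preserves a splitting
-/

set_option autoImplicit false

open Set Metric Topology Filter

namespace Pool.Agent.V5helper18.Nf

open Pool.Agent.V5helper18.Ch

variable {V : Type*} [NormedAddCommGroup V] [NormedSpace ℝ V] [FiniteDimensional ℝ V]

theorem sign_fixed {P : V → V →L[ℝ] V} (hPc : Continuous P) (hPP : ∀ z, P z * P z = P z)
    {F : V → V} (hF : ContDiff ℝ 1 F) (hinj : ∀ z v, fderiv ℝ F z v = 0 → v = 0)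
    (hcomm : ∀ z v, fderiv ℝ F z (P z v) = P (F z) (fderiv ℝ F z v))
    (hs : ∀ z, F z = z → ∀ τ ∈ Icc (0 : ℝ) 1, ∀ v, P z v = 0 → v = τ • fderiv ℝ F z v → v = 0)
    (hu : ∀ z, F z = z → ∀ τ ∈ Icc (0 : ℝ) 1, ∀ v, P z v = v → fderiv ℝ F z v = τ • v → v = 0)
    {r : ℝ} (hr : 0 < r) :
    ∃ σ : ℝ, ∀ z ∈ ball (0 : V) r, F z = z → 0 < σ * (1 - fderiv ℝ F z).det := by
  obtain ⟨R₀, hR₀⟩ : ∃ R₀ : ℝ, ∀ z ∈ closedBall (0 : V) r, ‖F z‖ ≤ R₀ := by
    obtain ⟨R₀, h⟩ := ((isCompact_closedBall (0 : V) r).image hF.continuous).isBounded.exists_norm_le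
    exact ⟨R₀, fun z hz => h _ ⟨z, hz, rfl⟩⟩
  set R := max r R₀ with hRd
  have hR : 0 ≤ R := hr.le.trans (le_max_left _ _)
  obtain ⟨U, hU1, hU2⟩ := exists_triv (0 : V) hR P hPc.continuousOn (fun z _ => hPP z)
  have hbR : ∀ y ∈ ball (0 : V) r, y ∈ closedBall (0 : V) R := fun y hy =>
    closedBall_subset_closedBall (le_max_left _ _) (ball_subset_closedBall hy)
  have hmaps : ∀ y ∈ ball (0 : V) r, F y ∈ closedBall (0 : V) R := fun y hy => by
    rw [mem_closedBall_zero_iff]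
    exact (hR₀ y (ball_subset_closedBall hy)).trans (le_max_right _ _)
  have hcc : (0 : V) ∈ closedBall (0 : V) R := mem_closedBall_self hR
  have hF' : Continuous (fderiv ℝ F) := hF.continuous_fderiv (by norm_num)
  set L : V → (V →L[ℝ] V) := fun y => U (F y) * (1 - P 0) - fderiv ℝ F y * (U y * P 0) with hL
  have hLc : ContinuousOn L (ball 0 r) := by
    apply ContinuousOn.sub
    · exact (hU1.comp hF.continuous.continuousOn hmaps).mul continuousOn_const
    · exact hF'.continuousOn.mul ((hU1.mono hbR).mul continuousOn_const)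
  have hUinj : ∀ z ∈ closedBall (0 : V) R, ∀ v, U z v = 0 → v = 0 := by
    intro z hz v hv
    let e := ContinuousLinearMap.toContinuousLinearEquivOfDetNeZero (U z) (hU2 z hz).1
    have : e v = e 0 := by
      simpa [e] using hv
    exact e.injective this
  have hPPv : ∀ z v, P z (P z v) = P z v := by
    intro z v
    have := congrArg (fun T : V →L[ℝ] V => T v) (hPP z)
    simpa using this
  have hPU : ∀ z ∈ closedBall (0 : V) R, ∀ v, P z (U z v) = U z (P 0 v) := by
    intro z hz v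
    have := congrArg (fun T : V →L[ℝ] V => T v) (hU2 z hz).2
    simpa using this
  have hLne : ∀ y ∈ ball (0 : V) r, (L y).det ≠ 0 := by
    intro y hy
    apply det_ne_zero_of_inj
    intro v hv
    have h1 : U (F y) (v - P 0 v) = fderiv ℝ F y (U y (P 0 v)) := by
      simpa [hL, sub_eq_zero] using hv
    have h2 : P (F y) (U (F y) (v - P 0 v)) = 0 := by
      rw [hPU _ (hmaps y hy), map_sub, hPPv, sub_self, map_zero]
    have h3 : P (F y) (fderiv ℝ F y (U y (P 0 v))) = fderiv ℝ F y (U y (P 0 v)) := by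
      rw [← hcomm, hPU y (hbR y hy), hPPv]
    have h4 : fderiv ℝ F y (U y (P 0 v)) = 0 := by
      rw [← h3, ← h1, h2]
    have h5 : P 0 v = 0 := hUinj y (hbR y hy) _ (hinj y _ h4)
    rw [h4, h5, sub_zero] at h1
    exact hUinj _ (hmaps y hy) _ h1
  have hUne : ∀ y ∈ ball (0 : V) r, (U y).det ≠ 0 := fun y hy => (hU2 y (hbR y hy)).1
  refine ⟨(L 0).det * (U 0).det, fun y hy hfix => ?_⟩
  set X := (1 - P y) - fderiv ℝ F y * P y with hX
  have hXL : X * U y = L y := by
    ext v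
    have e1 := hPU y (hbR y hy) v
    simp [hX, hL, e1, hfix]
  have hpos := sign_const (S := ball (0 : V) r) (convex_ball 0 r).isPreconnected
    (f := fun y => (L y).det * (U y).det)
    ((ContinuousLinearMap.continuous_det.comp_continuousOn hLc).mul
      (ContinuousLinearMap.continuous_det.comp_continuousOn (hU1.mono hbR)))
    (fun y hy => mul_ne_zero (hLne y hy) (hUne y hy)) (mem_ball_self hr) hy
  have e3 : (L y).det = X.det * (U y).det := by rw [← hXL, det_mul]
  simp only [e3] at hpos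
  have e4 : 0 < (U y).det * (U y).det := mul_self_pos.2 (hUne y hy)
  have e5 : (L 0).det * (U 0).det * (X.det * (U y).det * (U y).det) =
      (L 0).det * (U 0).det * X.det * ((U y).det * (U y).det) := by ring
  rw [e5] at hpos
  have h1 : 0 < (L 0).det * (U 0).det * X.det := (pos_iff_pos_of_mul_pos hpos).2 e4
  have h2 := det_hom (fderiv ℝ F y) (P y) (hPPv y) (fun v => by rw [hcomm, hfix])
    (fun τ hτ v h3 h4 => hs y hfix τ hτ v h3 h4) (fun τ hτ v h3 h4 => hu y hfix τ hτ v h3 h4)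
  set a := (1 - fderiv ℝ F y).det
  have h3 : 0 < ((L 0).det * (U 0).det * X.det) * (a * X.det) := mul_pos h1 h2
  have h4 : X.det ≠ 0 := by
    intro h; rw [h] at h1; simp at h1
  have h5 : ((L 0).det * (U 0).det * X.det) * (a * X.det) =
      ((L 0).det * (U 0).det * a) * (X.det * X.det) := by ring
  rw [h5] at h3
  exact (pos_iff_pos_of_mul_pos h3).2 (mul_self_pos.2 h4)

/-- **Uniqueness of fixed points through a homotopy.** -/
theorem unique_fixed {P : V → V →L[ℝ] V} (hPc : Continuous P) (hPP : ∀ z, P z * P z = P z)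
    {F G : V → V} (hF : ContDiff ℝ 1 F) (hG : ContDiff ℝ 1 G)
    (hinj : ∀ z v, fderiv ℝ F z v = 0 → v = 0)
    (hcomm : ∀ z v, fderiv ℝ F z (P z v) = P (F z) (fderiv ℝ F z v))
    (hs : ∀ z, F z = z → ∀ τ ∈ Icc (0 : ℝ) 1, ∀ v, P z v = 0 → v = τ • fderiv ℝ F z v → v = 0)
    (hu : ∀ z, F z = z → ∀ τ ∈ Icc (0 : ℝ) 1, ∀ v, P z v = v → fderiv ℝ F z v = τ • v → v = 0)
    {K : ℝ × V → V} (hK : Continuous K) (hK0 : ∀ x, K (0, x) = G x) (hK1 : ∀ x, K (1, x) = F x)
    {q : V} (hq : G q = q) (hqu : ∀ x, G x = x → x = q)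
    (hqd : ∀ v, fderiv ℝ G q v = v → v = 0)
    (hcomp : Bornology.IsBounded {x : V | ∃ t ∈ Icc (0 : ℝ) 1, K (t, x) = x}) :
    ∃ p, F p = p ∧ ∀ x, F x = x → x = p := by
  obtain ⟨r₀, hr₀⟩ := hcomp.exists_norm_le
  set r := max r₀ 0 + 1 with hrd
  have hr : 0 < r := by
    have := le_max_right r₀ 0
    linarith
  have hlt : ∀ x, (∃ t ∈ Icc (0 : ℝ) 1, K (t, x) = x) → x ∈ ball (0 : V) r := by
    intro x hx
    rw [mem_ball_zero_iff]
    have := hr₀ x hx
    have := le_max_left r₀ 0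
    linarith
  obtain ⟨σ, hσ⟩ := sign_fixed hPc hPP hF hinj hcomm hs hu hr
  have hd : ∀ (H : V → V), ContDiff ℝ 1 H → ∀ x, fderiv ℝ (fun x => x - H x) x =
      1 - fderiv ℝ H x := by
    intro H hH x
    exact ((hasFDerivAt_id x).sub ((hH.differentiable (by norm_num) x).hasFDerivAt)).fderiv
  obtain ⟨z, hz1, hz2, hz3⟩ := unique_zero' (G₀ := fun x => x - G x) (G₁ := fun x => x - F x)
    (contDiff_id.sub hG) (contDiff_id.sub hF) (A := fun p => p.2 - K p)
    (continuous_snd.sub hK) (fun x => by simp only [hK0]) (fun x => by simp only [hK1])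
    (O := ball (0 : V) r) isOpen_ball isBounded_ball (z₀ := q) (σ := σ)
    (fun t ht x hx h => by
      have h1 : K (t, x) = x := (sub_eq_zero.1 h).symm
      have h2 := hlt x ⟨t, ht, h1⟩
      rw [frontier_ball _ hr.ne', mem_sphere] at hx
      rw [mem_ball] at h2
      linarith)
    (hlt q ⟨0, ⟨le_rfl, zero_le_one⟩, by rw [hK0, hq]⟩) (by simp only [hq, sub_self])
    (fun z _ hz => hqu z (sub_eq_zero.1 hz).symm)
    (by
      rw [hd G hG]
      apply det_ne_zero_of_inj
      intro v hv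
      apply hqd
      have : v - fderiv ℝ G q v = 0 := hv
      exact (sub_eq_zero.1 this).symm)
    (fun z hz hz0 => by
      rw [hd F hF]
      exact hσ z hz (sub_eq_zero.1 hz0).symm)
  refine ⟨z, (sub_eq_zero.1 hz2).symm, fun x hx => hz3 x ?_ (sub_eq_zero.2 hx.symm)⟩
  exact hlt x ⟨1, ⟨zero_le_one, le_rfl⟩, by rw [hK1, hx]⟩

end Pool.Agent.V5helper18.Nf
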