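import Mathlib

/-!
# Coverings of a compact space by a normed space
-/

set_option autoImplicit false
set_option linter.unusedSectionVars false

open Set Metric Topology Filter

namespace Pool.Agent.V5helper18.Nf

/-- the deck transformations -/
def Deck {E M : Type*} [TopologicalSpace E] (π : E → M) : Subgroup (E ≃ₜ E) where
  carrier := {γ | ∀ x, π (γ x) = π x}
  one_mem' := fun _ => rfl
  mul_mem' := by
    intro a b ha hb x
    show π (a (b x)) = π x
    rw [ha, hb]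
  inv_mem' := by
    intro a ha x
    show π (a.symm x) = π x
    rw [← ha (a.symm x), Homeomorph.apply_symm_apply]

section basic

variable {E : Type*} [NormedAddCommGroup E] [NormedSpace ℝ E] {M : Type*} [TopologicalSpace M]
  {π : E → M}

theorem mem_deck {γ : E ≃ₜ E} : γ ∈ Deck π ↔ ∀ x, π (γ x) = π x := Iff.rfl

theorem lift_unique (hπ : IsCoveringMap π) {A : Type*} [TopologicalSpace A] [PreconnectedSpace A]
    {Φ Ψ : A → E} (h1 : Continuous Φ) (h2 : Continuous Ψ) (h : ∀ a, π (Φ a) = π (Ψ a)) (a : A)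
    (ha : Φ a = Ψ a) : Φ = Ψ :=
  hπ.eq_of_comp_eq h1 h2 (funext h) a ha

theorem exists_lift (hπ : IsCoveringMap π) {A : Type*} [TopologicalSpace A]
    [SimplyConnectedSpace A] [LocallyPathConnectedSpace A] {φ : A → M} (hφ : Continuous φ) {a : A}
    {e : E} (he : π e = φ a) : ∃ Φ : A → E, Continuous Φ ∧ (∀ x, π (Φ x) = φ x) ∧ Φ a = e := by
  obtain ⟨Φ, ⟨h1, h2⟩, -⟩ := hπ.existsUnique_continuousMap_lifts ⟨φ, hφ⟩ a e he
  exact ⟨Φ, Φ.continuous, fun x => congrFun h2 x, h1⟩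

theorem deck_unique (hπ : IsCoveringMap π) {γ γ' : E ≃ₜ E} (h : γ ∈ Deck π) (h' : γ' ∈ Deck π)
    {x : E} (hx : γ x = γ' x) : γ = γ' := by
  have := lift_unique hπ γ.continuous γ'.continuous (fun a => by rw [h a, h' a]) x hx
  exact Homeomorph.ext fun a => congrFun this a

theorem exists_deck (hπ : IsCoveringMap π) {x y : E} (h : π x = π y) : ∃ γ ∈ Deck π, γ x = y := by
  obtain ⟨Φ, h1, h2, h3⟩ := exists_lift hπ hπ.continuous (a := x) (e := y) h.symm
  obtain ⟨Ψ, k1, k2, k3⟩ := exists_lift hπ hπ.continuous (a := y) (e := x) h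
  have e1 : Ψ ∘ Φ = id := lift_unique hπ (k1.comp h1) continuous_id
    (fun a => by simp only [Function.comp_apply, id]; rw [k2, h2]) x (by simp [h3, k3])
  have e2 : Φ ∘ Ψ = id := lift_unique hπ (h1.comp k1) continuous_id
    (fun a => by simp only [Function.comp_apply, id]; rw [h2, k2]) y (by simp [h3, k3])
  exact ⟨⟨⟨Φ, Ψ, fun a => congrFun e1 a, fun a => congrFun e2 a⟩, h1, k1⟩, h2, h3⟩

/-- two lifts of the same map differ by a deck transformation -/
theorem exists_deck_lift (hπ : IsCoveringMap π) {A : Type*} [TopologicalSpace A]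
    [ConnectedSpace A] {Φ Ψ : A → E} (h1 : Continuous Φ) (h2 : Continuous Ψ)
    (h : ∀ a, π (Φ a) = π (Ψ a)) : ∃ γ ∈ Deck π, ∀ a, γ (Φ a) = Ψ a := by
  obtain ⟨a₀⟩ : Nonempty A := inferInstance
  obtain ⟨γ, h3, h4⟩ := exists_deck hπ (h a₀)
  refine ⟨γ, h3, fun a => ?_⟩
  have := lift_unique hπ (γ.continuous.comp h1) h2
    (fun a => by simp only [Function.comp_apply]; rw [h3 (Φ a), h a]) a₀ h4
  exact congrFun this a

/-- discreteness -/
theorem eventually_deck [T2Space M] (hπ : IsCoveringMap π) {y : ℕ → E} {γ : ℕ → (E ≃ₜ E)}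
    (hγ : ∀ j, γ j ∈ Deck π) {a b : E} (hy : Tendsto y atTop (𝓝 a))
    (hb : Tendsto (fun j => γ j (y j)) atTop (𝓝 b)) :
    ∃ δ ∈ Deck π, δ a = b ∧ ∀ᶠ j in atTop, γ j = δ := by
  have h1 : Tendsto (fun j => π (γ j (y j))) atTop (𝓝 (π b)) :=
    (hπ.continuous.tendsto b).comp hb
  have h2 : Tendsto (fun j => π (γ j (y j))) atTop (𝓝 (π a)) := by
    have : (fun j => π (γ j (y j))) = fun j => π (y j) := funext fun j => hγ j (y j)
    rw [this]
    exact (hπ.continuous.tendsto a).comp hy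
  have hab : π a = π b := tendsto_nhds_unique h2 h1
  obtain ⟨δ, hδ, hδa⟩ := exists_deck hπ hab
  refine ⟨δ, hδ, hδa, ?_⟩
  obtain ⟨U, hUo, haU, hU⟩ := hπ.isLocalHomeomorph.isLocallyInjective a
  have h3 : Tendsto (fun j => δ.symm (γ j (y j))) atTop (𝓝 a) := by
    have := (δ.symm.continuous.tendsto b).comp hb
    rwa [← hδa, Homeomorph.symm_apply_apply] at this
  filter_upwards [hy.eventually (hUo.mem_nhds haU), h3.eventually (hUo.mem_nhds haU)] with j hj1 hj2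
  have h4 : δ.symm (γ j (y j)) = y j := by
    apply hU hj2 hj1
    exact ((inv_mem hδ : δ⁻¹ ∈ Deck π) (γ j (y j))).trans (hγ j _)
  apply deck_unique hπ (hγ j) hδ (x := y j)
  exact (δ.apply_symm_apply _).symm.trans (congrArg δ h4)

theorem surj [T2Space M] [ConnectedSpace M] (hπ : IsCoveringMap π) : Function.Surjective π := by
  rw [← range_eq_univ]
  apply IsClopen.eq_univ _ ⟨π 0, mem_range_self 0⟩
  refine ⟨?_, hπ.isOpenMap.isOpen_range⟩
  rw [← isOpen_compl_iff, isOpen_iff_mem_nhds]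
  intro x hx
  obtain ⟨-, U, hxU, hUo, -, H, hH⟩ := hπ x
  filter_upwards [hUo.mem_nhds hxU] with y hy
  rintro ⟨z, rfl⟩
  exact hx ⟨_, (H ⟨z, hy⟩).2.2⟩

/-- a ball that meets all orbits -/
theorem exists_ball [T2Space M] [CompactSpace M] [ConnectedSpace M] (hπ : IsCoveringMap π) :
    ∃ r : ℝ, 0 < r ∧ ∀ x : E, ∃ γ ∈ Deck π, ‖γ x‖ ≤ r := by
  have h1 : (univ : Set M) ⊆ ⋃ n : ℕ, π '' ball 0 (n : ℝ) := by
    intro x _
    obtain ⟨z, rfl⟩ := surj hπ x
    obtain ⟨n, hn⟩ := exists_nat_gt ‖z‖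
    exact mem_iUnion.2 ⟨n, z, by simpa using hn, rfl⟩
  obtain ⟨n, hn⟩ := isCompact_univ.elim_directed_cover _
    (fun n : ℕ => hπ.isOpenMap _ isOpen_ball) h1
    (Monotone.directed_le fun a b hab => image_mono (ball_subset_ball (by exact_mod_cast hab)))
  refine ⟨max n 1, by positivity, fun x => ?_⟩
  obtain ⟨z, hz, hzx⟩ := hn (mem_univ (π x))
  obtain ⟨γ, hγ, hγx⟩ := exists_deck hπ hzx.symm
  refine ⟨γ, hγ, ?_⟩
  rw [hγx]
  rw [mem_ball_zero_iff] at hz
  exact hz.le.trans (le_max_left _ _)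

/-- sequences of pairs -/
theorem extract_seq [FiniteDimensional ℝ E] {r : ℝ} {t : ℕ → ℝ} {y : ℕ → E}
    (ht : ∀ j, t j ∈ Icc (0 : ℝ) 1) (hy : ∀ j, ‖y j‖ ≤ r) :
    ∃ (s : ℝ) (a : E) (φ : ℕ → ℕ), StrictMono φ ∧ s ∈ Icc (0 : ℝ) 1 ∧
      Tendsto (fun j => t (φ j)) atTop (𝓝 s) ∧ Tendsto (fun j => y (φ j)) atTop (𝓝 a) := by
  have hK : IsCompact (Icc (0 : ℝ) 1 ×ˢ closedBall (0 : E) r) :=
    isCompact_Icc.prod (isCompact_closedBall _ _)
  obtain ⟨p, hp, φ, hφ, hlim⟩ := hK.tendsto_subseq (x := fun j => (t j, y j))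
    (fun j => ⟨ht j, by simpa using hy j⟩)
  exact ⟨p.1, p.2, φ, hφ, hp.1, (continuous_fst.tendsto _).comp hlim,
    (continuous_snd.tendsto _).comp hlim⟩

/-- **Compactness of the fixed points of an equivariant homotopy.** -/
theorem bounded_fix [FiniteDimensional ℝ E] [T2Space M] [CompactSpace M] [ConnectedSpace M]
    (hπ : IsCoveringMap π) {K : ℝ × E → E} (hK : Continuous K)
    (heq : ∀ γ ∈ Deck π, ∃ γ' ∈ Deck π, ∀ t x, K (t, γ x) = γ' (K (t, x)))
    {q : E} (hq : K (0, q) = q) (hqu : ∀ x, K (0, x) = x → x = q) :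
    Bornology.IsBounded {x | ∃ t ∈ Icc (0 : ℝ) 1, K (t, x) = x} := by
  by_contra hcon
  obtain ⟨r, hr, hD⟩ := exists_ball hπ
  rw [isBounded_iff_forall_norm_le] at hcon
  push Not at hcon
  have h1 : ∀ j : ℕ, ∃ x : E, (∃ t ∈ Icc (0 : ℝ) 1, K (t, x) = x) ∧ (j : ℝ) < ‖x‖ := fun j => by
    obtain ⟨x, hx, hx'⟩ := hcon j
    exact ⟨x, hx, hx'⟩
  choose x hx hxn using h1
  choose t ht hKt using hx
  choose β hβ hβr using fun j => hD (x j)
  choose Φ hΦ hΦK using heq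
  obtain ⟨s, a, φ, hφ, hs, hts, hya⟩ := extract_seq (t := t) (y := fun j => β j (x j)) ht hβr
  set y : ℕ → E := fun j => β (φ j) (x (φ j)) with hyd
  set γ : ℕ → (E ≃ₜ E) := fun j => (β (φ j))⁻¹ with hγd
  have hγ : ∀ j, γ j ∈ Deck π := fun j => inv_mem (hβ _)
  have hγy : ∀ j, γ j (y j) = x (φ j) := fun j => (β (φ j)).symm_apply_apply _
  set δ : ℕ → (E ≃ₜ E) := fun j => Φ (γ j) (hγ j) with hδd
  have hδ : ∀ j, δ j ∈ Deck π := fun j => hΦ _ _
  have hδK : ∀ j u z, K (u, γ j z) = δ j (K (u, z)) := fun j u z => hΦK _ _ u z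
  have hε : ∀ j, (δ j)⁻¹ * γ j ∈ Deck π := fun j => mul_mem (inv_mem (hδ j)) (hγ j)
  have hεy : ∀ j, ((δ j)⁻¹ * γ j) (y j) = K (t (φ j), y j) := by
    intro j
    show (δ j).symm (γ j (y j)) = _
    rw [hγy, ← hKt, ← hγy, hδK, Homeomorph.symm_apply_apply]
  have hlim : Tendsto (fun j => ((δ j)⁻¹ * γ j) (y j)) atTop (𝓝 (K (s, a))) := by
    simp only [hεy]
    exact (hK.tendsto (s, a)).comp (hts.prodMk_nhds hya)
  obtain ⟨ε, hεD, -, hev⟩ := eventually_deck hπ hε hya hlim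
  obtain ⟨N, hN⟩ := eventually_atTop.1 hev
  have hconst : ∀ j ≥ N, γ j = γ N := by
    intro j hj
    have e1 : γ j = δ j * ε := by rw [← hN j hj]; group
    have e2 : γ N = δ N * ε := by rw [← hN N le_rfl]; group
    have e3 : γ j * (γ N)⁻¹ = δ j * (δ N)⁻¹ := by rw [e1, e2]; group
    have e4 : ∀ u z, K (u, (γ j * (γ N)⁻¹) z) = (γ j * (γ N)⁻¹) (K (u, z)) := by
      intro u z
      have e5 : K (u, (γ N)⁻¹ z) = (δ N)⁻¹ (K (u, z)) := by
        have := hδK N u ((γ N)⁻¹ z)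
        have e6 : γ N ((γ N)⁻¹ z) = z := (γ N).apply_symm_apply z
        rw [e6] at this
        rw [this]
        exact ((δ N).symm_apply_apply _).symm
      show K (u, γ j ((γ N)⁻¹ z)) = _
      rw [hδK, e5, e3]
      rfl
    have e5 : (γ j * (γ N)⁻¹) q = q := by
      apply hqu
      rw [e4, hq]
    have e6 : γ j * (γ N)⁻¹ = 1 :=
      deck_unique hπ (mul_mem (hγ j) (inv_mem (hγ N))) (one_mem _) (x := q) (by
        rw [e5]; rfl)
    exact mul_inv_eq_one.1 e6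
  obtain ⟨R, hR⟩ := ((isCompact_closedBall (0 : E) r).image (γ N).continuous).isBounded.exists_norm_le
  obtain ⟨m, hm⟩ := exists_nat_gt R
  have h2 := hxn (φ (max N m))
  have h3 : m ≤ φ (max N m) := (le_max_right N m).trans hφ.le_apply
  have h4 : ‖x (φ (max N m))‖ ≤ R := by
    rw [← hγy, hconst _ (le_max_left N m)]
    exact hR _ ⟨_, by simpa [hyd] using hβr _, rfl⟩
  have h5 : (m : ℝ) ≤ φ (max N m) := by exact_mod_cast h3
  linarith

/-- Properness of an equivariant homotopy. -/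
theorem bounded_fibre [FiniteDimensional ℝ E] [T2Space M] [CompactSpace M] [ConnectedSpace M]
    (hπ : IsCoveringMap π) {H : ℝ × E → E} (hH : Continuous H)
    (heq : ∀ γ ∈ Deck π, ∀ t x, H (t, γ x) = γ (H (t, x))) (w : E) :
    Bornology.IsBounded {x | ∃ t ∈ Icc (0 : ℝ) 1, H (t, x) = w} := by
  by_contra hcon
  obtain ⟨r, hr, hD⟩ := exists_ball hπ
  rw [isBounded_iff_forall_norm_le] at hcon
  push Not at hcon
  have h1 : ∀ j : ℕ, ∃ x : E, (∃ t ∈ Icc (0 : ℝ) 1, H (t, x) = w) ∧ (j : ℝ) < ‖x‖ := fun j => by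
    obtain ⟨x, hx, hx'⟩ := hcon j
    exact ⟨x, hx, hx'⟩
  choose x hx hxn using h1
  choose t ht hHt using hx
  choose β hβ hβr using fun j => hD (x j)
  obtain ⟨s, a, φ, hφ, hs, hts, hya⟩ := extract_seq (t := t) (y := fun j => β j (x j)) ht hβr
  have hlim : Tendsto (fun j => β (φ j) w) atTop (𝓝 (H (s, a))) := by
    have e1 : ∀ j, β (φ j) w = H (t (φ j), β (φ j) (x (φ j))) := fun j => by
      rw [heq _ (hβ _), hHt]
    simp only [e1]
    exact (hH.tendsto (s, a)).comp (hts.prodMk_nhds hya)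
  obtain ⟨ε, hεD, -, hev⟩ := eventually_deck hπ (fun j => hβ (φ j)) tendsto_const_nhds hlim
  obtain ⟨N, hN⟩ := eventually_atTop.1 hev
  obtain ⟨R, hR⟩ := ((isCompact_closedBall (0 : E) r).image ε.symm.continuous).isBounded.exists_norm_le
  obtain ⟨m, hm⟩ := exists_nat_gt R
  have h2 := hxn (φ (max N m))
  have h3 : m ≤ φ (max N m) := (le_max_right N m).trans hφ.le_apply
  have h4 : ‖x (φ (max N m))‖ ≤ R := by
    have e1 : x (φ (max N m)) = ε.symm (β (φ (max N m)) (x (φ (max N m)))) := by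
      rw [hN _ (le_max_left N m), Homeomorph.symm_apply_apply]
    rw [e1]
    exact hR _ ⟨_, by simpa using hβr _, rfl⟩
  have h5 : (m : ℝ) ≤ φ (max N m) := by exact_mod_cast h3
  linarith

end basic

end Pool.Agent.V5helper18.Nf
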