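import Pool.Agent.V5helper18.Nf.C
import Pool.Agent.V5helper18.Mb.J
import Pool.Agent.V5helper18.Ma.D

/-!
# Anosov splittings pulled back to a covering normed space
-/

set_option autoImplicit false
set_option linter.unusedSectionVars false

open scoped Manifold ContDiff Topology
open Set Metric Filter

namespace Pool.Agent.V5helper18.Nf

open Pool.Agent.H721R2 Pool.Agent.H789R2.AN Pool.Agent.V5helper18.Mb

variable {E : Type*} [NormedAddCommGroup E] [NormedSpace ℝ E] [FiniteDimensional ℝ E]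

/-- A continuous field of projections from two closed complementary fields. -/
theorem exists_projField {S U : E → Submodule ℝ E} (hSU : ∀ x, IsCompl (S x) (U x))
    (hS : IsClosed {p : E × E | p.2 ∈ S p.1}) (hU : IsClosed {p : E × E | p.2 ∈ U p.1}) :
    ∃ P : E → E →L[ℝ] E, Continuous P ∧ (∀ x, P x * P x = P x) ∧
      (∀ x v, P x v = 0 ↔ v ∈ S x) ∧ (∀ x v, P x v = v ↔ v ∈ U x) := by
  have hU' : ∀ x, IsCompl (U x) (S x) := fun x => (hSU x).symm
  let P : E → E →L[ℝ] E := fun x =>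
    LinearMap.toContinuousLinearMap ((U x).projection (S x) (hU' x))
  have h1 : ∀ x v, P x v ∈ U x := fun x v => Submodule.projection_apply_mem (hU' x) v
  have h3 : ∀ x v, P x v = 0 ↔ v ∈ S x := fun x v =>
    Submodule.projection_apply_eq_zero_iff (hU' x)
  have h4 : ∀ x v, P x v = v ↔ v ∈ U x := fun x v =>
    ⟨fun h => h ▸ h1 x v, fun h => Submodule.projection_apply_of_mem_left (hU' x) h⟩
  have h5 : ∀ x v, P x (P x v) = P x v := fun x v => (h4 x _).2 (h1 x v)
  have h2 : ∀ x v, v - P x v ∈ S x := fun x v => by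
    rw [← h3, map_sub, h5, sub_self]
  have huniq : ∀ x v a, a ∈ U x → v - a ∈ S x → a = P x v := by
    intro x v a ha hv
    have e1 := (h3 x _).2 hv
    rw [map_sub, (h4 x a).2 ha, sub_eq_zero] at e1
    exact e1.symm
  have hbd : ∀ (R : ℝ) (v : E), ∃ C : ℝ, ∀ x ∈ closedBall (0 : E) R, ‖P x v‖ ≤ C := by
    intro R v
    by_contra hcon
    push Not at hcon
    choose y hy hyn using fun n : ℕ => hcon (n : ℝ)
    have hpos : ∀ n, 0 < ‖P (y n) v‖ := fun n => (Nat.cast_nonneg n).trans_lt (hyn n)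
    have hK : IsCompact (closedBall (0 : E) R ×ˢ sphere (0 : E) 1) :=
      (isCompact_closedBall _ _).prod (isCompact_sphere _ _)
    obtain ⟨p, hp, φ, hφ, hlim⟩ := hK.tendsto_subseq
      (x := fun n => (y n, ‖P (y n) v‖⁻¹ • P (y n) v)) (fun n => ⟨hy n, by
        rw [mem_sphere_zero_iff_norm, norm_smul, norm_inv, norm_norm,
          inv_mul_cancel₀ (hpos n).ne']⟩)
    have hpU : p.2 ∈ U p.1 := by
      refine hU.mem_of_tendsto hlim (Eventually.of_forall fun n => ?_)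
      exact (U _).smul_mem _ (h1 _ _)
    have hl1 : Tendsto (fun n => y (φ n)) atTop (𝓝 p.1) := (continuous_fst.tendsto _).comp hlim
    have hl2 : Tendsto (fun n => ‖P (y (φ n)) v‖⁻¹ • P (y (φ n)) v) atTop (𝓝 p.2) :=
      (continuous_snd.tendsto _).comp hlim
    have hl3 : Tendsto (fun n => ‖P (y (φ n)) v‖⁻¹) atTop (𝓝 0) := by
      apply tendsto_inv_atTop_zero.comp
      refine tendsto_atTop_mono (fun n => (hyn (φ n)).le) ?_
      exact tendsto_natCast_atTop_atTop.comp hφ.tendsto_atTop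
    have hl4 : Tendsto (fun n => ‖P (y (φ n)) v‖⁻¹ • v - ‖P (y (φ n)) v‖⁻¹ • P (y (φ n)) v) atTop
        (𝓝 ((0 : ℝ) • v - p.2)) := (hl3.smul_const v).sub hl2
    have hpS : (0 : ℝ) • v - p.2 ∈ S p.1 := by
      refine hS.mem_of_tendsto (hl1.prodMk_nhds hl4) (Eventually.of_forall fun n => ?_)
      show _ ∈ S _
      rw [← smul_sub]
      exact (S _).smul_mem _ (h2 _ _)
    rw [zero_smul, zero_sub, neg_mem_iff] at hpS
    have h6 : p.2 = 0 := by
      have := (hSU p.1).disjoint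
      rw [Submodule.disjoint_def] at this
      exact this _ hpS hpU
    have h7 := hp.2
    rw [mem_sphere_zero_iff_norm, h6, norm_zero] at h7
    exact zero_ne_one h7
  refine ⟨P, ?_, fun x => ContinuousLinearMap.ext fun v => h5 x v, h3, h4⟩
  rw [continuous_clm_apply]
  intro v
  rw [continuous_iff_seqContinuous]
  intro x x₀ hx
  obtain ⟨R, hR⟩ := (isBounded_range_of_tendsto x hx).exists_norm_le
  obtain ⟨C, hC⟩ := hbd R v
  have hxR : ∀ n, x n ∈ closedBall (0 : E) R := fun n => by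
    rw [mem_closedBall_zero_iff]; exact hR _ (mem_range_self n)
  refine tendsto_of_subseq_tendsto fun ns hns => ?_
  obtain ⟨a, -, φ, hφ, hlim⟩ := (isCompact_closedBall (0 : E) C).tendsto_subseq
    (x := fun n => P (x (ns n)) v) (fun n => by
      rw [mem_closedBall_zero_iff]; exact hC _ (hxR _))
  refine ⟨φ, ?_⟩
  have hx' : Tendsto (fun n => x (ns (φ n))) atTop (𝓝 x₀) :=
    hx.comp (hns.comp hφ.tendsto_atTop)
  have e1 : a ∈ U x₀ := by
    refine hU.mem_of_tendsto (hx'.prodMk_nhds hlim) (Eventually.of_forall fun n => ?_)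
    exact h1 _ _
  have e2 : v - a ∈ S x₀ := by
    refine hS.mem_of_tendsto (hx'.prodMk_nhds (tendsto_const_nhds.sub hlim))
      (Eventually.of_forall fun n => ?_)
    exact h2 _ _
  rw [huniq x₀ v a e1 e2] at hlim
  exact hlim

variable {M : Type*} [TopologicalSpace M] [ChartedSpace E M]

/-- derivative of a map from the model space to the manifold, read in the model space -/
noncomputable def dp (π : E → M) (x : E) : E →L[ℝ] E := mfderiv 𝓘(ℝ, E) 𝓘(ℝ, E) π x

/-- pull back of a field of tangent subspaces -/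
noncomputable def pull (π : E → M) (V : ∀ x : M, Submodule ℝ (TangentSpace 𝓘(ℝ, E) x)) (x : E) :
    Submodule ℝ E :=
  Submodule.comap (dp π x).toLinearMap (show Submodule ℝ E from V (π x))

variable [IsManifold 𝓘(ℝ, E) 1 M] {π : E → M}

theorem mem_pull {V : ∀ x : M, Submodule ℝ (TangentSpace 𝓘(ℝ, E) x)} {x v : E} :
    v ∈ pull π V x ↔ dp π x v ∈ (V (π x) : Submodule ℝ E) := Iff.rfl

theorem dp_bij (hd : IsLocalDiffeomorph 𝓘(ℝ, E) 𝓘(ℝ, E) 1 π) (x : E) :
    Function.Bijective (dp π x) := by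
  have := (hd.mfderivToContinuousLinearEquiv (by norm_num) x).bijective
  exact this

theorem chain_lift (hd : IsLocalDiffeomorph 𝓘(ℝ, E) 𝓘(ℝ, E) 1 π) {F : E → E}
    (hF : ContDiff ℝ 1 F) {φ : M → M} (hφ : ContMDiff 𝓘(ℝ, E) 𝓘(ℝ, E) 1 φ)
    (h : ∀ x, π (F x) = φ (π x)) (x v : E) :
    dp π (F x) (fderiv ℝ F x v) = dg E φ (π x) (dp π x v) := by
  have e1 := mfderiv_comp x (I := 𝓘(ℝ, E)) (I' := 𝓘(ℝ, E)) (I'' := 𝓘(ℝ, E)) (g := π) (f := F)
    (hd.mdifferentiable (by norm_num) _)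
    (hF.contMDiff.mdifferentiableAt (by norm_num))
  have e2 := mfderiv_comp x (I := 𝓘(ℝ, E)) (I' := 𝓘(ℝ, E)) (I'' := 𝓘(ℝ, E)) (g := φ) (f := π)
    (hφ.mdifferentiableAt (by norm_num)) (hd.mdifferentiable (by norm_num) _)
  have e3 : π ∘ F = φ ∘ π := funext h
  rw [e3, e2] at e1
  have e4 := congrArg (fun L : E →L[ℝ] E => L v) e1
  rw [← mfderiv_eq_fderiv]
  exact e4.symm

theorem lift_contDiff (hd : IsLocalDiffeomorph 𝓘(ℝ, E) 𝓘(ℝ, E) 1 π) {F : E → E}
    (hF : Continuous F) {φ : M → M} (hφ : ContMDiff 𝓘(ℝ, E) 𝓘(ℝ, E) 1 φ)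
    (h : ∀ x, π (F x) = φ (π x)) : ContDiff ℝ 1 F := by
  rw [← contMDiff_iff_contDiff]
  intro x
  obtain ⟨Φ, hx, hΦ⟩ := hd (F x)
  have h1 : ∀ᶠ z in 𝓝 x, F z ∈ Φ.source := hF.continuousAt.eventually
    (Φ.open_source.mem_nhds hx)
  have h2 : F =ᶠ[𝓝 x] fun z => Φ.symm (φ (π z)) := by
    filter_upwards [h1] with z hz
    rw [← h z, hΦ hz]
    exact (Φ.left_inv' hz).symm
  refine ContMDiffAt.congr_of_eventuallyEq ?_ h2
  have h3 : π (F x) ∈ Φ.target := by
    rw [hΦ hx]; exact Φ.map_source' hx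
  have h4 : ContMDiffAt 𝓘(ℝ, E) 𝓘(ℝ, E) 1 Φ.symm (φ (π x)) := by
    rw [← h x]
    exact Φ.symm.contMDiffOn.contMDiffAt (Φ.open_target.mem_nhds h3)
  exact h4.comp x ((hφ (π x)).comp x (hd.contMDiff x))

/-- The pull back of a closed field is closed. -/
theorem pull_closed (hd : IsLocalDiffeomorph 𝓘(ℝ, E) 𝓘(ℝ, E) 1 π)
    {V : ∀ x : M, Submodule ℝ (TangentSpace 𝓘(ℝ, E) x)} (hV : ClosedField V) :
    IsClosed {p : E × E | p.2 ∈ pull π V p.1} := by
  have h1 : Continuous (tangentMap 𝓘(ℝ, E) 𝓘(ℝ, E) π) :=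
    (hd.contMDiff).continuous_tangentMap (by norm_num)
  have h2 : Continuous fun p : E × E => (⟨p.1, p.2⟩ : TangentBundle 𝓘(ℝ, E) E) :=
    (tangentBundleModelSpaceHomeomorph 𝓘(ℝ, E)).symm.continuous
  exact hV.preimage (h1.comp h2)

end Pool.Agent.V5helper18.Nf
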