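import Pool.Agent.H789R2.AN.Def

/-!
# Coarse hyperbolicity of a lift
-/

set_option autoImplicit false

open scoped Manifold ContDiff Topology
open Set Filter

namespace Pool.Agent.V5helper18.Nf

variable {E : Type*} [NormedAddCommGroup E] {M : Type*}

/-- `x` and `y` are `R`-near: some deck transformation `γ` of `π` moves both points into the closed
ball of radius `R` about `0`. -/
def Near (π : E → M) (R : ℝ) (x y : E) : Prop :=
  ∃ γ : E ≃ₜ E, (∀ z, π (γ z) = π z) ∧ ‖γ x‖ ≤ R ∧ ‖γ y‖ ≤ R

/-- The homeomorphism `G` of `E` is coarsely hyperbolic relative to `π`: two full `G`-orbits that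
remain near each other coincide, and each sequence `x n` such that `G (x n)` remains near
`x (n + 1)` remains near some `G`-orbit (near: `R`-near for some constant `R`, which for the
shadowing orbits depends only on the constant of the sequence). -/
structure CoarselyHyperbolic (π : E → M) (G : E ≃ₜ E) : Prop where
  expansive : ∀ (x y : E) (R : ℝ), (∀ n : ℤ, Near π R ((G ^ n) x) ((G ^ n) y)) → x = y
  shadowing : ∀ R : ℝ, ∃ S : ℝ, ∀ x : ℤ → E, (∀ n, Near π R (G (x n)) (x (n + 1))) →
    ∃ y, ∀ n : ℤ, Near π S (x n) ((G ^ n) y)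

/-- Every continuous lift of every positive iterate of `g` has at most one fixed point. -/
def UniqueFixedLifts [TopologicalSpace M] (π : E → M) (g : M → M) : Prop :=
  ∀ n : ℕ, 1 ≤ n → ∀ Φ : E → E, Continuous Φ → (∀ x, π (Φ x) = g^[n] (π x)) →
    ∀ x y, Φ x = x → Φ y = y → x = y

end Pool.Agent.V5helper18.Nf
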