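import Pool.Agent.V5helper18.Nf.B
import Pool.Agent.V5helper18.Nf.D

/-!
# Uniqueness of the fixed points of lifts of Anosov diffeomorphisms
-/

set_option autoImplicit false
set_option linter.unusedSectionVars false

open scoped Manifold ContDiff Topology
open Set Metric Filter

namespace Pool.Agent.V5helper18.Nf

open Pool.Agent.H721R2 Pool.Agent.H789R2.AN Pool.Agent.V5helper18.Mb

section per

variable {E₀ : Type*} [NormedAddCommGroup E₀] [NormedSpace ℝ E₀]
  {M : Type*} [TopologicalSpace M] [ChartedSpace E₀ M] [IsManifold 𝓘(ℝ, E₀) 1 M]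
  {F : Type*} [NormedAddCommGroup F] [NormedSpace ℝ F]
  {e : M → F} {f : M ≃ₜ M} {Es Eu : M → Submodule ℝ E₀} {C a b Ls Lu : ℝ}

theorem per_s (h : EAnosov e f Es Eu C a b Ls Lu) (hinj : ∀ x, Function.Injective (dm E₀ e x))
    {n : ℕ} (hn : 1 ≤ n) {p : M} (hp : f^[n] p = p) {τ : ℝ} (hτ : τ ∈ Icc (0 : ℝ) 1) {w : E₀}
    (hw : w ∈ Es p) (hτw : w = τ • dg E₀ (f^[n]) p w) : w = 0 := by
  have hpk : ∀ k : ℕ, f^[n * k] p = p := by
    intro k
    rw [Function.iterate_mul]
    induction k with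
    | zero => rfl
    | succ k ih => rw [Function.iterate_succ_apply, hp, ih]
  have hk : ∀ k : ℕ, w = τ ^ k • dg E₀ (f^[n * k]) p w := by
    intro k
    induction k with
    | zero =>
      have : dg E₀ (f^[n * 0]) p w = w := by
        show mfderiv 𝓘(ℝ, E₀) 𝓘(ℝ, E₀) id p w = w
        rw [mfderiv_id]; rfl
      rw [this, pow_zero, one_smul]
    | succ k ih =>
      have e1 : f^[n * (k + 1)] = f^[n * k] ∘ f^[n] := by
        rw [mul_add, mul_one, Function.iterate_add]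
      rw [e1, dg_comp _ _ (iter_smooth f h.smooth n) (iter_smooth f h.smooth _), hp, pow_succ,
        mul_smul, ← map_smul, ← hτw]
      exact ih
  have hC : 0 ≤ C := zero_le_one.trans h.C_pos
  set B := ‖dm E₀ e p w‖ with hB
  have hle : ∀ k : ℕ, B ≤ C * a ^ k * B := by
    intro k
    have h1 := h.hS (n * k) p w hw
    rw [hpk] at h1
    have h2 : dm E₀ e p w = τ ^ k • dm E₀ e p (dg E₀ (f^[n * k]) p w) := by
      rw [← map_smul, ← hk k]
    have h3 : τ ^ k ≤ 1 := pow_le_one₀ hτ.1 hτ.2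
    have h4 : a ^ (n * k) ≤ a ^ k :=
      pow_le_pow_of_le_one h.a_pos.le h.a_lt.le (Nat.le_mul_of_pos_left k hn)
    calc B = τ ^ k * ‖dm E₀ e p (dg E₀ (f^[n * k]) p w)‖ := by
          rw [hB, h2, norm_smul, Real.norm_eq_abs, abs_of_nonneg (pow_nonneg hτ.1 k)]
      _ ≤ 1 * (C * a ^ (n * k) * B) := mul_le_mul h3 h1 (norm_nonneg _) zero_le_one
      _ ≤ C * a ^ k * B := by
          rw [one_mul]
          exact mul_le_mul_of_nonneg_right (mul_le_mul_of_nonneg_left h4 hC) (norm_nonneg _)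
  have ht : Tendsto (fun n : ℕ => C * a ^ n * B) atTop (𝓝 0) := by
    have := ((tendsto_pow_atTop_nhds_zero_of_lt_one h.a_pos.le h.a_lt).const_mul C).mul_const B
    simpa using this
  have h0 : B ≤ 0 := ge_of_tendsto' ht hle
  have h1 : dm E₀ e p w = 0 := norm_le_zero_iff.1 h0
  exact hinj p (by rw [h1, map_zero])

theorem per_u (h : EAnosov e f Es Eu C a b Ls Lu) (hinj : ∀ x, Function.Injective (dm E₀ e x))
    {n : ℕ} (hn : 1 ≤ n) {p : M} (hp : f^[n] p = p) {τ : ℝ} (hτ : τ ∈ Icc (0 : ℝ) 1) {w : E₀}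
    (hw : w ∈ Eu p) (hτw : dg E₀ (f^[n]) p w = τ • w) : w = 0 := by
  have hp' : f.symm^[n] p = p := by
    have := iter_left f n p
    rwa [hp] at this
  refine per_s h.symm hinj hn hp' hτ hw ?_
  have h1 := dg_inv (f^[n]) (f.symm^[n]) (iter_smooth f h.smooth n) (iter_smooth _ h.smooth' n)
    (iter_left f n) p w
  rw [hp, hτw, map_smul] at h1
  exact h1.symm

end per

section fixed

variable {E : Type*} [NormedAddCommGroup E] [NormedSpace ℝ E] [FiniteDimensional ℝ E]
  {M : Type*} [TopologicalSpace M] [T2Space M] [CompactSpace M] [ConnectedSpace M]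
  [ChartedSpace E M] [IsManifold 𝓘(ℝ, E) ∞ M] {π : E → M}

/-- The lifts of the iterates have unique fixed points, through a homotopy. -/
theorem fixed_unique (hπ : IsCoveringMap π) (hd : IsLocalDiffeomorph 𝓘(ℝ, E) 𝓘(ℝ, E) 1 π)
    (f g : Diffeomorph 𝓘(ℝ, E) 𝓘(ℝ, E) M M 1)
    (Es Eu : ∀ x : M, Submodule ℝ (TangentSpace 𝓘(ℝ, E) x)) (hf : IsAnosov f Es Eu)
    (Es' Eu' : ∀ x : M, Submodule ℝ (TangentSpace 𝓘(ℝ, E) x)) (hg : IsAnosov g Es' Eu')
    {n : ℕ} (hn : 1 ≤ n) {F G : E → E} (hF : Continuous F) (hG : Continuous G)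
    (hFl : ∀ x, π (F x) = f^[n] (π x)) (hGl : ∀ x, π (G x) = g^[n] (π x))
    {K : ℝ × E → E} (hK : Continuous K) (hK0 : ∀ x, K (0, x) = G x) (hK1 : ∀ x, K (1, x) = F x)
    (heq : ∀ γ ∈ Deck π, ∃ γ' ∈ Deck π, ∀ t x, K (t, γ x) = γ' (K (t, x)))
    {q : E} (hq : G q = q) (hqu : ∀ x, G x = x → x = q) :
    ∃ p, F p = p ∧ ∀ x, F x = x → x = p := by
  obtain ⟨m, e, he, hemb, hinj⟩ := exists_embedding_euclidean_of_compact (I := 𝓘(ℝ, E)) (M := M)
  let _ : MetricSpace M := hemb.isEmbedding.comapMetricSpace e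
  have he1 : ContMDiff 𝓘(ℝ, E) (𝓡 m) 1 e := he.of_le (by simp)
  obtain ⟨C, a, b, Ls, Lu, hEf⟩ := eanosov_of_isAnosov e he1 hinj f Es Eu hf
  obtain ⟨C', a', b', Ls', Lu', hEg⟩ := eanosov_of_isAnosov e he1 hinj g Es' Eu' hg
  have hfs : ContMDiff 𝓘(ℝ, E) 𝓘(ℝ, E) 1 (f^[n]) := iter_smooth f f.contMDiff n
  have hgs : ContMDiff 𝓘(ℝ, E) 𝓘(ℝ, E) 1 (g^[n]) := iter_smooth g g.contMDiff n
  have hF1 : ContDiff ℝ 1 F := lift_contDiff hd hF hfs hFl
  have hG1 : ContDiff ℝ 1 G := lift_contDiff hd hG hgs hGl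
  have hcu := closed_u f Es Eu hf
  have hcs : ClosedField Es := closed_u f.symm Eu Es (anosov_symm f Es Eu hf)
  have hbij := fun x => dp_bij hd x
  have hcomp : ∀ (Es Eu : ∀ x : M, Submodule ℝ (TangentSpace 𝓘(ℝ, E) x)),
      (∀ x, IsCompl (Es x) (Eu x)) → ∀ x, IsCompl (pull π Es x) (pull π Eu x) := by
    intro Es Eu hc x
    constructor
    · rw [Submodule.disjoint_def]
      intro v hs hu
      have h1 := (hc (π x)).disjoint
      rw [Submodule.disjoint_def] at h1
      have h2 : dp π x v = 0 := h1 _ hs hu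
      exact (hbij x).1 (by rw [h2, map_zero])
    · rw [codisjoint_iff, eq_top_iff]
      intro v _
      let S₁ : Submodule ℝ E := Es (π x)
      let U₁ : Submodule ℝ E := Eu (π x)
      have h0 : S₁ ⊔ U₁ = ⊤ := (hc (π x)).sup_eq_top
      have h1 : dp π x v ∈ S₁ ⊔ U₁ := by
        rw [h0]; trivial
      obtain ⟨s, hs, u, hu, hsu⟩ := Submodule.mem_sup.1 h1
      obtain ⟨s', rfl⟩ := (hbij x).2 s
      obtain ⟨u', rfl⟩ := (hbij x).2 u
      refine Submodule.mem_sup.2 ⟨s', hs, u', hu, (hbij x).1 ?_⟩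
      rw [map_add]
      exact hsu
  obtain ⟨P, hPc, hPP, hPs, hPu⟩ := exists_projField (hcomp Es Eu hf.isCompl)
    (pull_closed hd hcs) (pull_closed hd hcu)
  have hch := fun x v => chain_lift hd hF1 hfs hFl x v
  have hchg := fun x v => chain_lift hd hG1 hgs hGl x v
  have hmapS : ∀ x v, v ∈ pull π Es x → fderiv ℝ F x v ∈ pull π Es (F x) := by
    intro x v hv
    rw [mem_pull, hch, hFl]
    exact hEf.mapS n (π x) _ hv
  have hmapU : ∀ x v, v ∈ pull π Eu x → fderiv ℝ F x v ∈ pull π Eu (F x) := by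
    intro x v hv
    rw [mem_pull, hch, hFl]
    exact hEf.mapU n (π x) _ hv
  have hinjF : ∀ z v, fderiv ℝ F z v = 0 → v = 0 := by
    intro z v hv
    have h1 := hch z v
    rw [hv, map_zero] at h1
    have h2 := dg_inv (f^[n]) (f.toHomeomorph.symm^[n]) hfs
      (iter_smooth _ hEf.smooth' n) (iter_left f.toHomeomorph n) (π z) (dp π z v)
    rw [← h1, map_zero] at h2
    exact (hbij z).1 (by rw [← h2, map_zero])
  have hcomm : ∀ z v, fderiv ℝ F z (P z v) = P (F z) (fderiv ℝ F z v) := by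
    intro z v
    have h1 : P z (P z v) = P z v := congrArg (fun L : E →L[ℝ] E => L v) (hPP z)
    have h2 : v - P z v ∈ pull π Es z := by
      rw [← hPs, map_sub, h1, sub_self]
    have h3 := (hPs _ _).2 (hmapS _ _ h2)
    have h4 := (hPu _ _).2 (hmapU _ _ ((hPu _ _).1 h1))
    rw [map_sub, map_sub, sub_eq_zero, h4] at h3
    exact h3.symm
  have hfix : ∀ z, F z = z → f^[n] (π z) = π z := fun z hz => by rw [← hFl, hz]
  refine unique_fixed hPc hPP hF1 hG1 hinjF hcomm ?_ ?_ hK hK0 hK1 hq hqu ?_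
    (bounded_fix hπ hK heq (by rw [hK0, hq]) (fun x hx => hqu x (by rw [← hK0, hx])))
  · intro z hz τ hτ v hv hvτ
    have h1 := per_s hEf hinj hn (hfix z hz) hτ (w := dp π z v) ((hPs z v).1 hv) (by
      have h2 := hch z v
      rw [hz] at h2
      show dp π z v = τ • dg E (f^[n]) (π z) (dp π z v)
      rw [← h2, ← map_smul, ← hvτ])
    exact (hbij z).1 (by rw [h1, map_zero])
  · intro z hz τ hτ v hv hvτ
    have h1 := per_u hEf hinj hn (hfix z hz) hτ (w := dp π z v) ((hPu z v).1 hv) (by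
      have h2 := hch z v
      rw [hz, hvτ, map_smul] at h2
      exact h2.symm)
    exact (hbij z).1 (by rw [h1, map_zero])
  · intro v hv
    have hgq : g^[n] (π q) = π q := by rw [← hGl, hq]
    have h2 := hchg q v
    rw [hq, hv] at h2
    have hc := hcomp Es' Eu' hg.isCompl q
    have hv' : v ∈ pull π Es' q ⊔ pull π Eu' q := by rw [hc.sup_eq_top]; trivial
    obtain ⟨s, hs, u, hu, rfl⟩ := Submodule.mem_sup.1 hv'
    have h3 : (dp π q s : E) - dg E (g^[n]) (π q) (dp π q s) =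
        dg E (g^[n]) (π q) (dp π q u) - dp π q u := by
      have h4 : dp π q s + dp π q u = dg E (g^[n]) (π q) (dp π q s) +
          dg E (g^[n]) (π q) (dp π q u) := by
        rw [← map_add, ← map_add, ← map_add]; exact h2
      rw [sub_eq_sub_iff_add_eq_add, h4, add_comm]
    have h5 : (dp π q s : E) - dg E (g^[n]) (π q) (dp π q s) ∈ (Es' (π q) : Submodule ℝ E) := by
      have := hEg.mapS n (π q) _ hs
      have e1 : g.toHomeomorph^[n] (π q) = π q := hgq
      rw [e1] at this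
      exact Submodule.sub_mem _ hs this
    have h6 : dg E (g^[n]) (π q) (dp π q u) - dp π q u ∈ (Eu' (π q) : Submodule ℝ E) := by
      have := hEg.mapU n (π q) _ hu
      have e1 : g.toHomeomorph^[n] (π q) = π q := hgq
      rw [e1] at this
      exact Submodule.sub_mem _ this hu
    have h7 := (hg.isCompl (π q)).disjoint
    rw [Submodule.disjoint_def] at h7
    have h8 : (dp π q s : E) - dg E (g^[n]) (π q) (dp π q s) = 0 := h7 _ h5 (by rw [h3]; exact h6)
    rw [h8] at h3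
    have h9 := per_s hEg hinj hn hgq ⟨zero_le_one, le_rfl⟩ hs (by
      rw [one_smul]; exact sub_eq_zero.1 h8)
    have h10 := per_u hEg hinj hn hgq ⟨zero_le_one, le_rfl⟩ hu (by
      rw [one_smul]; exact sub_eq_zero.1 h3.symm)
    have h11 : s = 0 := (hbij q).1 (h9.trans (map_zero (dp π q)).symm)
    have h12 : u = 0 := (hbij q).1 (h10.trans (map_zero (dp π q)).symm)
    rw [h11, h12, add_zero]

end fixed

end Pool.Agent.V5helper18.Nf
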