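import Pool.Agent.V5helper18.Nf.E

/-!
# Semiconjugacies between Anosov diffeomorphisms
-/

set_option autoImplicit false
set_option linter.unusedSectionVars false

open scoped Manifold ContDiff Topology
open Set Metric Filter

namespace Pool.Agent.V5helper18.Nf

open Pool.Agent.H721R2 Pool.Agent.H789R2.AN Pool.Agent.V5helper18.Mb

section hmt

variable {E : Type*} [NormedAddCommGroup E] [NormedSpace ℝ E] {M : Type*} [TopologicalSpace M]

/-- `F` and `G` are joined by a homotopy of lifts of maps of `M` -/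
def Hmt (π : E → M) (F G : E → E) : Prop :=
  ∃ K : ℝ × E → E, Continuous K ∧ (∀ x, K (0, x) = G x) ∧ (∀ x, K (1, x) = F x) ∧
    ∀ γ ∈ Deck π, ∀ t x, π (K (t, γ x)) = π (K (t, x))

variable {π : E → M}

theorem hmt_equi (hπ : IsCoveringMap π) {K : ℝ × E → E} (hK : Continuous K)
    (h : ∀ γ ∈ Deck π, ∀ t x, π (K (t, γ x)) = π (K (t, x))) :
    ∀ γ ∈ Deck π, ∃ γ' ∈ Deck π, ∀ t x, K (t, γ x) = γ' (K (t, x)) := by
  intro γ hγ
  obtain ⟨γ', h1, h2⟩ := exists_deck_lift hπ (A := ℝ × E) hK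
    (hK.comp (continuous_fst.prodMk (γ.continuous.comp continuous_snd)))
    (fun a => (h γ hγ a.1 a.2).symm)
  exact ⟨γ', h1, fun t x => (h2 (t, x)).symm⟩

theorem Hmt.trans {F N G : E → E} (h1 : Hmt π F N) (h2 : Hmt π N G) : Hmt π F G := by
  obtain ⟨K, hK, hK0, hK1, hKe⟩ := h1
  obtain ⟨L, hL, hL0, hL1, hLe⟩ := h2
  refine ⟨fun p => if p.1 ≤ 1 / 2 then L (2 * p.1, p.2) else K (2 * p.1 - 1, p.2), ?_, ?_, ?_, ?_⟩
  · apply Continuous.if_le (hL.comp (by fun_prop)) (hK.comp (by fun_prop)) continuous_fst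
      continuous_const
    intro p hp
    have e1 : 2 * p.1 = 1 := by rw [hp]; norm_num
    rw [Function.comp_apply, Function.comp_apply, e1, hL1, sub_self, hK0]
  · intro x
    have : (0 : ℝ) ≤ 1 / 2 := by norm_num
    simp only [this, if_true, mul_zero, hL0]
  · intro x
    have : ¬ (1 : ℝ) ≤ 1 / 2 := by norm_num
    simp only [this, if_false]
    rw [← hK1]
    norm_num
  · intro γ hγ t x
    by_cases h : t ≤ 1 / 2
    · simp only [h, if_true, hLe γ hγ]
    · simp only [h, if_false, hKe γ hγ]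

end hmt

section core

variable {E : Type*} [NormedAddCommGroup E] [NormedSpace ℝ E] [FiniteDimensional ℝ E]
  {M : Type*} [TopologicalSpace M] [T2Space M] [CompactSpace M] [ConnectedSpace M]
  [ChartedSpace E M] [IsManifold 𝓘(ℝ, E) ∞ M] {π : E → M}

/-- every lift of every positive iterate has at most one fixed point -/
def NF (π : E → M) (g : M → M) : Prop :=
  ∀ n : ℕ, 1 ≤ n → ∀ Φ : E → E, Continuous Φ → (∀ x, π (Φ x) = g^[n] (π x)) →
    ∀ x y, Φ x = x → Φ y = y → x = y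

theorem core (hπ : IsCoveringMap π) (hd : IsLocalDiffeomorph 𝓘(ℝ, E) 𝓘(ℝ, E) 1 π)
    (f g : Diffeomorph 𝓘(ℝ, E) 𝓘(ℝ, E) M M 1)
    (Es Eu : ∀ x : M, Submodule ℝ (TangentSpace 𝓘(ℝ, E) x)) (hf : IsAnosov f Es Eu)
    (Es' Eu' : ∀ x : M, Submodule ℝ (TangentSpace 𝓘(ℝ, E) x)) (hg : IsAnosov g Es' Eu')
    (hNF : NF π g) {h : M → M} (hh : ∀ x, h (f x) = g (h x)) {H : E → E} (hH : Continuous H)
    (hHπ : ∀ x, π (H x) = h (π x)) (hHeq : ∀ γ ∈ Deck π, ∀ x, H (γ x) = γ (H x))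
    (hom : ∀ n : ℕ, 1 ≤ n → ∀ F G : E → E, Continuous F → Continuous G →
      (∀ x, π (F x) = f^[n] (π x)) → (∀ x, π (G x) = g^[n] (π x)) →
      (∀ x, H (F x) = G (H x)) → Hmt π F G) :
    (∀ p p' (n : ℕ), 1 ≤ n → f^[n] p = p → f^[n] p' = p' → h p = h p' → p = p') ∧
    (∀ q (n : ℕ), 1 ≤ n → g^[n] q = q → ∃ p, f^[n] p = p ∧ h p = q) := by
  have hit : ∀ (n : ℕ) x, h (f^[n] x) = g^[n] (h x) := by
    intro n x
    exact (Function.Semiconj.iterate_right (f := h) (ga := f) (gb := g) hh n) x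
  have huniq : ∀ n : ℕ, 1 ≤ n → ∀ F G : E → E, Continuous F → Continuous G →
      (∀ x, π (F x) = f^[n] (π x)) → (∀ x, π (G x) = g^[n] (π x)) →
      (∀ x, H (F x) = G (H x)) → ∀ q, G q = q → ∃ p, F p = p ∧ ∀ x, F x = x → x = p := by
    intro n hn F G hF hG hFl hGl hHF q hq
    obtain ⟨K, hK, hK0, hK1, hKe⟩ := hom n hn F G hF hG hFl hGl hHF
    exact fixed_unique hπ hd f g Es Eu hf Es' Eu' hg hn hF hG hFl hGl hK hK0 hK1
      (hmt_equi hπ hK hKe) hq (fun x hx => hNF n hn G hG hGl x q hx hq)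
  have hlift : ∀ (φ : M → M), Continuous φ → ∀ a b : E, π b = φ (π a) →
      ∃ Φ : E → E, Continuous Φ ∧ (∀ x, π (Φ x) = φ (π x)) ∧ Φ a = b := by
    intro φ hφ a b hab
    exact exists_lift hπ (hφ.comp hπ.continuous) hab
  have hfc : ∀ n : ℕ, Continuous (f^[n]) := fun n => f.continuous.iterate n
  have hgc : ∀ n : ℕ, Continuous (g^[n]) := fun n => g.continuous.iterate n
  constructor
  · intro p p' n hn hp hp' hpp
    obtain ⟨a, rfl⟩ := surj hπ p
    obtain ⟨b', rfl⟩ := surj hπ p'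
    obtain ⟨γ, hγ, hγb⟩ := exists_deck hπ (x := H b') (y := H a) (by rw [hHπ, hHπ, hpp])
    set b := γ b' with hb
    have hbπ : π b = π b' := hγ b'
    have hHb : H b = H a := by rw [hb, hHeq γ hγ, hγb]
    rw [← hbπ] at hp' ⊢
    obtain ⟨F, hF, hFl, hFa⟩ := hlift _ (hfc n) a a hp.symm
    obtain ⟨F', hF', hFl', hFb⟩ := hlift _ (hfc n) b b hp'.symm
    obtain ⟨G, hG, hGl, hGa⟩ := hlift _ (hgc n) (H a) (H a) (by
      rw [hHπ, ← hit, hp])
    have e1 : ∀ x, H (F x) = G (H x) := by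
      have := lift_unique hπ (hH.comp hF) (hG.comp hH) (fun x => by
        simp only [Function.comp_apply]
        rw [hHπ, hFl, hit, hGl, hHπ]) a (by simp only [Function.comp_apply, hFa, hGa])
      exact fun x => congrFun this x
    have e2 : ∀ x, H (F' x) = G (H x) := by
      have := lift_unique hπ (hH.comp hF') (hG.comp hH) (fun x => by
        simp only [Function.comp_apply]
        rw [hHπ, hFl', hit, hGl, hHπ]) b (by simp only [Function.comp_apply, hFb, hHb, hGa])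
      exact fun x => congrFun this x
    obtain ⟨δ, hδ, hδF⟩ := exists_deck_lift hπ hF hF' (fun x => by rw [hFl, hFl'])
    have e3 : δ = 1 := by
      apply deck_unique hπ hδ (one_mem _) (x := H (F a))
      rw [← hHeq δ hδ, hδF, e2, ← e1]
      rfl
    have e4 : F b = b := by
      have := hδF b
      rw [e3, hFb] at this
      exact this
    obtain ⟨p₀, -, hu⟩ := huniq n hn F G hF hG hFl hGl e1 (H a) hGa
    rw [hu a hFa, hu b e4]
  · intro q n hn hq
    obtain ⟨a, rfl⟩ := surj hπ q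
    obtain ⟨G, hG, hGl, hGa⟩ := hlift _ (hgc n) a a hq.symm
    obtain ⟨y, hy⟩ := surj hπ (f^[n] (π 0))
    obtain ⟨F₀, hF₀, hFl₀, -⟩ := hlift _ (hfc n) 0 y hy
    obtain ⟨δ, hδ, hδF⟩ := exists_deck_lift hπ (Φ := fun x => H (F₀ x)) (Ψ := fun x => G (H x))
      (hH.comp hF₀) (hG.comp hH) (fun x => by rw [hHπ, hFl₀, hit, hGl, hHπ])
    have e1 : ∀ x, H (δ (F₀ x)) = G (H x) := fun x => by rw [hHeq δ hδ, hδF]
    obtain ⟨p, hp, -⟩ := huniq n hn (fun x => δ (F₀ x)) G (δ.continuous.comp hF₀) hG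
      (fun x => by rw [hδ, hFl₀]) hGl e1 a hGa
    refine ⟨π p, ?_, ?_⟩
    · rw [← hFl₀, ← hδ (F₀ p), hp]
    · rw [← hHπ]
      congr 1
      apply hNF n hn G hG hGl _ _ _ hGa
      rw [← e1, hp]

end core

end Pool.Agent.V5helper18.Nf
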