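import Pool.Agent.V5helper18.Nf.F

/-!
# Semiconjugacies homotopic to the identity
-/

set_option autoImplicit false
set_option linter.unusedSectionVars false

open scoped Manifold ContDiff Topology
open Set Metric Filter

namespace Pool.Agent.V5helper18.Nf

open Pool.Agent.H721R2 Pool.Agent.H789R2.AN Pool.Agent.V5helper18.Mb Pool.Agent.V5helper18.Ma
open Pool.Agent.Y331.EP Pool.Agent.TH289 Pool.Agent.TH289.K Pool.Agent.TH289.L

variable {E : Type*} [NormedAddCommGroup E] [NormedSpace ℝ E] [FiniteDimensional ℝ E]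
  {M : Type*} [TopologicalSpace M] [T2Space M] [CompactSpace M] [ConnectedSpace M]
  [ChartedSpace E M] [IsManifold 𝓘(ℝ, E) ∞ M] {π : E → M}

theorem concl (f g : Diffeomorph 𝓘(ℝ, E) 𝓘(ℝ, E) M M 1)
    (Es Eu : ∀ x : M, Submodule ℝ (TangentSpace 𝓘(ℝ, E) x)) (hf : IsAnosov f Es Eu)
    (Es' Eu' : ∀ x : M, Submodule ℝ (TangentSpace 𝓘(ℝ, E) x)) (hg : IsAnosov g Es' Eu')
    {h : M → M} (hc : Continuous h) (hh : ∀ x, h (f x) = g (h x))
    (hinj : ∀ p p' (n : ℕ), 1 ≤ n → f^[n] p = p → f^[n] p' = p' → h p = h p' → p = p')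
    (hper : ∀ q (n : ℕ), 1 ≤ n → g^[n] q = q → ∃ p, f^[n] p = p ∧ h p = q) :
    (∀ n ≥ 1, BijOn h {p | f^[n] p = p} {q | g^[n] q = q}) ∧
    (∀ x ∈ closure (Per f), ∀ x', h x' = h x → x' = x) ∧
    h '' closure (Per f) = closure (Per g) ∧
    (TopTransitive g → TopTransitive f ∧ Function.Bijective h) := by
  obtain ⟨m, e, hee, hemb, hinje⟩ :=
    exists_embedding_euclidean_of_compact (I := 𝓘(ℝ, E)) (M := M)
  let _ : MetricSpace M := hemb.isEmbedding.comapMetricSpace e
  obtain ⟨eg, hG⟩ := ex_of_expansive (expansive_of_anosov g Es' Eu' hg)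
  have hSg := man_shad g Es' Eu' hg
  obtain ⟨ef, hF⟩ := ex_of_expansive (expansive_of_anosov f Es Eu hf)
  have hSf := man_shad f Es Eu hf
  have hit : ∀ (n : ℕ) x, h (f^[n] x) = g^[n] (h x) := fun n x =>
    (Function.Semiconj.iterate_right (f := h) (ga := f) (gb := g) hh n) x
  have hmaps : ∀ n : ℕ, ∀ p, f^[n] p = p → g^[n] (h p) = h p := fun n p hp => by
    rw [← hit, hp]
  refine ⟨fun n hn => ⟨fun p hp => hmaps n p hp, fun p hp p' hp' hpp =>
      hinj p p' n hn hp hp' hpp, fun q hq => ?_⟩, fun x hx x' hxx => ?_, ?_, fun hT => ?_⟩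
  · obtain ⟨p, hp, hpq⟩ := hper q n hn hq
    exact ⟨p, hp, hpq⟩
  · exact (Dy.fib_rec (f := f.toHomeomorph) (g := g.toHomeomorph) hF hSf hG hc hh hinj hx
      hxx.symm).symm
  · apply Subset.antisymm
    · refine (image_closure_subset_closure_image hc).trans (closure_mono ?_)
      rintro _ ⟨p, ⟨n, hn, hp⟩, rfl⟩
      exact ⟨n, hn, hmaps n p hp⟩
    · apply closure_minimal
      · rintro q ⟨n, hn, hq⟩
        obtain ⟨p, hp, hpq⟩ := hper q n hn hq
        exact ⟨p, subset_closure ⟨n, hn, hp⟩, hpq⟩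
      · exact (isClosed_closure.isCompact.image hc).isClosed
  · exact Dy.abs_main (f := f.toHomeomorph) (g := g.toHomeomorph) hF hSf hG hSg
      (show Dy.TT g.toHomeomorph from hT) hc hh hinj hper

theorem tt_of_surj {f g h : M → M} (hc : Continuous h) (hs : Function.Surjective h)
    (hh : ∀ x, h (f x) = g (h x)) (hT : TopTransitive f) : TopTransitive g := by
  intro U V hU hUn hV hVn
  obtain ⟨n, y, ⟨x, hx, hxy⟩, hy⟩ := hT (h ⁻¹' U) (h ⁻¹' V) (hU.preimage hc)
    (hUn.preimage hs) (hV.preimage hc) (hVn.preimage hs)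
  refine ⟨n, h y, ⟨h x, hx, ?_⟩, hy⟩
  rw [← hxy]
  exact ((Function.Semiconj.iterate_right (f := h) (ga := f) (gb := g) hh n) x).symm

/-- lift of a homotopy from the identity -/
theorem lift_homotopy (hπ : IsCoveringMap π) (h : C(M, M))
    (hid : h.Homotopic (ContinuousMap.id M)) :
    ∃ A : ℝ × E → E, Continuous A ∧ (∀ x, A (0, x) = x) ∧ (∀ x, π (A (1, x)) = h (π x)) ∧
      ∀ γ ∈ Deck π, ∀ t x, A (t, γ x) = γ (A (t, x)) := by
  obtain ⟨Q⟩ := hid.symm
  let k : ℝ × E → M := fun p => Q (projIcc 0 1 zero_le_one p.1, π p.2)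
  have hk : Continuous k := by
    apply Q.continuous.comp
    exact (continuous_projIcc.comp continuous_fst).prodMk (hπ.continuous.comp continuous_snd)
  have hk0 : ∀ x, k (0, x) = π x := fun x => by
    show Q (projIcc 0 1 zero_le_one 0, π x) = π x
    rw [projIcc_left]
    exact Q.apply_zero (π x)
  have hk1 : ∀ x, k (1, x) = h (π x) := fun x => by
    show Q (projIcc 0 1 zero_le_one 1, π x) = h (π x)
    rw [projIcc_right]
    exact Q.apply_one (π x)
  obtain ⟨A, hA, hAl, hA0⟩ := exists_lift hπ hk (a := (0, 0)) (e := (0 : E)) (hk0 0).symm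
  have h0 : ∀ x, A (0, x) = x := by
    have := lift_unique hπ (Φ := fun x => A (0, x)) (Ψ := fun x => x) (hA.comp (by fun_prop))
      continuous_id (fun x => by rw [hAl, hk0]) 0 hA0
    exact fun x => congrFun this x
  refine ⟨A, hA, h0, fun x => by rw [hAl, hk1], fun γ hγ t x => ?_⟩
  have := lift_unique hπ (A := ℝ × E) (Φ := fun p => A (p.1, γ p.2)) (Ψ := fun p => γ (A p))
    (hA.comp (continuous_fst.prodMk (γ.continuous.comp continuous_snd))) (γ.continuous.comp hA)
    (fun p => by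
      rw [hAl, hγ (A p), hAl]
      show Q (_, π (γ p.2)) = Q (_, π p.2)
      rw [hγ p.2]) (0, 0) (by simp only [h0])
  exact congrFun this (t, x)

/-- maps homotopic to the identity are surjective -/
theorem surj_of_homotopy (hπ : IsCoveringMap π) {A : ℝ × E → E} (hA : Continuous A)
    (hA0 : ∀ x, A (0, x) = x) (heq : ∀ γ ∈ Deck π, ∀ t x, A (t, γ x) = γ (A (t, x))) (w : E) :
    ∃ x, A (1, x) = w := by
  obtain ⟨r₀, hr₀⟩ := (bounded_fibre hπ hA heq w).exists_norm_le
  set r := max r₀ ‖w‖ + 1 with hrd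
  have hlt : ∀ x, (∃ t ∈ Icc (0 : ℝ) 1, A (t, x) = w) → x ∈ ball (0 : E) r := by
    intro x hx
    rw [mem_ball_zero_iff]
    have := hr₀ x hx
    have := le_max_left r₀ ‖w‖
    linarith
  have hr : 0 < r := by
    have h1 := le_max_right r₀ ‖w‖
    have h2 := norm_nonneg w
    linarith
  have hd : ∀ x : E, fderiv ℝ (fun x => x - w) x = ContinuousLinearMap.id ℝ E := fun x =>
    ((hasFDerivAt_id x).sub_const w).fderiv
  obtain ⟨z, -, hz⟩ := exists_zero' (G₀ := fun x => x - w) (contDiff_id.sub contDiff_const)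
    (A := fun p => A p - w) (hA.sub continuous_const) (fun x => by simp only [hA0])
    (O := ball (0 : E) r) isOpen_ball isBounded_ball (fun t ht x hx h => by
      have h2 := hlt x ⟨t, ht, sub_eq_zero.1 h⟩
      rw [frontier_ball _ hr.ne', mem_sphere] at hx
      rw [mem_ball] at h2
      linarith) (z₀ := w) (hlt w ⟨0, ⟨le_rfl, zero_le_one⟩, hA0 w⟩) (sub_self w)
    (fun z _ hz => sub_eq_zero.1 hz) (by
      rw [hd, ContinuousLinearMap.det]
      simp)
  exact ⟨z, sub_eq_zero.1 hz⟩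

/-- **Main theorem, first part.** -/
theorem main1 (hπ : IsCoveringMap π) (hd : IsLocalDiffeomorph 𝓘(ℝ, E) 𝓘(ℝ, E) 1 π)
    (f g : Diffeomorph 𝓘(ℝ, E) 𝓘(ℝ, E) M M 1)
    (Es Eu : ∀ x : M, Submodule ℝ (TangentSpace 𝓘(ℝ, E) x)) (hf : IsAnosov f Es Eu)
    (Es' Eu' : ∀ x : M, Submodule ℝ (TangentSpace 𝓘(ℝ, E) x)) (hg : IsAnosov g Es' Eu')
    (hNF : NF π g) (h : C(M, M)) (hid : h.Homotopic (ContinuousMap.id M))
    (hh : ∀ x, h (f x) = g (h x)) :
    (∀ n ≥ 1, BijOn h {p | f^[n] p = p} {q | g^[n] q = q}) ∧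
    (∀ x ∈ closure (Per f), ∀ x', h x' = h x → x' = x) ∧
    h '' closure (Per f) = closure (Per g) ∧
    (TopTransitive f ↔ TopTransitive g) ∧
    (TopTransitive g → Function.Bijective h) := by
  obtain ⟨A, hA, hA0, hA1, hAe⟩ := lift_homotopy hπ h hid
  set H : E → E := fun x => A (1, x) with hHd
  have hH : Continuous H := hA.comp (by fun_prop)
  have hHeq : ∀ γ ∈ Deck π, ∀ x, H (γ x) = γ (H x) := fun γ hγ x => hAe γ hγ 1 x
  obtain ⟨hinj, hper⟩ := core hπ hd f g Es Eu hf Es' Eu' hg hNF hh hH hA1 hHeq (by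
    intro n hn F G hF hG hFl hGl hHF
    have h1 : Hmt π (fun x => H (F x)) G := by
      refine ⟨fun p => G (A p), hG.comp hA, fun x => by simp only [hA0],
        fun x => (hHF x).symm, ?_⟩
      intro γ hγ t x
      show π (G (A (t, γ x))) = π (G (A (t, x)))
      rw [hAe γ hγ, hGl, hGl, hγ (A (t, x))]
    have h2 : Hmt π F (fun x => H (F x)) := by
      refine ⟨fun p => A (1 - p.1, F p.2), hA.comp (by fun_prop), fun x => by
          show A (1 - 0, F x) = A (1, F x)
          rw [sub_zero],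
        fun x => by
          show A (1 - 1, F x) = F x
          rw [sub_self, hA0], ?_⟩
      obtain h3 := hmt_equi hπ (K := fun p => F p.2) (hF.comp continuous_snd) (fun γ hγ t x => by
        rw [hFl, hFl, hγ x])
      intro γ hγ t x
      obtain ⟨γ', hγ', h4⟩ := h3 γ hγ
      have h5 : F (γ x) = γ' (F x) := h4 0 x
      show π (A (1 - t, F (γ x))) = π (A (1 - t, F x))
      rw [h5, hAe γ' hγ', hγ' (A (1 - t, F x))]
    exact h2.trans h1)
  have hsurj : Function.Surjective h := by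
    intro y
    obtain ⟨w, rfl⟩ := surj hπ y
    obtain ⟨x, hx⟩ := surj_of_homotopy hπ hA hA0 hAe w
    exact ⟨π x, by rw [← hA1, hx]⟩
  obtain ⟨c1, c2, c3, c4⟩ := concl f g Es Eu hf Es' Eu' hg h.continuous hh hinj hper
  exact ⟨c1, c2, c3, ⟨fun hT => tt_of_surj h.continuous hsurj hh hT, fun hT => (c4 hT).1⟩,
    fun hT => (c4 hT).2⟩

end Pool.Agent.V5helper18.Nf
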