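import Pool.Agent.V5helper18.Nf.C
import Pool.Agent.V5helper18.Nf.Def

/-!
# Coarse hyperbolicity: the semiconjugacy
-/

set_option autoImplicit false
set_option linter.unusedSectionVars false

open Set Metric Topology Filter

namespace Pool.Agent.V5helper18.Nf

variable {E : Type*} [NormedAddCommGroup E] [NormedSpace ℝ E] [FiniteDimensional ℝ E]
  {M : Type*} [TopologicalSpace M] [T2Space M] {π : E → M}

theorem Near.symm {R : ℝ} {x y : E} (h : Near π R x y) : Near π R y x := by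
  obtain ⟨γ, h1, h2, h3⟩ := h
  exact ⟨γ, h1, h3, h2⟩

theorem Near.mono {R S : ℝ} (hRS : R ≤ S) {x y : E} (h : Near π R x y) : Near π S x y := by
  obtain ⟨γ, h1, h2, h3⟩ := h
  exact ⟨γ, h1, h2.trans hRS, h3.trans hRS⟩

theorem Near.deck {R : ℝ} {x y : E} (h : Near π R x y) {γ : E ≃ₜ E} (hγ : γ ∈ Deck π) :
    Near π R (γ x) (γ y) := by
  obtain ⟨δ, h1, h2, h3⟩ := h
  have h4 : δ * γ⁻¹ ∈ Deck π := mul_mem h1 (inv_mem hγ)
  refine ⟨δ * γ⁻¹, h4, ?_, ?_⟩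
  · show ‖δ (γ.symm (γ x))‖ ≤ R
    rwa [Homeomorph.symm_apply_apply]
  · show ‖δ (γ.symm (γ y))‖ ≤ R
    rwa [Homeomorph.symm_apply_apply]

theorem near_of_norm {R : ℝ} {x y : E} (hx : ‖x‖ ≤ R) (hy : ‖y‖ ≤ R) : Near π R x y :=
  ⟨Homeomorph.refl E, fun _ => rfl, hx, hy⟩

/-- local finiteness -/
theorem exists_bound (hπ : IsCoveringMap π) (R : ℝ) : ∃ S : ℝ, ∀ α ∈ Deck π, ∀ a b : E,
    ‖a‖ ≤ R → ‖α a‖ ≤ R → ‖b‖ ≤ R → ‖α b‖ ≤ S := by
  by_contra hcon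
  push Not at hcon
  choose α hα a b ha hαa hb hαb using fun n : ℕ => hcon (n : ℝ)
  have hK : IsCompact (closedBall (0 : E) R ×ˢ closedBall (0 : E) R) :=
    (isCompact_closedBall _ _).prod (isCompact_closedBall _ _)
  obtain ⟨p, hp, φ, hφ, hlim⟩ := hK.tendsto_subseq (x := fun j => (a j, α j (a j)))
    (fun j => ⟨by simpa using ha j, by simpa using hαa j⟩)
  have h1 : Tendsto (fun j => a (φ j)) atTop (𝓝 p.1) := (continuous_fst.tendsto _).comp hlim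
  have h2 : Tendsto (fun j => α (φ j) (a (φ j))) atTop (𝓝 p.2) :=
    (continuous_snd.tendsto _).comp hlim
  obtain ⟨δ, -, -, hev⟩ := eventually_deck hπ (fun j => hα (φ j)) h1 h2
  obtain ⟨C, hC⟩ := ((isCompact_closedBall (0 : E) R).image δ.continuous).isBounded.exists_norm_le
  obtain ⟨m, hm⟩ := exists_nat_gt C
  obtain ⟨N, hN⟩ := eventually_atTop.1 hev
  have h3 := hαb (φ (max N m))
  rw [hN _ (le_max_left N m)] at h3
  have h4 : ‖δ (b (φ (max N m)))‖ ≤ C := hC _ ⟨_, by simpa using hb _, rfl⟩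
  have h5 : m ≤ φ (max N m) := (le_max_right N m).trans hφ.le_apply
  have h6 : (m : ℝ) ≤ φ (max N m) := by exact_mod_cast h5
  linarith

theorem near_trans (hπ : IsCoveringMap π) (R : ℝ) : ∃ S : ℝ, ∀ x y z : E,
    Near π R x y → Near π R x z → Near π S y z := by
  obtain ⟨S, hS⟩ := exists_bound hπ R
  refine ⟨max S R, fun x y z hxy hxz => ?_⟩
  obtain ⟨γ, h1, h2, h3⟩ := hxy
  obtain ⟨δ, k1, k2, k3⟩ := hxz
  refine ⟨γ, h1, h3.trans (le_max_right _ _), ?_⟩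
  have h4 := hS (γ * δ⁻¹) (mul_mem h1 (inv_mem k1)) (δ x) (δ z) k2 (by
    show ‖γ (δ.symm (δ x))‖ ≤ R
    rwa [Homeomorph.symm_apply_apply]) k3
  have h5 : (γ * δ⁻¹) (δ z) = γ z := by
    show γ (δ.symm (δ z)) = γ z
    rw [Homeomorph.symm_apply_apply]
  rw [h5] at h4
  exact h4.trans (le_max_left _ _)

theorem near_bound (hπ : IsCoveringMap π) (R S : ℝ) : ∃ T : ℝ, ∀ x y : E,
    ‖x‖ ≤ R → Near π S x y → ‖y‖ ≤ T := by
  obtain ⟨T, hT⟩ := exists_bound hπ (max R S)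
  refine ⟨T, fun x y hx hxy => ?_⟩
  obtain ⟨γ, h1, h2, h3⟩ := hxy
  have h4 := hT γ⁻¹ (inv_mem h1) (γ x) (γ y) (h2.trans (le_max_right _ _)) (by
    show ‖γ.symm (γ x)‖ ≤ _
    rw [Homeomorph.symm_apply_apply]
    exact hx.trans (le_max_left _ _)) (h3.trans (le_max_right _ _))
  have h5 : γ⁻¹ (γ y) = y := γ.symm_apply_apply y
  rwa [h5] at h4

theorem near_closed (hπ : IsCoveringMap π) {R : ℝ} {x y : ℕ → E} {a b : E}
    (hx : Tendsto x atTop (𝓝 a)) (hy : Tendsto y atTop (𝓝 b)) (h : ∀ j, Near π R (x j) (y j)) :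
    Near π R a b := by
  choose γ hγ h2 h3 using h
  obtain ⟨c, -, φ, hφ, hlim⟩ := (isCompact_closedBall (0 : E) R).tendsto_subseq
    (x := fun j => γ j (x j)) (fun j => by simpa using h2 j)
  obtain ⟨δ, hδ, -, hev⟩ := eventually_deck hπ (fun j => hγ (φ j)) (hx.comp hφ.tendsto_atTop) hlim
  have h4 : ∀ᶠ j in atTop, ‖δ (x (φ j))‖ ≤ R := by
    filter_upwards [hev] with j hj
    rw [← hj]; exact h2 _
  have h5 : ∀ᶠ j in atTop, ‖δ (y (φ j))‖ ≤ R := by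
    filter_upwards [hev] with j hj
    rw [← hj]; exact h3 _
  refine ⟨δ, hδ, ?_, ?_⟩
  · exact le_of_tendsto ((δ.continuous.tendsto a).comp (hx.comp hφ.tendsto_atTop)).norm h4
  · exact le_of_tendsto ((δ.continuous.tendsto b).comp (hy.comp hφ.tendsto_atTop)).norm h5

section lifts

theorem lift_zpow {g : M ≃ₜ M} {G : E ≃ₜ E} (hG : ∀ x, π (G x) = g (π x)) (n : ℤ) (x : E) :
    π ((G ^ n) x) = (g ^ n) (π x) := by
  have hinv : ∀ x, π (G⁻¹ x) = g⁻¹ (π x) := by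
    intro x
    have h1 := hG (G.symm x)
    rw [Homeomorph.apply_symm_apply] at h1
    show π (G.symm x) = g.symm (π x)
    rw [h1, Homeomorph.symm_apply_apply]
  induction n using Int.induction_on generalizing x with
  | zero => rfl
  | succ n ih =>
    rw [zpow_add_one, zpow_add_one]
    show π ((G ^ (n : ℤ)) (G x)) = (g ^ (n : ℤ)) (g (π x))
    rw [ih, hG]
  | pred n ih =>
    rw [zpow_sub_one, zpow_sub_one]
    show π ((G ^ (-(n : ℤ))) (G⁻¹ x)) = (g ^ (-(n : ℤ))) (g⁻¹ (π x))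
    rw [ih, hinv]

theorem conj_mem {g : M ≃ₜ M} {G : E ≃ₜ E} (hG : ∀ x, π (G x) = g (π x)) {γ : E ≃ₜ E}
    (hγ : γ ∈ Deck π) (n : ℤ) : G ^ n * γ * (G ^ n)⁻¹ ∈ Deck π := by
  intro x
  show π ((G ^ n) (γ ((G ^ n).symm x))) = π x
  rw [lift_zpow hG, hγ, ← lift_zpow hG, Homeomorph.apply_symm_apply]

/-- conjugations by the powers of two lifts that induce the same automorphism -/
theorem conj_eq {f g : M ≃ₜ M} {F G : E ≃ₜ E} (hF : ∀ x, π (F x) = f (π x))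
    (hG : ∀ x, π (G x) = g (π x))
    (hFG : ∀ γ ∈ Deck π, F * γ * F⁻¹ = G * γ * G⁻¹) {γ : E ≃ₜ E} (hγ : γ ∈ Deck π) (n : ℤ) :
    F ^ n * γ * (F ^ n)⁻¹ = G ^ n * γ * (G ^ n)⁻¹ := by
  have hFG' : ∀ γ ∈ Deck π, F⁻¹ * γ * F = G⁻¹ * γ * G := by
    intro γ hγ
    have h1 : F⁻¹ * γ * F ∈ Deck π := by
      have := conj_mem hF hγ (-1)
      simpa using this
    have h2 := hFG _ h1
    have h3 : F * (F⁻¹ * γ * F) * F⁻¹ = γ := by group
    rw [h3] at h2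
    have h4 : G⁻¹ * γ * G = G⁻¹ * (G * (F⁻¹ * γ * F) * G⁻¹) * G := by rw [← h2]
    rw [h4]
    group
  induction n using Int.induction_on with
  | zero => simp
  | succ n ih =>
    have h1 : F ^ ((n : ℤ) + 1) * γ * (F ^ ((n : ℤ) + 1))⁻¹ =
        F * (F ^ (n : ℤ) * γ * (F ^ (n : ℤ))⁻¹) * F⁻¹ := by group
    have h2 : G ^ ((n : ℤ) + 1) * γ * (G ^ ((n : ℤ) + 1))⁻¹ =
        G * (G ^ (n : ℤ) * γ * (G ^ (n : ℤ))⁻¹) * G⁻¹ := by group
    rw [h1, h2, ih]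
    exact hFG _ (conj_mem hG hγ n)
  | pred n ih =>
    have h1 : F ^ (-(n : ℤ) - 1) * γ * (F ^ (-(n : ℤ) - 1))⁻¹ =
        F⁻¹ * (F ^ (-(n : ℤ)) * γ * (F ^ (-(n : ℤ)))⁻¹) * F := by group
    have h2 : G ^ (-(n : ℤ) - 1) * γ * (G ^ (-(n : ℤ) - 1))⁻¹ =
        G⁻¹ * (G ^ (-(n : ℤ)) * γ * (G ^ (-(n : ℤ)))⁻¹) * G := by group
    rw [h1, h2, ih]
    exact hFG' _ (conj_mem hG hγ (-n))

end lifts

/-- **The semiconjugacy.** -/
theorem exists_semi (hπ : IsCoveringMap π) {f g : M ≃ₜ M} {F G : E ≃ₜ E}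
    (hF : ∀ x, π (F x) = f (π x)) (hG : ∀ x, π (G x) = g (π x))
    (hFG : ∀ γ ∈ Deck π, F * γ * F⁻¹ = G * γ * G⁻¹) {R₀ : ℝ}
    (hn : ∀ x, Near π R₀ (G x) (F x)) (hc : CoarselyHyperbolic π G) :
    ∃ H : E → E, Continuous H ∧ (∀ γ ∈ Deck π, ∀ x, H (γ x) = γ (H x)) ∧
      ∀ x, H (F x) = G (H x) := by
  obtain ⟨S, hS⟩ := hc.shadowing R₀
  have h1 : ∀ x, ∃ y, ∀ n : ℤ, Near π S ((F ^ n) x) ((G ^ n) y) := by
    intro x
    refine hS (fun n => (F ^ n) x) fun n => ?_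
    have : (F ^ (n + 1)) x = F ((F ^ n) x) := by
      rw [add_comm, zpow_one_add]; rfl
    rw [this]
    exact hn _
  choose H hH using h1
  obtain ⟨T, hT⟩ := near_trans hπ S
  have huniq : ∀ x y y', (∀ n : ℤ, Near π S ((F ^ n) x) ((G ^ n) y)) →
      (∀ n : ℤ, Near π S ((F ^ n) x) ((G ^ n) y')) → y = y' := by
    intro x y y' h h'
    exact hc.expansive y y' T fun n => hT _ _ _ (h n) (h' n)
  refine ⟨H, ?_, ?_, ?_⟩
  · rw [continuous_iff_seqContinuous]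
    intro x x₀ hx
    obtain ⟨R, hR⟩ := (isBounded_range_of_tendsto x hx).exists_norm_le
    obtain ⟨T', hT'⟩ := near_bound hπ R S
    have hb : ∀ n, ‖H (x n)‖ ≤ T' := fun n => by
      apply hT' (x n) _ (hR _ (mem_range_self n))
      have := hH (x n) 0
      simpa using this
    refine tendsto_of_subseq_tendsto fun ns hns => ?_
    obtain ⟨a, -, φ, hφ, hlim⟩ := (isCompact_closedBall (0 : E) T').tendsto_subseq
      (x := fun n => H (x (ns n))) (fun n => by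
        rw [mem_closedBall_zero_iff]; exact hb _)
    refine ⟨φ, ?_⟩
    have hx' : Tendsto (fun n => x (ns (φ n))) atTop (𝓝 x₀) :=
      hx.comp (hns.comp hφ.tendsto_atTop)
    have e1 : a = H x₀ := by
      refine huniq x₀ _ _ (fun n => ?_) (hH x₀)
      exact near_closed hπ (((F ^ n).continuous.tendsto x₀).comp hx')
        (((G ^ n).continuous.tendsto a).comp hlim) (fun j => hH _ n)
    rw [← e1]
    exact hlim
  · intro γ hγ x
    refine huniq (γ x) _ _ (hH (γ x)) fun n => ?_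
    have e1 : (F ^ n) (γ x) = (F ^ n * γ * (F ^ n)⁻¹) ((F ^ n) x) := by
      show _ = (F ^ n) (γ ((F ^ n).symm ((F ^ n) x)))
      rw [Homeomorph.symm_apply_apply]
    have e2 : (G ^ n) (γ (H x)) = (G ^ n * γ * (G ^ n)⁻¹) ((G ^ n) (H x)) := by
      show _ = (G ^ n) (γ ((G ^ n).symm ((G ^ n) (H x))))
      rw [Homeomorph.symm_apply_apply]
    rw [e1, e2, conj_eq hF hG hFG hγ n]
    exact (hH x n).deck (conj_mem hG hγ n)
  · intro x
    refine huniq (F x) _ _ (hH (F x)) fun n => ?_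
    have := hH x (n + 1)
    rw [zpow_add_one, zpow_add_one] at this
    exact this

end Pool.Agent.V5helper18.Nf
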