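import Pool.Agent.V5helper18.Nf.G
import Pool.Agent.V5helper18.Nf.H

/-!
# Coarsely hyperbolic Anosov diffeomorphisms
-/

set_option autoImplicit false
set_option linter.unusedSectionVars false

open scoped Manifold ContDiff Topology
open Set Metric Filter

namespace Pool.Agent.V5helper18.Nf

open Pool.Agent.H721R2 Pool.Agent.H789R2.AN Pool.Agent.V5helper18.Mb Pool.Agent.V5helper18.Ma
open Pool.Agent.Y331.EP Pool.Agent.TH289 Pool.Agent.TH289.K Pool.Agent.TH289.L

section top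

variable {E : Type*} [NormedAddCommGroup E] [NormedSpace ℝ E] [FiniteDimensional ℝ E]
  {M : Type*} [TopologicalSpace M] [T2Space M] {π : E → M}

/-- a continuous lift of a homeomorphism is a homeomorphism -/
theorem lift_homeo (hπ : IsCoveringMap π) (f : M ≃ₜ M) {Φ : E → E}
    (hΦ : Continuous Φ) (hΦl : ∀ x, π (Φ x) = f (π x)) : ∃ F : E ≃ₜ E, ∀ x, F x = Φ x := by
  obtain ⟨Ψ, hΨ, hΨl, hΨ0⟩ := exists_lift hπ (φ := fun x => f.symm (π x))
    (f.symm.continuous.comp hπ.continuous) (a := Φ 0) (e := 0) (by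
      rw [hΦl, Homeomorph.symm_apply_apply])
  have e1 : Ψ ∘ Φ = id := lift_unique hπ (hΨ.comp hΦ) continuous_id (fun x => by
    simp only [Function.comp_apply, id]
    rw [hΨl, hΦl, Homeomorph.symm_apply_apply]) 0 hΨ0
  have e2 : Φ ∘ Ψ = id := lift_unique hπ (hΦ.comp hΨ) continuous_id (fun x => by
    simp only [Function.comp_apply, id]
    rw [hΦl, hΨl, Homeomorph.apply_symm_apply]) (Φ 0) (by
      simp only [Function.comp_apply, id, hΨ0])
  exact ⟨⟨⟨Φ, Ψ, fun a => congrFun e1 a, fun a => congrFun e2 a⟩, hΦ, hΨ⟩, fun x => rfl⟩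

theorem pow_iter {X : Type*} [TopologicalSpace X] (g : X ≃ₜ X) (n : ℕ) (x : X) :
    (g ^ n) x = g^[n] x := by
  induction n with
  | zero => rfl
  | succ k ih => rw [pow_succ', Function.iterate_succ_apply', ← ih]; rfl

theorem lift_pow {g : M ≃ₜ M} {G : E ≃ₜ E} (hG : ∀ x, π (G x) = g (π x)) (n : ℕ) (x : E) :
    π ((G ^ n) x) = g^[n] (π x) := by
  have := lift_zpow hG n x
  rw [zpow_natCast, zpow_natCast, pow_iter g] at this
  exact this

/-- coarse hyperbolicity implies that lifts of iterates have at most one fixed point -/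
theorem nf_of_coarse (hπ : IsCoveringMap π) {g : M ≃ₜ M} {G : E ≃ₜ E}
    (hG : ∀ x, π (G x) = g (π x)) (hc : CoarselyHyperbolic π G) : UniqueFixedLifts π g := by
  intro n hn Φ hΦ hΦl x y hx hy
  obtain ⟨δ, hδ, hδG⟩ := exists_deck_lift hπ (G ^ n).continuous hΦ (fun x => by
    rw [lift_pow hG, hΦl])
  have hδx : δ ((G ^ n) x) = x := by rw [hδG, hx]
  have hδy : δ ((G ^ n) y) = y := by rw [hδG, hy]
  have hup : ∀ γ ∈ Deck π, ∃ γ' ∈ Deck π, ∀ z, G (γ z) = γ' (G z) := by
    intro γ hγ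
    refine ⟨_, conj_mem hG hγ 1, fun z => ?_⟩
    show G (γ z) = (G ^ (1 : ℤ)) (γ ((G ^ (1 : ℤ)).symm (G z)))
    rw [zpow_one, Homeomorph.symm_apply_apply]
  have hdn : ∀ γ ∈ Deck π, ∃ γ' ∈ Deck π, ∀ z, G.symm (γ z) = γ' (G.symm z) := by
    intro γ hγ
    refine ⟨_, conj_mem hG hγ (-1), fun z => ?_⟩
    show G.symm (γ z) = (G ^ (-1 : ℤ)) (γ ((G ^ (-1 : ℤ)).symm (G.symm z)))
    rw [zpow_neg_one]
    show G.symm (γ z) = G.symm (γ (G (G.symm z)))
    rw [Homeomorph.apply_symm_apply]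
  have key : ∀ m : ℤ, ∃ γ ∈ Deck π, ∃ i : ℕ, i < n ∧ (G ^ m) x = γ ((G ^ i) x) ∧
      (G ^ m) y = γ ((G ^ i) y) := by
    intro m
    induction m using Int.induction_on with
    | zero => exact ⟨1, one_mem _, 0, hn, rfl, rfl⟩
    | succ m ih =>
      obtain ⟨γ, hγ, i, hi, h1, h2⟩ := ih
      obtain ⟨γ', hγ', h3⟩ := hup γ hγ
      have e1 : ∀ z, (G ^ ((m : ℤ) + 1)) z = G ((G ^ (m : ℤ)) z) := fun z => by
        rw [add_comm, zpow_one_add]; rfl
      have e2 : ∀ z, G ((G ^ i) z) = (G ^ (i + 1)) z := fun z => by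
        rw [pow_succ']; rfl
      rcases Nat.lt_or_ge (i + 1) n with h | h
      · exact ⟨γ', hγ', i + 1, h, by rw [e1, h1, h3, e2], by rw [e1, h2, h3, e2]⟩
      · have hin : i + 1 = n := by omega
        refine ⟨γ' * δ⁻¹, mul_mem hγ' (inv_mem hδ), 0, hn, ?_, ?_⟩
        · rw [e1, h1, h3, e2, hin]
          show γ' ((G ^ n) x) = γ' (δ.symm x)
          congr 1
          rw [← hδx, Homeomorph.symm_apply_apply, hδx]
        · rw [e1, h2, h3, e2, hin]
          show γ' ((G ^ n) y) = γ' (δ.symm y)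
          congr 1
          rw [← hδy, Homeomorph.symm_apply_apply, hδy]
    | pred m ih =>
      obtain ⟨γ, hγ, i, hi, h1, h2⟩ := ih
      obtain ⟨γ', hγ', h3⟩ := hdn γ hγ
      have e1 : ∀ z, (G ^ (-(m : ℤ) - 1)) z = G.symm ((G ^ (-(m : ℤ))) z) := fun z => by
        have : -(m : ℤ) - 1 = -1 + -(m : ℤ) := by ring
        rw [this, zpow_add, zpow_neg_one]; rfl
      have e2 : ∀ j z, G.symm ((G ^ (j + 1)) z) = (G ^ j) z := fun j z => by
        rw [pow_succ']
        show G.symm (G ((G ^ j) z)) = _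
        rw [Homeomorph.symm_apply_apply]
      rcases Nat.eq_zero_or_pos i with h | h
      · obtain ⟨δ', hδ', h4⟩ := hdn δ hδ
        obtain ⟨k, rfl⟩ : ∃ k, n = k + 1 := ⟨n - 1, by omega⟩
        refine ⟨γ' * δ', mul_mem hγ' hδ', k, by omega, ?_, ?_⟩
        · rw [e1, h1, h3, h]
          show γ' (G.symm x) = γ' (δ' ((G ^ k) x))
          congr 1
          have e3 : G.symm x = G.symm (δ ((G ^ (k + 1)) x)) := by rw [hδx]
          rw [e3, h4, e2]
        · rw [e1, h2, h3, h]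
          show γ' (G.symm y) = γ' (δ' ((G ^ k) y))
          congr 1
          have e3 : G.symm y = G.symm (δ ((G ^ (k + 1)) y)) := by rw [hδy]
          rw [e3, h4, e2]
      · obtain ⟨k, rfl⟩ : ∃ k, i = k + 1 := ⟨i - 1, by omega⟩
        exact ⟨γ', hγ', k, by omega, by rw [e1, h1, h3, e2], by rw [e1, h2, h3, e2]⟩
  refine hc.expansive x y (∑ i ∈ Finset.range n, (‖(G ^ i) x‖ + ‖(G ^ i) y‖)) fun m => ?_
  obtain ⟨γ, hγ, i, hi, h1, h2⟩ := key m
  rw [h1, h2]
  have h3 : ‖(G ^ i) x‖ + ‖(G ^ i) y‖ ≤ ∑ i ∈ Finset.range n, (‖(G ^ i) x‖ + ‖(G ^ i) y‖) :=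
    Finset.single_le_sum (f := fun i => ‖(G ^ i) x‖ + ‖(G ^ i) y‖)
      (fun i _ => add_nonneg (norm_nonneg _) (norm_nonneg _)) (Finset.mem_range.2 hi)
  have h4 := norm_nonneg ((G ^ i) x)
  have h5 := norm_nonneg ((G ^ i) y)
  exact (near_of_norm (by linarith) (by linarith)).deck hγ

end top

section metric

variable {E : Type*} [NormedAddCommGroup E] [NormedSpace ℝ E] [FiniteDimensional ℝ E]
  {M : Type*} [MetricSpace M] {π : E → M}

theorem near_closed' (hπ : IsCoveringMap π) {R : ℝ} {x y : ℕ → E} {a b : E}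
    (hx : Tendsto x atTop (𝓝 a)) (hy : Tendsto y atTop (𝓝 b))
    (h : ∀ᶠ j in atTop, Near π R (x j) (y j)) : Near π R a b := by
  obtain ⟨N, hN⟩ := eventually_atTop.1 h
  exact near_closed hπ ((tendsto_add_atTop_iff_nat N).2 hx) ((tendsto_add_atTop_iff_nat N).2 hy)
    (fun j => hN _ (Nat.le_add_left N j))

theorem asym (hπ : IsCoveringMap π) {g : M ≃ₜ M} {G : E ≃ₜ E} (hG : ∀ x, π (G x) = g (π x))
    (hexp : ∀ (x y : E) (R : ℝ), (∀ n : ℤ, Near π R ((G ^ n) x) ((G ^ n) y)) → x = y)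
    {a b : E} {S : ℝ} (h : ∀ n : ℕ, Near π S ((G ^ n) a) ((G ^ n) b)) :
    Tendsto (fun n : ℕ => dist (g^[n] (π a)) (g^[n] (π b))) atTop (𝓝 0) := by
  rw [Metric.tendsto_atTop]
  intro ε hε
  by_contra hcon
  push Not at hcon
  choose N hN hNε using hcon
  choose γ hγ h2 h3 using h
  have hK : IsCompact (closedBall (0 : E) S ×ˢ closedBall (0 : E) S) :=
    (isCompact_closedBall _ _).prod (isCompact_closedBall _ _)
  obtain ⟨p, hp, φ, hφ, hlim⟩ := hK.tendsto_subseq
    (x := fun j => (γ (N j) ((G ^ (N j)) a), γ (N j) ((G ^ (N j)) b)))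
    (fun j => ⟨by simpa using h2 (N j), by simpa using h3 (N j)⟩)
  have l1 : Tendsto (fun j => γ (N (φ j)) ((G ^ (N (φ j))) a)) atTop (𝓝 p.1) :=
    (continuous_fst.tendsto _).comp hlim
  have l2 : Tendsto (fun j => γ (N (φ j)) ((G ^ (N (φ j))) b)) atTop (𝓝 p.2) :=
    (continuous_snd.tendsto _).comp hlim
  have heq : p.1 = p.2 := by
    refine hexp p.1 p.2 S fun k => ?_
    refine near_closed' hπ (((G ^ k).continuous.tendsto p.1).comp l1)
      (((G ^ k).continuous.tendsto p.2).comp l2) ?_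
    obtain ⟨K, hK⟩ : ∃ K : ℕ, -k ≤ K := ⟨(-k).toNat, Int.self_le_toNat _⟩
    filter_upwards [eventually_ge_atTop K] with j hj
    have h4 : (0 : ℤ) ≤ k + (N (φ j) : ℤ) := by
      have h5 : j ≤ φ j := hφ.le_apply
      have h6 : φ j ≤ N (φ j) := hN (φ j)
      have h7 : (K : ℤ) ≤ N (φ j) := by exact_mod_cast hj.trans (h5.trans h6)
      linarith
    obtain ⟨m, hm⟩ := Int.eq_ofNat_of_zero_le h4
    have h5 : Near π S ((G ^ m) a) ((G ^ m) b) := ⟨γ m, hγ m, h2 m, h3 m⟩
    have h6 := h5.deck (conj_mem hG (hγ (N (φ j))) k)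
    have h7 : ∀ z, (G ^ k * γ (N (φ j)) * (G ^ k)⁻¹) ((G ^ m) z) =
        (G ^ k) (γ (N (φ j)) ((G ^ (N (φ j))) z)) := by
      intro z
      show (G ^ k) (γ (N (φ j)) (((G ^ k)⁻¹ * G ^ m) z)) = _
      have h8 : (G ^ k)⁻¹ * G ^ m = G ^ (N (φ j)) := by
        have h9 : (G : E ≃ₜ E) ^ m = G ^ (k + (N (φ j) : ℤ)) := by
          rw [hm, zpow_natCast]
        rw [h9, zpow_add, zpow_natCast]
        group
      rw [h8]
    rw [h7, h7] at h6
    exact h6
  have h4 : Tendsto (fun j => dist (π (γ (N (φ j)) ((G ^ (N (φ j))) a)))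
      (π (γ (N (φ j)) ((G ^ (N (φ j))) b)))) atTop (𝓝 (dist (π p.1) (π p.2))) :=
    ((hπ.continuous.tendsto _).comp l1).dist ((hπ.continuous.tendsto _).comp l2)
  have h5 : ε ≤ dist (π p.1) (π p.2) := by
    refine ge_of_tendsto' h4 fun j => ?_
    rw [hγ, hγ, lift_pow hG, lift_pow hG]
    have := hNε (φ j)
    rwa [Real.dist_0_eq_abs, abs_of_nonneg dist_nonneg] at this
  rw [heq, dist_self] at h5
  linarith

variable [CompactSpace M] [ConnectedSpace M]

/-- heteroclinic points -/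
theorem het (hπ : IsCoveringMap π) {g : M ≃ₜ M} {G : E ≃ₜ E} (hG : ∀ x, π (G x) = g (π x))
    (hc : CoarselyHyperbolic π G) (x y : M) : ∃ w : M,
      Tendsto (fun n : ℕ => dist (g.symm^[n] w) (g.symm^[n] x)) atTop (𝓝 0) ∧
      Tendsto (fun n : ℕ => dist (g^[n] w) (g^[n] y)) atTop (𝓝 0) := by
  obtain ⟨a, rfl⟩ := surj hπ x
  obtain ⟨b, rfl⟩ := surj hπ y
  obtain ⟨r, hr, hD⟩ := exists_ball hπ
  obtain ⟨S, hS⟩ := hc.shadowing (max r (max ‖a‖ ‖b‖))
  have hs : ∀ u : E, Near π (max r (max ‖a‖ ‖b‖)) u u := fun u => by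
    obtain ⟨γ, hγ, h⟩ := hD u
    exact ⟨γ, hγ, h.trans (le_max_left _ _), h.trans (le_max_left _ _)⟩
  have hsucc : ∀ (n : ℤ) z, (G ^ (n + 1)) z = G ((G ^ n) z) := fun n z => by
    rw [add_comm, zpow_one_add]; rfl
  obtain ⟨w, hw⟩ := hS (fun n => if n < 0 then (G ^ n) a else (G ^ n) b) (by
    intro n
    rcases lt_trichotomy (n + 1) 0 with h | h | h
    · simp only [h, if_true, (by omega : n < 0), hsucc]
      exact hs _
    · have e1 : n = -1 := by omega
      subst e1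
      simp only [neg_add_cancel, lt_self_iff_false, if_false, zpow_zero,
        (by norm_num : (-1 : ℤ) < 0), if_true]
      have e2 : G ((G ^ (-1 : ℤ)) a) = a := by
        rw [zpow_neg_one]; exact G.apply_symm_apply a
      rw [e2]
      exact near_of_norm ((le_max_left _ _).trans (le_max_right _ _))
        ((le_max_right _ _).trans (le_max_right _ _))
    · show Near π _ (G (if n < 0 then (G ^ n) a else (G ^ n) b))
        (if n + 1 < 0 then (G ^ (n + 1)) a else (G ^ (n + 1)) b)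
      rw [if_neg (by omega), if_neg (by omega), hsucc]
      exact hs _)
  refine ⟨π w, ?_, ?_⟩
  · have hG' : ∀ x, π (G.symm x) = g.symm (π x) := by
      intro x
      have h1 := hG (G.symm x)
      rw [Homeomorph.apply_symm_apply] at h1
      rw [h1, Homeomorph.symm_apply_apply]
    have hinv : ∀ (n : ℤ), (G.symm : E ≃ₜ E) ^ n = G ^ (-n) := fun n => by
      show (G⁻¹) ^ n = _
      rw [inv_zpow, zpow_neg]
    refine asym hπ (g := g.symm) (G := G.symm) hG' (fun x y R h => ?_)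
      (a := w) (b := a) (S := max S (max ‖a‖ ‖w‖)) (fun n => ?_)
    · refine hc.expansive x y R fun n => ?_
      have := h (-n)
      rwa [hinv, neg_neg] at this
    · have h0 := hinv n
      rw [zpow_natCast] at h0
      rw [h0]
      rcases Nat.eq_zero_or_pos n with h | h
      · subst h
        simp only [Nat.cast_zero, neg_zero, zpow_zero]
        exact near_of_norm ((le_max_right _ _).trans (le_max_right _ _))
          ((le_max_left _ _).trans (le_max_right _ _))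
      · have h1 := hw (-(n : ℤ))
        simp only [(by omega : -(n : ℤ) < 0), if_true] at h1
        exact h1.symm.mono (le_max_left _ _)
  · refine asym hπ hG hc.expansive (a := w) (b := b) (S := S) (fun n => ?_)
    have h1 := hw n
    have h2 : ¬ (n : ℤ) < 0 := by omega
    simp only [zpow_natCast] at h1
    rw [if_neg h2] at h1
    exact h1.symm

end metric

end Pool.Agent.V5helper18.Nf
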