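import Pool.Agent.V5helper18.Nf.I

/-!
# Coarsely hyperbolic Anosov diffeomorphisms: transitivity and conjugacy in the homotopy class
-/

set_option autoImplicit false
set_option linter.unusedSectionVars false

open scoped Manifold ContDiff Topology
open Set Metric Filter

namespace Pool.Agent.V5helper18.Nf

open Pool.Agent.H721R2 Pool.Agent.H789R2.AN Pool.Agent.V5helper18.Mb Pool.Agent.V5helper18.Ma
open Pool.Agent.Y331.EP Pool.Agent.TH289 Pool.Agent.TH289.K Pool.Agent.TH289.L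

theorem rch_of_het {X : Type*} [MetricSpace X] {g : X ≃ₜ X} {p q w : X} {a b : ℕ} (ha : 1 ≤ a)
    (hb : 1 ≤ b) (hp : g^[a] p = p) (hq : g^[b] q = q)
    (h1 : Tendsto (fun n : ℕ => dist (g.symm^[n] w) (g.symm^[n] p)) atTop (𝓝 0))
    (h2 : Tendsto (fun n : ℕ => dist (g^[n] w) (g^[n] q)) atTop (𝓝 0)) {δ : ℝ} (hδ : 0 < δ) :
    Dy.Rch g δ p q := by
  have hmul : ∀ (φ : X → X) (c : ℕ) (z : X), φ^[c] z = z → ∀ k : ℕ, φ^[c * k] z = z := by
    intro φ c z hz k
    rw [Function.iterate_mul]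
    induction k with
    | zero => rfl
    | succ k ih => rw [Function.iterate_succ_apply, hz, ih]
  have hp' : g.symm^[a] p = p := by
    have := iter_left g a p
    rwa [hp] at this
  obtain ⟨N1, hN1⟩ := eventually_atTop.1 ((tendsto_order.1 h1).2 δ hδ)
  obtain ⟨N2, hN2⟩ := eventually_atTop.1 ((tendsto_order.1 h2).2 δ hδ)
  have e1 : N1 ≤ a * N1 := Nat.le_mul_of_pos_left N1 ha
  have e2 : N2 ≤ b * (N2 + 1) :=
    (Nat.le_succ N2).trans (Nat.le_mul_of_pos_left (N2 + 1) hb)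
  have d1 := hN1 _ e1
  have d2 := hN2 _ e2
  rw [hmul _ _ _ hp'] at d1
  rw [hmul _ _ _ hq] at d2
  obtain ⟨a', rfl⟩ : ∃ a', a = a' + 1 := ⟨a - 1, by omega⟩
  obtain ⟨L, hL⟩ : ∃ L, b * (N2 + 1) = L + 1 := ⟨b * (N2 + 1) - 1, by
    have : 1 ≤ b * (N2 + 1) := Nat.mul_pos hb (Nat.succ_pos _)
    omega⟩
  have r1 : Dy.Rch g δ p (g^[a'] p) := Dy.Rch.orbit g hδ.le p a'
  have r2 : Dy.Rch g δ (g^[a'] p) (g.symm^[(a' + 1) * N1] w) := by
    apply Dy.Rch.step
    rw [← Function.iterate_succ_apply' g, hp, dist_comm]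
    exact d1.le
  have r3 : Dy.Rch g δ (g.symm^[(a' + 1) * N1] w) w := by
    have := Dy.Rch.orbit g hδ.le (g.symm^[(a' + 1) * N1] w) ((a' + 1) * N1)
    rwa [iter_right] at this
  have r4 : Dy.Rch g δ w (g^[L] w) := Dy.Rch.orbit g hδ.le w L
  have r5 : Dy.Rch g δ (g^[L] w) q := by
    apply Dy.Rch.step
    rw [← Function.iterate_succ_apply' g, ← Nat.succ_eq_add_one] at *
    rw [hL] at d2
    exact d2.le
  exact (((r1.trans r2).trans r3).trans r4).trans r5

variable {E : Type*} [NormedAddCommGroup E] [NormedSpace ℝ E] [FiniteDimensional ℝ E]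
  {M : Type*} [TopologicalSpace M] [T2Space M] [CompactSpace M] [ConnectedSpace M]
  [ChartedSpace E M] [IsManifold 𝓘(ℝ, E) ∞ M] {π : E → M}

/-- coarsely hyperbolic Anosov diffeomorphisms are transitive -/
theorem tt_of_coarse (hπ : IsCoveringMap π) (g : Diffeomorph 𝓘(ℝ, E) 𝓘(ℝ, E) M M 1)
    (Es Eu : ∀ x : M, Submodule ℝ (TangentSpace 𝓘(ℝ, E) x)) (hg : IsAnosov g Es Eu)
    {G : E ≃ₜ E} (hG : ∀ x, π (G x) = g (π x)) (hc : CoarselyHyperbolic π G) :
    TopTransitive g := by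
  obtain ⟨m, e, hee, hemb, hinje⟩ :=
    exists_embedding_euclidean_of_compact (I := 𝓘(ℝ, E)) (M := M)
  let _ : MetricSpace M := hemb.isEmbedding.comapMetricSpace e
  obtain ⟨eg, hGe⟩ := ex_of_expansive (expansive_of_anosov g Es Eu hg)
  have hSg := man_shad g Es Eu hg
  refine Dy.tt_of_rch (f := g.toHomeomorph) hSg fun δ hδ x y => ?_
  obtain ⟨p, a, ha, hp, h1⟩ := Dy.to_per hGe hSg hδ x
  obtain ⟨q, b, hb, hq, h2⟩ := Dy.from_per hGe hSg hδ y
  obtain ⟨w, hw1, hw2⟩ := het hπ (g := g.toHomeomorph) hG hc p q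
  exact (h1.trans (rch_of_het ha hb hp hq hw1 hw2 hδ)).trans h2

/-- **Main theorem, second part.** -/
theorem main2 (hπ : IsCoveringMap π) (hd : IsLocalDiffeomorph 𝓘(ℝ, E) 𝓘(ℝ, E) 1 π)
    (g : Diffeomorph 𝓘(ℝ, E) 𝓘(ℝ, E) M M 1)
    (Es' Eu' : ∀ x : M, Submodule ℝ (TangentSpace 𝓘(ℝ, E) x)) (hg : IsAnosov g Es' Eu')
    {G : E ≃ₜ E} (hG : ∀ x, π (G x) = g (π x)) (hc : CoarselyHyperbolic π G)
    (f : Diffeomorph 𝓘(ℝ, E) 𝓘(ℝ, E) M M 1)
    (Es Eu : ∀ x : M, Submodule ℝ (TangentSpace 𝓘(ℝ, E) x)) (hf : IsAnosov f Es Eu)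
    (hfg : (⟨f, f.continuous⟩ : C(M, M)).Homotopic ⟨g, g.continuous⟩) :
    TopTransitive f ∧ ∃ h : M ≃ₜ M, ∀ x, h (f x) = g (h x) := by
  have hNF : UniqueFixedLifts π g := nf_of_coarse hπ (g := g.toHomeomorph) hG hc
  have hT := tt_of_coarse hπ g Es' Eu' hg hG hc
  -- lift of the homotopy
  obtain ⟨Q⟩ := hfg.symm
  let k : ℝ × E → M := fun p => Q (projIcc 0 1 zero_le_one p.1, π p.2)
  have hk : Continuous k := by
    apply Q.continuous.comp
    exact (continuous_projIcc.comp continuous_fst).prodMk (hπ.continuous.comp continuous_snd)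
  have hk0 : ∀ x, k (0, x) = g (π x) := fun x => by
    show Q (projIcc 0 1 zero_le_one 0, π x) = g (π x)
    rw [projIcc_left]
    exact Q.apply_zero (π x)
  have hk1 : ∀ x, k (1, x) = f (π x) := fun x => by
    show Q (projIcc 0 1 zero_le_one 1, π x) = f (π x)
    rw [projIcc_right]
    exact Q.apply_one (π x)
  have hkγ : ∀ γ ∈ Deck π, ∀ t x, k (t, γ x) = k (t, x) := fun γ hγ t x => by
    show Q (_, π (γ x)) = Q (_, π x)
    rw [hγ x]
  obtain ⟨K, hK, hKl, hK0⟩ := exists_lift hπ hk (a := (0, 0)) (e := G 0) (by rw [hG, hk0])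
  have hKG : ∀ x, K (0, x) = G x := by
    have := lift_unique hπ (Φ := fun x => K (0, x)) (Ψ := fun x => G x) (hK.comp (by fun_prop))
      G.continuous (fun x => by rw [hKl, hk0, hG]) 0 hK0
    exact fun x => congrFun this x
  obtain ⟨F, hF⟩ := lift_homeo hπ f.toHomeomorph (Φ := fun x => K (1, x)) (hK.comp (by fun_prop))
    (fun x => by rw [hKl, hk1]; rfl)
  have hFl : ∀ x, π (F x) = f (π x) := fun x => by rw [hF, hKl, hk1]
  have hKγ : ∀ γ ∈ Deck π, ∀ t x, π (K (t, γ x)) = π (K (t, x)) := fun γ hγ t x => by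
    rw [hKl, hKl, hkγ γ hγ]
  have hKe := hmt_equi hπ hK hKγ
  have hFG : ∀ γ ∈ Deck π, F * γ * F⁻¹ = G * γ * G⁻¹ := by
    intro γ hγ
    obtain ⟨γ', hγ', h1⟩ := hKe γ hγ
    have e1 : F * γ = γ' * F := Homeomorph.ext fun x => by
      show F (γ x) = γ' (F x)
      rw [hF, hF, h1]
    have e2 : G * γ = γ' * G := Homeomorph.ext fun x => by
      show G (γ x) = γ' (G x)
      rw [← hKG, ← hKG, h1]
    rw [e1, e2]
    group
  obtain ⟨r, hr, hD⟩ := exists_ball hπ
  obtain ⟨R₁, hR₁⟩ := ((isCompact_closedBall (0 : E) r).image G.continuous).isBounded.exists_norm_le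
  obtain ⟨R₂, hR₂⟩ := ((isCompact_closedBall (0 : E) r).image F.continuous).isBounded.exists_norm_le
  have hn : ∀ x, Near π (max R₁ R₂) (G x) (F x) := by
    intro x
    obtain ⟨γ, hγ, hγx⟩ := hD x
    obtain ⟨γ', hγ', h1⟩ := hKe γ⁻¹ (inv_mem hγ)
    have e0 : γ⁻¹ (γ x) = x := γ.symm_apply_apply x
    have e1 : G x = γ' (G (γ x)) := by
      rw [← hKG (γ x), ← h1, e0, hKG]
    have e2 : F x = γ' (F (γ x)) := by
      rw [hF (γ x), ← h1, e0, hF]
    rw [e1, e2]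
    refine (near_of_norm ?_ ?_).deck hγ'
    · exact (hR₁ _ ⟨γ x, by simpa using hγx, rfl⟩).trans (le_max_left _ _)
    · exact (hR₂ _ ⟨γ x, by simpa using hγx, rfl⟩).trans (le_max_right _ _)
  obtain ⟨H, hH, hHeq, hHF⟩ := exists_semi hπ (f := f.toHomeomorph) (g := g.toHomeomorph) hFl hG
    hFG hn hc
  -- the induced map
  obtain ⟨s, hs⟩ := (surj hπ).hasRightInverse
  set h : M → M := fun x => π (H (s x)) with hhd
  have hHπ : ∀ x, π (H x) = h (π x) := by
    intro x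
    obtain ⟨γ, hγ, hγx⟩ := exists_deck hπ (x := s (π x)) (y := x) (hs (π x))
    have e1 : H x = γ (H (s (π x))) := by rw [← hHeq γ hγ, hγx]
    show π (H x) = π (H (s (π x)))
    rw [e1]
    exact hγ _
  have hhc : Continuous h := by
    rw [(hπ.isQuotientMap (surj hπ)).continuous_iff]
    have : h ∘ π = fun x => π (H x) := funext fun x => (hHπ x).symm
    rw [this]
    exact hπ.continuous.comp hH
  have hh : ∀ x, h (f x) = g (h x) := by
    intro x
    obtain ⟨z, rfl⟩ := surj hπ x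
    rw [← hHπ, ← hG, ← hHF, hHπ, hFl]
  obtain ⟨hinj, hper⟩ := core hπ hd f g Es Eu hf Es' Eu' hg hNF hh hH hHπ hHeq (by
    intro n hn F' G' hF' hG' hFl' hGl' hHF'
    -- iterates of the homotopy
    have hKn : ∀ n : ℕ, ∃ L : ℝ × E → E, Continuous L ∧ (∀ x, L (0, x) = (G ^ n) x) ∧
        (∀ x, L (1, x) = (F ^ n) x) ∧ ∀ γ ∈ Deck π, ∀ t x, π (L (t, γ x)) = π (L (t, x)) := by
      intro n
      induction n with
      | zero => exact ⟨fun p => p.2, continuous_snd, fun x => rfl, fun x => rfl,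
          fun γ hγ t x => hγ x⟩
      | succ n ih =>
        obtain ⟨L, hL, hL0, hL1, hLγ⟩ := ih
        refine ⟨fun p => K (p.1, L p), hK.comp (continuous_fst.prodMk hL), fun x => ?_,
          fun x => ?_, fun γ hγ t x => ?_⟩
        · show K (0, L (0, x)) = _
          rw [hL0, hKG, pow_succ']; rfl
        · show K (1, L (1, x)) = _
          rw [hL1, pow_succ']
          exact (hF _).symm
        · show π (K (t, L (t, γ x))) = π (K (t, L (t, x)))
          obtain ⟨γ', hγ', h1⟩ := hmt_equi hπ hL hLγ γ hγ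
          rw [h1, hKγ γ' hγ']
    obtain ⟨L, hL, hL0, hL1, hLγ⟩ := hKn n
    obtain ⟨δ, hδ, hδF⟩ := exists_deck_lift hπ (F ^ n).continuous hF' (fun x => by
      rw [lift_pow (g := f.toHomeomorph) hFl, hFl']; rfl)
    obtain ⟨δ', hδ', hδG⟩ := exists_deck_lift hπ (G ^ n).continuous hG' (fun x => by
      rw [lift_pow (g := g.toHomeomorph) hG, hGl']; rfl)
    have hHn : ∀ (n : ℕ) x, H ((F ^ n) x) = (G ^ n) (H x) := by
      intro n
      induction n with
      | zero => intro x; rfl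
      | succ n ih =>
        intro x
        rw [pow_succ', pow_succ']
        show H (F ((F ^ n) x)) = G ((G ^ n) (H x))
        rw [hHF, ih]
    have hδδ : δ = δ' := by
      apply deck_unique hπ hδ hδ' (x := (G ^ n) (H 0))
      rw [hδG, ← hHF', ← hδF, hHeq δ hδ, hHn]
    refine ⟨fun p => δ (L p), δ.continuous.comp hL, fun x => ?_, fun x => ?_, fun γ hγ t x => ?_⟩
    · show δ (L (0, x)) = G' x
      rw [hL0, hδδ, hδG]
    · show δ (L (1, x)) = F' x
      rw [hL1, hδF]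
    · show π (δ (L (t, γ x))) = π (δ (L (t, x)))
      rw [hδ, hδ, hLγ γ hγ])
  obtain ⟨-, -, -, c4⟩ := concl f g Es Eu hf Es' Eu' hg hhc hh hinj hper
  obtain ⟨c5, c6⟩ := c4 hT
  exact ⟨c5, Continuous.homeoOfEquivCompactToT2 (f := Equiv.ofBijective h c6) hhc, hh⟩

end Pool.Agent.V5helper18.Nf
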