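import Pool.Agent.V5helper18.Nf.B

/-!
# The index of the fixed points: the commutativity trick
-/

set_option autoImplicit false

open Set Metric Topology Filter

namespace Pool.Agent.V5helper18.Nf

open Pool.Agent.V5helper18.Ch

/-- homotopic through maps without zeros on `S` -/
def HomO {W : Type*} [NormedAddCommGroup W] (S : Set W) (Φ Ψ : W → W) : Prop :=
  ∃ A : ℝ × W → W, Continuous A ∧ (∀ x, A (0, x) = Φ x) ∧ (∀ x, A (1, x) = Ψ x) ∧
    ∀ t ∈ Icc (0 : ℝ) 1, ∀ x ∈ S, A (t, x) ≠ 0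

theorem HomO.trans {W : Type*} [NormedAddCommGroup W] {S : Set W} {F N G : W → W}
    (h1 : HomO S F N) (h2 : HomO S N G) : HomO S F G := by
  obtain ⟨K, hK, hK0, hK1, hKe⟩ := h1
  obtain ⟨L, hL, hL0, hL1, hLe⟩ := h2
  refine ⟨fun p => if p.1 ≤ 1 / 2 then K (2 * p.1, p.2) else L (2 * p.1 - 1, p.2), ?_, ?_, ?_, ?_⟩
  · apply Continuous.if_le (hK.comp (by fun_prop)) (hL.comp (by fun_prop)) continuous_fst
      continuous_const
    intro p hp
    have e1 : 2 * p.1 = 1 := by rw [hp]; norm_num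
    rw [Function.comp_apply, Function.comp_apply, e1, hK1, sub_self, hL0]
  · intro x
    have : (0 : ℝ) ≤ 1 / 2 := by norm_num
    simp only [this, if_true, mul_zero, hK0]
  · intro x
    have : ¬ (1 : ℝ) ≤ 1 / 2 := by norm_num
    simp only [this, if_false]
    rw [← hL1]
    norm_num
  · intro t ht x hx
    by_cases h : t ≤ 1 / 2
    · simp only [h, if_true]
      exact hKe _ ⟨by linarith [ht.1], by linarith⟩ x hx
    · simp only [h, if_false]
      exact hLe _ ⟨by linarith [not_le.1 h], by linarith [ht.2]⟩ x hx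

variable {V : Type*} [NormedAddCommGroup V] [NormedSpace ℝ V] [FiniteDimensional ℝ V]

theorem det_fst (A : V →L[ℝ] V) :
    ((A.prodMap (ContinuousLinearMap.id ℝ V)) : (V × V) →L[ℝ] (V × V)).det = A.det := by
  rw [ContinuousLinearMap.det, ContinuousLinearMap.coe_prodMap]
  rw [LinearMap.det_prodMap]
  simp [ContinuousLinearMap.det]

/-- **Uniqueness of fixed points through a homotopy and the commutativity trick.** -/
theorem unique_fixed2 {P : V → V →L[ℝ] V} (hPc : Continuous P) (hPP : ∀ z, P z * P z = P z)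
    {F G : V → V} (hF : ContDiff ℝ 1 F) (hG : ContDiff ℝ 1 G)
    (hinj : ∀ z v, fderiv ℝ F z v = 0 → v = 0)
    (hcomm : ∀ z v, fderiv ℝ F z (P z v) = P (F z) (fderiv ℝ F z v))
    (hs : ∀ z, F z = z → ∀ τ ∈ Icc (0 : ℝ) 1, ∀ v, P z v = 0 → v = τ • fderiv ℝ F z v → v = 0)
    (hu : ∀ z, F z = z → ∀ τ ∈ Icc (0 : ℝ) 1, ∀ v, P z v = v → fderiv ℝ F z v = τ • v → v = 0)
    {A B : V → V} (hA : Continuous A) (hB : Continuous B)
    {KM KN : ℝ × V → V} (hKM : Continuous KM) (hKM0 : ∀ x, KM (0, x) = A (B x))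
    (hKM1 : ∀ x, KM (1, x) = F x)
    (hKN : Continuous KN) (hKN0 : ∀ x, KN (0, x) = G x) (hKN1 : ∀ x, KN (1, x) = B (A x))
    {q : V} (hq : G q = q) (hqu : ∀ x, G x = x → x = q)
    (hqd : ∀ v, fderiv ℝ G q v = v → v = 0)
    (hbM : Bornology.IsBounded {x : V | ∃ t ∈ Icc (0 : ℝ) 1, KM (t, x) = x})
    (hbN : Bornology.IsBounded {x : V | ∃ t ∈ Icc (0 : ℝ) 1, KN (t, x) = x}) :
    ∃ p, F p = p ∧ ∀ x, F x = x → x = p := by
  obtain ⟨r₁, hr₁⟩ := hbM.exists_norm_le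
  obtain ⟨r₂, hr₂⟩ := hbN.exists_norm_le
  obtain ⟨r₃, hr₃⟩ := ((isCompact_closedBall (0 : V) r₂).image hA).isBounded.exists_norm_le
  obtain ⟨r₄, hr₄⟩ := ((isCompact_closedBall (0 : V) r₁).image hB).isBounded.exists_norm_le
  set r := max (max r₁ r₂) (max (max r₃ r₄) 0) + 1 with hrd
  have l1 : r₁ < r := by
    have := (le_max_left r₁ r₂).trans (le_max_left _ (max (max r₃ r₄) 0)); linarith
  have l2 : r₂ < r := by
    have := (le_max_right r₁ r₂).trans (le_max_left _ (max (max r₃ r₄) 0)); linarith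
  have l3 : r₃ < r := by
    have := ((le_max_left r₃ r₄).trans (le_max_left _ (0 : ℝ))).trans
      (le_max_right (max r₁ r₂) (max (max r₃ r₄) 0)); linarith
  have l4 : r₄ < r := by
    have := ((le_max_right r₃ r₄).trans (le_max_left _ (0 : ℝ))).trans
      (le_max_right (max r₁ r₂) (max (max r₃ r₄) 0)); linarith
  have hr : 0 < r := by
    have := (le_max_right (max r₃ r₄) 0).trans (le_max_right (max r₁ r₂) (max (max r₃ r₄) 0))
    linarith
  have c0 : (0 : ℝ) ∈ Icc (0 : ℝ) 1 := ⟨le_rfl, zero_le_one⟩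
  have c1 : (1 : ℝ) ∈ Icc (0 : ℝ) 1 := ⟨zero_le_one, le_rfl⟩
  -- the basic bounds
  have b1 : ∀ t ∈ Icc (0 : ℝ) 1, ∀ x, KM (t, x) = x → ‖x‖ ≤ r₁ := fun t ht x hx =>
    hr₁ x ⟨t, ht, hx⟩
  have b2 : ∀ t ∈ Icc (0 : ℝ) 1, ∀ x, KN (t, x) = x → ‖x‖ ≤ r₂ := fun t ht x hx =>
    hr₂ x ⟨t, ht, hx⟩
  have b3 : ∀ y, ‖y‖ ≤ r₂ → ‖A y‖ ≤ r₃ := fun y hy => hr₃ _ ⟨y, by simpa using hy, rfl⟩
  have b4 : ∀ y, ‖y‖ ≤ r₁ → ‖B y‖ ≤ r₄ := fun y hy => hr₄ _ ⟨y, by simpa using hy, rfl⟩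
  have bt : ∀ t ∈ Icc (0 : ℝ) 1, ∀ v : V, ‖t • v‖ ≤ ‖v‖ := by
    intro t ht v
    rw [norm_smul, Real.norm_eq_abs, abs_of_nonneg ht.1]
    exact mul_le_of_le_one_left (norm_nonneg _) ht.2
  set S : Set (V × V) := frontier (ball (0 : V × V) r) with hS
  have hfr : ∀ p ∈ S, ¬ (‖p.1‖ < r ∧ ‖p.2‖ < r) := by
    intro p hp h
    rw [hS, frontier_ball _ hr.ne', mem_sphere_zero_iff_norm, Prod.norm_def] at hp
    have := max_lt h.1 h.2
    linarith
  have mk : ∀ Q : ℝ × (V × V) → V × V, Continuous Q →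
      (∀ t ∈ Icc (0 : ℝ) 1, ∀ p : V × V, Q (t, p) = 0 → ‖p.1‖ < r ∧ ‖p.2‖ < r) →
      HomO S (fun p => Q (0, p)) (fun p => Q (1, p)) := by
    intro Q hQ h
    exact ⟨Q, hQ, fun _ => rfl, fun _ => rfl, fun t ht p hp h0 => hfr p hp (h t ht p h0)⟩
  have pz : ∀ {a b : V}, ((a, b) : V × V) = 0 → a = 0 ∧ b = 0 := fun {a b} h => by
    simpa using h
  have s1 := mk (fun p => (p.2.1, p.2.2 - KN (p.1, p.2.2))) (by fun_prop) (by
    rintro t ht ⟨x, y⟩ h
    obtain ⟨h1, h2⟩ := pz h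
    refine ⟨?_, (b2 t ht y (sub_eq_zero.1 h2).symm).trans_lt l2⟩
    show ‖x‖ < r
    have : x = 0 := h1
    rw [this, norm_zero]; exact hr)
  have s2 := mk (fun p => (p.2.1 - p.1 • A p.2.2, p.2.2 - B (A p.2.2))) (by fun_prop) (by
    rintro t ht ⟨x, y⟩ h
    obtain ⟨h1, h2⟩ := pz h
    have h3 : ‖y‖ ≤ r₂ := b2 1 c1 y (by rw [hKN1]; exact (sub_eq_zero.1 h2).symm)
    refine ⟨?_, h3.trans_lt l2⟩
    have h4 : x = t • A y := sub_eq_zero.1 h1
    show ‖x‖ < r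
    rw [h4]
    exact ((bt t ht _).trans (b3 y h3)).trans_lt l3)
  have s3 := mk (fun p => (p.2.1 - A p.2.2,
      p.2.2 - B ((1 - p.1) • A p.2.2 + p.1 • p.2.1))) (by fun_prop) (by
    rintro t ht ⟨x, y⟩ h
    obtain ⟨h1, h2⟩ := pz h
    have h4 : x = A y := sub_eq_zero.1 h1
    have h5 : y = B ((1 - t) • A y + t • x) := sub_eq_zero.1 h2
    rw [h4, ← add_smul, sub_add_cancel, one_smul] at h5
    have h3 : ‖y‖ ≤ r₂ := b2 1 c1 y (by rw [hKN1]; exact h5.symm)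
    refine ⟨?_, h3.trans_lt l2⟩
    show ‖x‖ < r
    rw [h4]
    exact (b3 y h3).trans_lt l3)
  have s4 := mk (fun p => (p.2.1 - A ((1 - p.1) • p.2.2 + p.1 • B p.2.1),
      p.2.2 - B p.2.1)) (by fun_prop) (by
    rintro t ht ⟨x, y⟩ h
    obtain ⟨h1, h2⟩ := pz h
    have h4 : y = B x := sub_eq_zero.1 h2
    have h5 : x = A ((1 - t) • y + t • B x) := sub_eq_zero.1 h1
    rw [h4, ← add_smul, sub_add_cancel, one_smul] at h5
    have h3 : ‖x‖ ≤ r₁ := b1 0 c0 x (by rw [hKM0]; exact h5.symm)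
    refine ⟨h3.trans_lt l1, ?_⟩
    show ‖y‖ < r
    rw [h4]
    exact (b4 x h3).trans_lt l4)
  have s5 := mk (fun p => (p.2.1 - A (B p.2.1), p.2.2 - (1 - p.1) • B p.2.1)) (by fun_prop) (by
    rintro t ht ⟨x, y⟩ h
    obtain ⟨h1, h2⟩ := pz h
    have h4 : y = (1 - t) • B x := sub_eq_zero.1 h2
    have h5 : x = A (B x) := sub_eq_zero.1 h1
    have h3 : ‖x‖ ≤ r₁ := b1 0 c0 x (by rw [hKM0]; exact h5.symm)
    refine ⟨h3.trans_lt l1, ?_⟩
    show ‖y‖ < r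
    rw [h4]
    exact ((bt (1 - t) ⟨by linarith [ht.2], by linarith [ht.1]⟩ _).trans (b4 x h3)).trans_lt l4)
  have s6 := mk (fun p => (p.2.1 - KM (p.1, p.2.1), p.2.2)) (by fun_prop) (by
    rintro t ht ⟨x, y⟩ h
    obtain ⟨h1, h2⟩ := pz h
    refine ⟨(b1 t ht x (sub_eq_zero.1 h1).symm).trans_lt l1, ?_⟩
    show ‖y‖ < r
    have : y = 0 := h2
    rw [this, norm_zero]; exact hr)
  simp only [hKN0, hKN1, zero_smul, one_smul, sub_zero, sub_self, add_zero, zero_add, hKM0,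
    hKM1] at s1 s2 s3 s4 s5 s6
  obtain ⟨T, hT, hT0, hT1, hTe⟩ := ((((s1.trans s2).trans s3).trans s4).trans s5).trans s6
  obtain ⟨σ, hσ⟩ := sign_fixed hPc hPP hF hinj hcomm hs hu hr
  have hFd := fun x => (hF.differentiable (by norm_num) x).hasFDerivAt
  have hGd := fun x => (hG.differentiable (by norm_num) x).hasFDerivAt
  have hd0 : ∀ p : V × V, HasFDerivAt (fun p : V × V => (p.1, p.2 - G p.2))
      ((ContinuousLinearMap.id ℝ V).prodMap (1 - fderiv ℝ G p.2)) p := by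
    intro p
    have h1 : HasFDerivAt (fun x : V => x - G x) (1 - fderiv ℝ G p.2) p.2 :=
      (hasFDerivAt_id p.2).sub (hGd p.2)
    exact HasFDerivAt.prodMap p (hasFDerivAt_id p.1) h1
  have hd1 : ∀ p : V × V, HasFDerivAt (fun p : V × V => (p.1 - F p.1, p.2))
      ((1 - fderiv ℝ F p.1).prodMap (ContinuousLinearMap.id ℝ V)) p := by
    intro p
    have h1 : HasFDerivAt (fun x : V => x - F x) (1 - fderiv ℝ F p.1) p.1 :=
      (hasFDerivAt_id p.1).sub (hFd p.1)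
    exact HasFDerivAt.prodMap p h1 (hasFDerivAt_id p.2)
  obtain ⟨z, hz1, hz2, hz3⟩ := unique_zero' (V := V × V) (G₀ := fun p => (p.1, p.2 - G p.2))
    (G₁ := fun p => (p.1 - F p.1, p.2))
    (contDiff_fst.prodMk (contDiff_snd.sub (hG.comp contDiff_snd)))
    ((contDiff_fst.sub (hF.comp contDiff_fst)).prodMk contDiff_snd) hT hT0 hT1
    (O := ball (0 : V × V) r) isOpen_ball isBounded_ball (z₀ := (0, q)) (σ := σ) hTe
    (by
      rw [mem_ball_zero_iff, Prod.norm_def]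
      refine max_lt (by simpa using hr) ?_
      exact (b2 0 c0 q (by rw [hKN0, hq])).trans_lt l2)
    (by simp [hq])
    (fun p _ hp => by
      obtain ⟨h1, h2⟩ := pz hp
      exact Prod.ext h1 (hqu _ (sub_eq_zero.1 h2).symm))
    (by
      rw [(hd0 _).fderiv]
      apply det_ne_zero_of_inj
      rintro ⟨v, w⟩ h
      have h1 : ((v, w - fderiv ℝ G q w) : V × V) = 0 := h
      obtain ⟨h2, h3⟩ := pz h1
      have h4 : w = 0 := hqd w (sub_eq_zero.1 h3).symm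
      exact Prod.ext h2 h4)
    (fun p hp hp0 => by
      obtain ⟨h1, h2⟩ := pz hp0
      rw [(hd1 _).fderiv, det_fst]
      refine hσ _ ?_ (sub_eq_zero.1 h1).symm
      rw [mem_ball_zero_iff, Prod.norm_def] at hp
      rw [mem_ball_zero_iff]
      exact (le_max_left _ _).trans_lt hp)
  obtain ⟨h1, h2⟩ := pz hz2
  refine ⟨z.1, (sub_eq_zero.1 h1).symm, fun x hx => ?_⟩
  have h3 := hz3 (x, 0) (by
    rw [mem_ball_zero_iff, Prod.norm_def]
    exact max_lt ((b1 1 c1 x (by rw [hKM1, hx])).trans_lt l1) (by simpa using hr)) (by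
    simp [hx])
  exact congrArg Prod.fst h3

end Pool.Agent.V5helper18.Nf
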