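import Pool.Agent.V5helper18.Nf.K
import Pool.Agent.V5helper18.Nf.G

/-!
# Two manifolds: the index of the lifts of Anosov diffeomorphisms
-/

set_option autoImplicit false
set_option linter.unusedSectionVars false

open scoped Manifold ContDiff Topology
open Set Metric Filter

namespace Pool.Agent.V5helper18.Nf

open Pool.Agent.H721R2 Pool.Agent.H789R2.AN Pool.Agent.V5helper18.Mb

section basic

variable {E : Type*} [NormedAddCommGroup E] [NormedSpace ℝ E] {M : Type*} [TopologicalSpace M]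
  {π : E → M}

/-- **Compactness of the fixed points of an equivariant homotopy.** -/
theorem bounded_fix' [FiniteDimensional ℝ E] [T2Space M] [CompactSpace M] [ConnectedSpace M]
    (hπ : IsCoveringMap π) {K : ℝ × E → E} (hK : Continuous K)
    (heq : ∀ γ ∈ Deck π, ∃ γ' ∈ Deck π, ∀ t x, K (t, γ x) = γ' (K (t, x)))
    (hcent : ∀ β ∈ Deck π, (∀ u z, K (u, β z) = β (K (u, z))) → β = 1) :
    Bornology.IsBounded {x | ∃ t ∈ Icc (0 : ℝ) 1, K (t, x) = x} := by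
  by_contra hcon
  obtain ⟨r, hr, hD⟩ := exists_ball hπ
  rw [isBounded_iff_forall_norm_le] at hcon
  push Not at hcon
  have h1 : ∀ j : ℕ, ∃ x : E, (∃ t ∈ Icc (0 : ℝ) 1, K (t, x) = x) ∧ (j : ℝ) < ‖x‖ := fun j => by
    obtain ⟨x, hx, hx'⟩ := hcon j
    exact ⟨x, hx, hx'⟩
  choose x hx hxn using h1
  choose t ht hKt using hx
  choose β hβ hβr using fun j => hD (x j)
  choose Φ hΦ hΦK using heq
  obtain ⟨s, a, φ, hφ, hs, hts, hya⟩ := extract_seq (t := t) (y := fun j => β j (x j)) ht hβr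
  set y : ℕ → E := fun j => β (φ j) (x (φ j)) with hyd
  set γ : ℕ → (E ≃ₜ E) := fun j => (β (φ j))⁻¹ with hγd
  have hγ : ∀ j, γ j ∈ Deck π := fun j => inv_mem (hβ _)
  have hγy : ∀ j, γ j (y j) = x (φ j) := fun j => (β (φ j)).symm_apply_apply _
  set δ : ℕ → (E ≃ₜ E) := fun j => Φ (γ j) (hγ j) with hδd
  have hδ : ∀ j, δ j ∈ Deck π := fun j => hΦ _ _
  have hδK : ∀ j u z, K (u, γ j z) = δ j (K (u, z)) := fun j u z => hΦK _ _ u z
  have hε : ∀ j, (δ j)⁻¹ * γ j ∈ Deck π := fun j => mul_mem (inv_mem (hδ j)) (hγ j)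
  have hεy : ∀ j, ((δ j)⁻¹ * γ j) (y j) = K (t (φ j), y j) := by
    intro j
    show (δ j).symm (γ j (y j)) = _
    rw [hγy, ← hKt, ← hγy, hδK, Homeomorph.symm_apply_apply]
  have hlim : Tendsto (fun j => ((δ j)⁻¹ * γ j) (y j)) atTop (𝓝 (K (s, a))) := by
    simp only [hεy]
    exact (hK.tendsto (s, a)).comp (hts.prodMk_nhds hya)
  obtain ⟨ε, hεD, -, hev⟩ := eventually_deck hπ hε hya hlim
  obtain ⟨N, hN⟩ := eventually_atTop.1 hev
  have hconst : ∀ j ≥ N, γ j = γ N := by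
    intro j hj
    have e1 : γ j = δ j * ε := by rw [← hN j hj]; group
    have e2 : γ N = δ N * ε := by rw [← hN N le_rfl]; group
    have e3 : γ j * (γ N)⁻¹ = δ j * (δ N)⁻¹ := by rw [e1, e2]; group
    have e4 : ∀ u z, K (u, (γ j * (γ N)⁻¹) z) = (γ j * (γ N)⁻¹) (K (u, z)) := by
      intro u z
      have e5 : K (u, (γ N)⁻¹ z) = (δ N)⁻¹ (K (u, z)) := by
        have := hδK N u ((γ N)⁻¹ z)
        have e6 : γ N ((γ N)⁻¹ z) = z := (γ N).apply_symm_apply z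
        rw [e6] at this
        rw [this]
        exact ((δ N).symm_apply_apply _).symm
      show K (u, γ j ((γ N)⁻¹ z)) = _
      rw [hδK, e5, e3]
      rfl
    have e6 : γ j * (γ N)⁻¹ = 1 := hcent _ (mul_mem (hγ j) (inv_mem (hγ N))) e4
    exact mul_inv_eq_one.1 e6
  obtain ⟨R, hR⟩ := ((isCompact_closedBall (0 : E) r).image (γ N).continuous).isBounded.exists_norm_le
  obtain ⟨m, hm⟩ := exists_nat_gt R
  have h2 := hxn (φ (max N m))
  have h3 : m ≤ φ (max N m) := (le_max_right N m).trans hφ.le_apply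
  have h4 : ‖x (φ (max N m))‖ ≤ R := by
    rw [← hγy, hconst _ (le_max_left N m)]
    exact hR _ ⟨_, by simpa [hyd] using hβr _, rfl⟩
  have h5 : (m : ℝ) ≤ φ (max N m) := by exact_mod_cast h3
  linarith

end basic

section data

variable {E : Type*} [NormedAddCommGroup E] [NormedSpace ℝ E] [FiniteDimensional ℝ E]
  {M : Type*} [TopologicalSpace M] [T2Space M] [CompactSpace M] [ConnectedSpace M]
  [ChartedSpace E M] [IsManifold 𝓘(ℝ, E) ∞ M] {π : E → M}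

/-- the hyperbolic data of a lift of an iterate -/
theorem lift_data (hd : IsLocalDiffeomorph 𝓘(ℝ, E) 𝓘(ℝ, E) 1 π)
    (f : Diffeomorph 𝓘(ℝ, E) 𝓘(ℝ, E) M M 1)
    (Es Eu : ∀ x : M, Submodule ℝ (TangentSpace 𝓘(ℝ, E) x)) (hf : IsAnosov f Es Eu)
    {n : ℕ} (hn : 1 ≤ n) {F : E → E} (hF : Continuous F)
    (hFl : ∀ x, π (F x) = f^[n] (π x)) :
    ∃ P : E → E →L[ℝ] E, Continuous P ∧ (∀ z, P z * P z = P z) ∧ ContDiff ℝ 1 F ∧
      (∀ z v, fderiv ℝ F z v = 0 → v = 0) ∧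
      (∀ z v, fderiv ℝ F z (P z v) = P (F z) (fderiv ℝ F z v)) ∧
      (∀ z, F z = z → ∀ τ ∈ Icc (0 : ℝ) 1, ∀ v, P z v = 0 → v = τ • fderiv ℝ F z v → v = 0) ∧
      (∀ z, F z = z → ∀ τ ∈ Icc (0 : ℝ) 1, ∀ v, P z v = v → fderiv ℝ F z v = τ • v → v = 0) := by
  obtain ⟨m, e, he, hemb, hinj⟩ := exists_embedding_euclidean_of_compact (I := 𝓘(ℝ, E)) (M := M)
  let _ : MetricSpace M := hemb.isEmbedding.comapMetricSpace e
  have he1 : ContMDiff 𝓘(ℝ, E) (𝓡 m) 1 e := he.of_le (by simp)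
  obtain ⟨C, a, b, Ls, Lu, hEf⟩ := eanosov_of_isAnosov e he1 hinj f Es Eu hf
  have hfs : ContMDiff 𝓘(ℝ, E) 𝓘(ℝ, E) 1 (f^[n]) := iter_smooth f f.contMDiff n
  have hF1 : ContDiff ℝ 1 F := lift_contDiff hd hF hfs hFl
  have hcu := closed_u f Es Eu hf
  have hcs : ClosedField Es := closed_u f.symm Eu Es (anosov_symm f Es Eu hf)
  have hbij := fun x => dp_bij hd x
  have hcomp : ∀ (Es Eu : ∀ x : M, Submodule ℝ (TangentSpace 𝓘(ℝ, E) x)),
      (∀ x, IsCompl (Es x) (Eu x)) → ∀ x, IsCompl (pull π Es x) (pull π Eu x) := by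
    intro Es Eu hc x
    constructor
    · rw [Submodule.disjoint_def]
      intro v hs hu
      have h1 := (hc (π x)).disjoint
      rw [Submodule.disjoint_def] at h1
      have h2 : dp π x v = 0 := h1 _ hs hu
      exact (hbij x).1 (by rw [h2, map_zero])
    · rw [codisjoint_iff, eq_top_iff]
      intro v _
      let S₁ : Submodule ℝ E := Es (π x)
      let U₁ : Submodule ℝ E := Eu (π x)
      have h0 : S₁ ⊔ U₁ = ⊤ := (hc (π x)).sup_eq_top
      have h1 : dp π x v ∈ S₁ ⊔ U₁ := by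
        rw [h0]; trivial
      obtain ⟨s, hs, u, hu, hsu⟩ := Submodule.mem_sup.1 h1
      obtain ⟨s', rfl⟩ := (hbij x).2 s
      obtain ⟨u', rfl⟩ := (hbij x).2 u
      refine Submodule.mem_sup.2 ⟨s', hs, u', hu, (hbij x).1 ?_⟩
      rw [map_add]
      exact hsu
  obtain ⟨P, hPc, hPP, hPs, hPu⟩ := exists_projField (hcomp Es Eu hf.isCompl)
    (pull_closed hd hcs) (pull_closed hd hcu)
  have hch := fun x v => chain_lift hd hF1 hfs hFl x v
  have hmapS : ∀ x v, v ∈ pull π Es x → fderiv ℝ F x v ∈ pull π Es (F x) := by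
    intro x v hv
    rw [mem_pull, hch, hFl]
    exact hEf.mapS n (π x) _ hv
  have hmapU : ∀ x v, v ∈ pull π Eu x → fderiv ℝ F x v ∈ pull π Eu (F x) := by
    intro x v hv
    rw [mem_pull, hch, hFl]
    exact hEf.mapU n (π x) _ hv
  have hinjF : ∀ z v, fderiv ℝ F z v = 0 → v = 0 := by
    intro z v hv
    have h1 := hch z v
    rw [hv, map_zero] at h1
    have h2 := dg_inv (f^[n]) (f.toHomeomorph.symm^[n]) hfs
      (iter_smooth _ hEf.smooth' n) (iter_left f.toHomeomorph n) (π z) (dp π z v)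
    rw [← h1, map_zero] at h2
    exact (hbij z).1 (by rw [← h2, map_zero])
  have hcomm : ∀ z v, fderiv ℝ F z (P z v) = P (F z) (fderiv ℝ F z v) := by
    intro z v
    have h1 : P z (P z v) = P z v := congrArg (fun L : E →L[ℝ] E => L v) (hPP z)
    have h2 : v - P z v ∈ pull π Es z := by
      rw [← hPs, map_sub, h1, sub_self]
    have h3 := (hPs _ _).2 (hmapS _ _ h2)
    have h4 := (hPu _ _).2 (hmapU _ _ ((hPu _ _).1 h1))
    rw [map_sub, map_sub, sub_eq_zero, h4] at h3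
    exact h3.symm
  have hfix : ∀ z, F z = z → f^[n] (π z) = π z := fun z hz => by rw [← hFl, hz]
  refine ⟨P, hPc, hPP, hF1, hinjF, hcomm, ?_, ?_⟩
  · intro z hz τ hτ v hv hvτ
    have h1 := per_s hEf hinj hn (hfix z hz) hτ (w := dp π z v) ((hPs z v).1 hv) (by
      have h2 := hch z v
      rw [hz] at h2
      show dp π z v = τ • dg E (f^[n]) (π z) (dp π z v)
      rw [← h2, ← map_smul, ← hvτ])
    exact (hbij z).1 (by rw [h1, map_zero])
  · intro z hz τ hτ v hv hvτ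
    have h1 := per_u hEf hinj hn (hfix z hz) hτ (w := dp π z v) ((hPu z v).1 hv) (by
      have h2 := hch z v
      rw [hz, hvτ, map_smul] at h2
      exact h2.symm)
    exact (hbij z).1 (by rw [h1, map_zero])

theorem nondeg {P : E → E →L[ℝ] E} {G : E → E} {q : E} (hPP : ∀ z, P z * P z = P z)
    (hcomm : ∀ z v, fderiv ℝ G z (P z v) = P (G z) (fderiv ℝ G z v))
    (hs : ∀ z, G z = z → ∀ τ ∈ Icc (0 : ℝ) 1, ∀ v, P z v = 0 → v = τ • fderiv ℝ G z v → v = 0)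
    (hu : ∀ z, G z = z → ∀ τ ∈ Icc (0 : ℝ) 1, ∀ v, P z v = v → fderiv ℝ G z v = τ • v → v = 0)
    (hq : G q = q) : ∀ v, fderiv ℝ G q v = v → v = 0 := by
  intro v hv
  have h1 : P q (P q v) = P q v := congrArg (fun L : E →L[ℝ] E => L v) (hPP q)
  have h2 : P q v = 0 := by
    refine hu q hq 1 ⟨zero_le_one, le_rfl⟩ (P q v) h1 ?_
    rw [hcomm, hq, hv, one_smul]
  exact hs q hq 1 ⟨zero_le_one, le_rfl⟩ v h2 (by rw [hv, one_smul])

end data

section two

variable {E : Type*} [NormedAddCommGroup E] [NormedSpace ℝ E] [FiniteDimensional ℝ E]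
  {M : Type*} [TopologicalSpace M] [T2Space M] [CompactSpace M] [ConnectedSpace M]
  [ChartedSpace E M] [IsManifold 𝓘(ℝ, E) ∞ M] {π : E → M}
  {N : Type*} [TopologicalSpace N] [T2Space N] [CompactSpace N] [ConnectedSpace N]
  [ChartedSpace E N] [IsManifold 𝓘(ℝ, E) ∞ N] {ρ : E → N}

/-- Uniqueness of the fixed point of a lift, from the other manifold. -/
theorem fixed_unique2 (hπ : IsCoveringMap π) (hd : IsLocalDiffeomorph 𝓘(ℝ, E) 𝓘(ℝ, E) 1 π)
    (hρ : IsCoveringMap ρ) (hd' : IsLocalDiffeomorph 𝓘(ℝ, E) 𝓘(ℝ, E) 1 ρ)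
    (f : Diffeomorph 𝓘(ℝ, E) 𝓘(ℝ, E) M M 1) (g : Diffeomorph 𝓘(ℝ, E) 𝓘(ℝ, E) N N 1)
    (Es Eu : ∀ x : M, Submodule ℝ (TangentSpace 𝓘(ℝ, E) x)) (hf : IsAnosov f Es Eu)
    (Es' Eu' : ∀ x : N, Submodule ℝ (TangentSpace 𝓘(ℝ, E) x)) (hg : IsAnosov g Es' Eu')
    {n : ℕ} (hn : 1 ≤ n) {F G : E → E} (hF : Continuous F) (hG : Continuous G)
    (hFl : ∀ x, π (F x) = f^[n] (π x)) (hGl : ∀ x, ρ (G x) = g^[n] (ρ x))
    {A B : E → E} (hA : Continuous A) (hB : Continuous B)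
    (hM : Hmt π F (A ∘ B)) (hN : Hmt ρ (B ∘ A) G)
    (hcent : ∀ β ∈ Deck π, (∀ z, A (B (β z)) = β (A (B z))) → β = 1)
    {q : E} (hq : G q = q) (hqu : ∀ x, G x = x → x = q) :
    ∃ p, F p = p ∧ ∀ x, F x = x → x = p := by
  obtain ⟨KM, hKM, hKM0, hKM1, hKMe⟩ := hM
  obtain ⟨KN, hKN, hKN0, hKN1, hKNe⟩ := hN
  obtain ⟨P, hPc, hPP, hF1, hinj, hcomm, hs, hu⟩ := lift_data hd f Es Eu hf hn hF hFl
  obtain ⟨Q, -, hQQ, hG1, -, hcomm', hs', hu'⟩ := lift_data hd' g Es' Eu' hg hn hG hGl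
  refine unique_fixed2 hPc hPP hF1 hG1 hinj hcomm hs hu hA hB hKM hKM0 hKM1 hKN hKN0 hKN1 hq hqu
    (nondeg hQQ hcomm' hs' hu' hq) ?_ ?_
  · refine bounded_fix' hπ hKM (hmt_equi hπ hKM hKMe) fun β hβ h => hcent β hβ fun z => ?_
    have := h 0 z
    rw [hKM0, hKM0] at this
    exact this
  · refine bounded_fix' hρ hKN (hmt_equi hρ hKN hKNe) fun β hβ h => ?_
    apply deck_unique hρ hβ (one_mem _) (x := q)
    have h1 := h 0 q
    rw [hKN0, hKN0, hq] at h1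
    rw [hqu _ h1]
    rfl

end two

end Pool.Agent.V5helper18.Nf
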