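import Pool.Agent.V5helper18.Nf.L

/-!
# Lifts of homotopy equivalences
-/

set_option autoImplicit false
set_option linter.unusedSectionVars false

open scoped Manifold ContDiff Topology
open Set Metric Filter

namespace Pool.Agent.V5helper18.Nf

section

variable {E : Type*} [NormedAddCommGroup E] [NormedSpace ℝ E] {M N : Type*} [TopologicalSpace M]
  [TopologicalSpace N] {π : E → M} {ρ : E → N}

theorem Hmt.symm {F G : E → E} (h : Hmt π F G) : Hmt π G F := by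
  obtain ⟨K, hK, hK0, hK1, hKe⟩ := h
  refine ⟨fun p => K (1 - p.1, p.2), hK.comp (by fun_prop), fun x => ?_, fun x => ?_,
    fun γ hγ t x => hKe γ hγ _ x⟩
  · show K (1 - 0, x) = F x
    rw [sub_zero, hK1]
  · show K (1 - 1, x) = G x
    rw [sub_self, hK0]

theorem comm_of_hmt (hπ : IsCoveringMap π) {Φ : E → E} (h : Hmt π Φ id) :
    ∀ γ ∈ Deck π, ∀ x, Φ (γ x) = γ (Φ x) := by
  obtain ⟨K, hK, hK0, hK1, hKe⟩ := h
  intro γ hγ x
  obtain ⟨γ', hγ', h1⟩ := hmt_equi hπ hK hKe γ hγ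
  have h2 := h1 0 x
  rw [hK0, hK0] at h2
  have h3 : γ = γ' := deck_unique hπ hγ hγ' (x := x) h2
  have h4 := h1 1 x
  rw [hK1, hK1, ← h3] at h4
  exact h4

/-- lifts of a pair of homotopy inverse maps -/
structure HE (π : E → M) (ρ : E → N) (k l : E → E) : Prop where
  ck : Continuous k
  cl : Continuous l
  dk : ∀ γ ∈ Deck π, ∀ x, ρ (k (γ x)) = ρ (k x)
  dl : ∀ γ ∈ Deck ρ, ∀ x, π (l (γ x)) = π (l x)
  lk : Hmt π (l ∘ k) id
  kl : Hmt ρ (k ∘ l) id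

variable {k l : E → E}

theorem desc_tw (hρ : IsCoveringMap ρ) (hk : Continuous k)
    (dk : ∀ γ ∈ Deck π, ∀ x, ρ (k (γ x)) = ρ (k x)) {γ : E ≃ₜ E} (hγ : γ ∈ Deck π) :
    ∃ γ' ∈ Deck ρ, ∀ x, k (γ x) = γ' (k x) := by
  obtain ⟨γ', h1, h2⟩ := exists_deck_lift hρ hk (hk.comp γ.continuous) (fun x => (dk γ hγ x).symm)
  exact ⟨γ', h1, fun x => (h2 x).symm⟩

theorem HE.tw (h : HE π ρ k l) (hρ : IsCoveringMap ρ) {γ : E ≃ₜ E} (hγ : γ ∈ Deck π) :
    ∃ γ' ∈ Deck ρ, ∀ x, k (γ x) = γ' (k x) := desc_tw hρ h.ck h.dk hγ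

theorem HE.tw_inj (h : HE π ρ k l) (hπ : IsCoveringMap π) {γ₁ γ₂ γ' : E ≃ₜ E}
    (h₁ : γ₁ ∈ Deck π) (h₂ : γ₂ ∈ Deck π) (k₁ : ∀ x, k (γ₁ x) = γ' (k x))
    (k₂ : ∀ x, k (γ₂ x) = γ' (k x)) : γ₁ = γ₂ := by
  have e1 := comm_of_hmt hπ h.lk γ₁ h₁ 0
  have e2 := comm_of_hmt hπ h.lk γ₂ h₂ 0
  simp only [Function.comp_apply] at e1 e2
  rw [k₁] at e1
  rw [k₂, e1] at e2
  exact deck_unique hπ h₁ h₂ e2

theorem HE.tw_surj (h : HE π ρ k l) (hπ : IsCoveringMap π) (hρ : IsCoveringMap ρ) {γ' : E ≃ₜ E}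
    (hγ' : γ' ∈ Deck ρ) : ∃ γ ∈ Deck π, ∀ x, k (γ x) = γ' (k x) := by
  obtain ⟨γ, hγ, h1⟩ := desc_tw hπ h.cl h.dl hγ'
  obtain ⟨γ'', hγ'', h2⟩ := h.tw hρ hγ
  have e1 := comm_of_hmt hρ h.kl γ' hγ' 0
  simp only [Function.comp_apply] at e1
  rw [h1, h2] at e1
  have e2 := deck_unique hρ hγ'' hγ' e1
  exact ⟨γ, hγ, by rw [← e2]; exact h2⟩

end

variable {E : Type*} [NormedAddCommGroup E] [NormedSpace ℝ E]
  {M : Type*} [TopologicalSpace M] [T2Space M] [ConnectedSpace M] {π : E → M}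
  {N : Type*} [TopologicalSpace N] [T2Space N] [ConnectedSpace N] {ρ : E → N}

theorem lift_homotopy' {M : Type*} [TopologicalSpace M] {π : E → M} (hπ : IsCoveringMap π)
    (h : C(M, M)) (hid : h.Homotopic (ContinuousMap.id M)) :
    ∃ A : ℝ × E → E, Continuous A ∧ (∀ x, A (0, x) = x) ∧ (∀ x, π (A (1, x)) = h (π x)) ∧
      ∀ γ ∈ Deck π, ∀ t x, A (t, γ x) = γ (A (t, x)) := by
  obtain ⟨Q⟩ := hid.symm
  let k : ℝ × E → M := fun p => Q (projIcc 0 1 zero_le_one p.1, π p.2)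
  have hk : Continuous k := by
    apply Q.continuous.comp
    exact (continuous_projIcc.comp continuous_fst).prodMk (hπ.continuous.comp continuous_snd)
  have hk0 : ∀ x, k (0, x) = π x := fun x => by
    show Q (projIcc 0 1 zero_le_one 0, π x) = π x
    rw [projIcc_left]
    exact Q.apply_zero (π x)
  have hk1 : ∀ x, k (1, x) = h (π x) := fun x => by
    show Q (projIcc 0 1 zero_le_one 1, π x) = h (π x)
    rw [projIcc_right]
    exact Q.apply_one (π x)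
  obtain ⟨A, hA, hAl, hA0⟩ := exists_lift hπ hk (a := (0, 0)) (e := (0 : E)) (hk0 0).symm
  have h0 : ∀ x, A (0, x) = x := by
    have := lift_unique hπ (Φ := fun x => A (0, x)) (Ψ := fun x => x) (hA.comp (by fun_prop))
      continuous_id (fun x => by rw [hAl, hk0]) 0 hA0
    exact fun x => congrFun this x
  refine ⟨A, hA, h0, fun x => by rw [hAl, hk1], fun γ hγ t x => ?_⟩
  have := lift_unique hπ (A := ℝ × E) (Φ := fun p => A (p.1, γ p.2)) (Ψ := fun p => γ (A p))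
    (hA.comp (continuous_fst.prodMk (γ.continuous.comp continuous_snd))) (γ.continuous.comp hA)
    (fun p => by
      rw [hAl, hγ (A p), hAl]
      show Q (_, π (γ p.2)) = Q (_, π p.2)
      rw [hγ p.2]) (0, 0) (by simp only [h0])
  exact congrFun this (t, x)

/-- **Lifts of homotopy equivalences.** -/
theorem exists_HE (hπ : IsCoveringMap π) (hρ : IsCoveringMap ρ) (k₀ : C(M, N)) (l₀ : C(N, M))
    (h1 : (l₀.comp k₀).Homotopic (ContinuousMap.id M))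
    (h2 : (k₀.comp l₀).Homotopic (ContinuousMap.id N)) :
    ∃ k l : E → E, HE π ρ k l ∧ ∀ x, ρ (k x) = k₀ (π x) := by
  obtain ⟨A, hA, hA0, hA1, hAe⟩ := lift_homotopy' hπ _ h1
  obtain ⟨B, hB, hB0, hB1, hBe⟩ := lift_homotopy' hρ _ h2
  obtain ⟨y, hy⟩ := surj hρ (k₀ (π 0))
  obtain ⟨k, hk, hkl, -⟩ := exists_lift hρ (k₀.continuous.comp hπ.continuous) (a := (0 : E)) hy
  obtain ⟨z, hz⟩ := surj hπ (l₀ (ρ 0))
  obtain ⟨l', hl', hll', -⟩ := exists_lift hπ (l₀.continuous.comp hρ.continuous) (a := (0 : E)) hz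
  simp only [Function.comp_apply] at hkl hll'
  obtain ⟨δ, hδ, hδ1⟩ := exists_deck_lift hπ (Φ := fun x => l' (k x)) (Ψ := fun x => A (1, x))
    (hl'.comp hk) (hA.comp (by fun_prop)) (fun x => by rw [hll', hkl, hA1]; rfl)
  set l : E → E := fun x => δ (l' x) with hl
  have hlc : Continuous l := δ.continuous.comp hl'
  have hll : ∀ x, π (l x) = l₀ (ρ x) := fun x => by rw [hl]; simp only []; rw [hδ, hll']
  have hlk : ∀ x, l (k x) = A (1, x) := hδ1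
  obtain ⟨ε, hε, hε1⟩ := exists_deck_lift hρ (Φ := fun x => B (1, x)) (Ψ := fun x => k (l x))
    (hB.comp (by fun_prop)) (hk.comp hlc) (fun x => by rw [hB1, hkl, hll]; rfl)
  have dk : ∀ γ ∈ Deck π, ∀ x, ρ (k (γ x)) = ρ (k x) := fun γ hγ x => by
    rw [hkl, hkl, hγ x]
  have dl : ∀ γ ∈ Deck ρ, ∀ x, π (l (γ x)) = π (l x) := fun γ hγ x => by
    rw [hll, hll, hγ x]
  have hB1' : ∀ x, B (1, x) = ε.symm (k (l x)) := fun x => by
    rw [← hε1, Homeomorph.symm_apply_apply]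
  have hεi : ε⁻¹ ∈ Deck ρ := inv_mem hε
  have hcomm : ∀ x, k (l (ε.symm x)) = ε.symm (k (l x)) := by
    intro x
    have e1 : B (1, ε.symm x) = ε.symm (B (1, x)) := hBe ε⁻¹ hεi 1 x
    rw [← hε1, e1, Homeomorph.apply_symm_apply, hB1']
  refine ⟨k, l, ⟨hk, hlc, dk, dl, ⟨A, hA, hA0, fun x => (hlk x).symm, fun γ hγ t x => by
    rw [hAe γ hγ, hγ (A (t, x))]⟩, ?_⟩, hkl⟩
  have H1 : Hmt ρ (fun x => ε.symm (k (l x))) id :=
    ⟨B, hB, hB0, fun x => hB1' x, fun γ hγ t x => by rw [hBe γ hγ, hγ (B (t, x))]⟩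
  have H2 : Hmt ρ (fun x => ε.symm (k (l (k (l x))))) (fun x => ε.symm (k (l x))) := by
    refine ⟨fun p => ε.symm (k (A (p.1, l p.2))), ε.symm.continuous.comp (hk.comp (hA.comp
      (continuous_fst.prodMk (hlc.comp continuous_snd)))), fun x => by simp only [hA0],
      fun x => by simp only [hlk], fun γ hγ t x => ?_⟩
    obtain ⟨γ', hγ', h3⟩ := desc_tw hπ hlc dl hγ
    obtain ⟨γ'', hγ'', h4⟩ := desc_tw hρ hk dk hγ'
    show ρ (ε⁻¹ (k (A (t, l (γ x))))) = ρ (ε⁻¹ (k (A (t, l x))))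
    rw [hεi, hεi, h3, hAe γ' hγ', h4, hγ'']
  have H3 : Hmt ρ (fun x => ε.symm (k (l (k (l x))))) (k ∘ l) := by
    refine ⟨fun p => k (l (B p)), hk.comp (hlc.comp hB), fun x => by simp only [hB0]; rfl,
      fun x => ?_, fun γ hγ t x => ?_⟩
    · show k (l (B (1, x))) = ε.symm (k (l (k (l x))))
      rw [hB1', hcomm]
    · obtain ⟨γ', hγ', h3⟩ := desc_tw hπ hlc dl hγ
      show ρ (k (l (B (t, γ x)))) = ρ (k (l (B (t, x))))
      rw [hBe γ hγ, h3, dk γ' hγ']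
  exact (H3.symm.trans H2).trans H1

end Pool.Agent.V5helper18.Nf
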