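import Pool.Agent.V5helper18.Nf.N
import Pool.Agent.V5helper18.Nf.Def

/-!
# Semiconjugacies between Anosov diffeomorphisms of two manifolds
-/

set_option autoImplicit false
set_option linter.unusedSectionVars false

open scoped Manifold ContDiff Topology
open Set Metric Filter

namespace Pool.Agent.V5helper18.Nf

open Pool.Agent.H721R2 Pool.Agent.H789R2.AN Pool.Agent.V5helper18.Mb

theorem HE.symm {E M N : Type*} [NormedAddCommGroup E] {π : E → M} {ρ : E → N} {k l : E → E}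
    (h : HE π ρ k l) : HE ρ π l k where
  ck := h.cl
  cl := h.ck
  dk := h.dl
  dl := h.dk
  lk := h.kl
  kl := h.lk

variable {E : Type*} [NormedAddCommGroup E] [NormedSpace ℝ E] [FiniteDimensional ℝ E]
  {M : Type*} [TopologicalSpace M] [T2Space M] [CompactSpace M] [ConnectedSpace M]
  [ChartedSpace E M] [IsManifold 𝓘(ℝ, E) ∞ M] {π : E → M}
  {N : Type*} [TopologicalSpace N] [T2Space N] [CompactSpace N] [ConnectedSpace N]
  [ChartedSpace E N] [IsManifold 𝓘(ℝ, E) ∞ N] {ρ : E → N}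

theorem core2 (hπ : IsCoveringMap π) (hd : IsLocalDiffeomorph 𝓘(ℝ, E) 𝓘(ℝ, E) 1 π)
    (hρ : IsCoveringMap ρ) (hd' : IsLocalDiffeomorph 𝓘(ℝ, E) 𝓘(ℝ, E) 1 ρ)
    (f : Diffeomorph 𝓘(ℝ, E) 𝓘(ℝ, E) M M 1) (g : Diffeomorph 𝓘(ℝ, E) 𝓘(ℝ, E) N N 1)
    (Es Eu : ∀ x : M, Submodule ℝ (TangentSpace 𝓘(ℝ, E) x)) (hf : IsAnosov f Es Eu)
    (Es' Eu' : ∀ x : N, Submodule ℝ (TangentSpace 𝓘(ℝ, E) x)) (hg : IsAnosov g Es' Eu')
    (hNF : UniqueFixedLifts ρ g) {k l : E → E} (hkl : HE π ρ k l)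
    {h : M → N} (hh : ∀ x, h (f x) = g (h x)) {H : E → E} (hH : Continuous H)
    (hHπ : ∀ x, ρ (H x) = h (π x))
    (hHtw : ∀ γ ∈ Deck π, ∀ γ' ∈ Deck ρ, (∀ x, k (γ x) = γ' (k x)) → ∀ x, H (γ x) = γ' (H x))
    (hom : ∀ n : ℕ, 1 ≤ n → ∀ F G : E → E, Continuous F → Continuous G →
      (∀ x, π (F x) = f^[n] (π x)) → (∀ x, ρ (G x) = g^[n] (ρ x)) →
      (∀ x, H (F x) = G (H x)) → ∃ L : ℝ × E → E, Continuous L ∧ (∀ x, L (0, x) = G (k x)) ∧
        (∀ x, L (1, x) = k (F x)) ∧ ∀ γ ∈ Deck π, ∀ t x, ρ (L (t, γ x)) = ρ (L (t, x))) :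
    (∀ p p' (n : ℕ), 1 ≤ n → f^[n] p = p → f^[n] p' = p' → h p = h p' → p = p') ∧
    (∀ q (n : ℕ), 1 ≤ n → g^[n] q = q → ∃ p, f^[n] p = p ∧ h p = q) := by
  have hit : ∀ (n : ℕ) x, h (f^[n] x) = g^[n] (h x) := by
    intro n x
    exact (Function.Semiconj.iterate_right (f := h) (ga := f) (gb := g) hh n) x
  have huniq : ∀ n : ℕ, 1 ≤ n → ∀ F G : E → E, Continuous F → Continuous G →
      (∀ x, π (F x) = f^[n] (π x)) → (∀ x, ρ (G x) = g^[n] (ρ x)) →
      (∀ x, H (F x) = G (H x)) → ∀ q, G q = q → ∃ p, F p = p ∧ ∀ x, F x = x → x = p := by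
    intro n hn F G hF hG hFl hGl hHF q hq
    obtain ⟨L, hL, hL0, hL1, hLe⟩ := hom n hn F G hF hG hFl hGl hHF
    have hqu : ∀ x, G x = x → x = q := fun x hx => hNF n hn G hG hGl x q hx hq
    obtain ⟨Q, hQ, hQ0, hQ1, hQe⟩ := hkl.lk
    obtain ⟨R, hR, hR0, hR1, hRe⟩ := hkl.kl
    have dF : ∀ γ ∈ Deck π, ∀ x, π (F (γ x)) = π (F x) := fun γ hγ x => by
      rw [hFl, hFl, hγ x]
    have dG : ∀ γ ∈ Deck ρ, ∀ x, ρ (G (γ x)) = ρ (G x) := fun γ hγ x => by
      rw [hGl, hGl, hγ x]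
    have m1 : Hmt π F (fun x => l (k (F x))) := by
      refine ⟨fun p => Q (1 - p.1, F p.2), hQ.comp (by fun_prop), fun x => ?_, fun x => ?_,
        fun γ hγ t x => ?_⟩
      · show Q (1 - 0, F x) = l (k (F x))
        rw [sub_zero, hQ1]; rfl
      · show Q (1 - 1, F x) = F x
        rw [sub_self, hQ0]; rfl
      · obtain ⟨γ', hγ', h3⟩ := desc_tw hπ hF dF hγ
        show π (Q (1 - t, F (γ x))) = π (Q (1 - t, F x))
        rw [h3, hQe γ' hγ']
    have m2 : Hmt π (fun x => l (k (F x))) (l ∘ fun x => G (k x)) := by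
      refine ⟨fun p => l (L p), hkl.cl.comp hL, fun x => by simp only [hL0]; rfl,
        fun x => by simp only [hL1], fun γ hγ t x => ?_⟩
      obtain ⟨γ', hγ', h3⟩ := exists_deck_lift hρ (A := ℝ × E) hL
        (hL.comp (continuous_fst.prodMk (γ.continuous.comp continuous_snd)))
        (fun a => (hLe γ hγ a.1 a.2).symm)
      have h4 : L (t, γ x) = γ' (L (t, x)) := (h3 (t, x)).symm
      show π (l (L (t, γ x))) = π (l (L (t, x)))
      rw [h4, hkl.dl γ' hγ']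
    have n1 : Hmt ρ ((fun x => G (k x)) ∘ l) G := by
      refine ⟨fun p => G (R p), hG.comp hR, fun x => by simp only [hR0]; rfl,
        fun x => by simp only [hR1]; rfl, fun γ hγ t x => ?_⟩
      show ρ (G (R (t, γ x))) = ρ (G (R (t, x)))
      rw [hGl, hGl, hRe γ hγ]
    refine fixed_unique2 hπ hd hρ hd' f g Es Eu hf Es' Eu' hg hn hF hG hFl hGl hkl.cl
      (hG.comp hkl.ck) (m1.trans m2) n1 ?_ hq hqu
    intro β hβ hβc
    obtain ⟨β', hβ', e1⟩ := hkl.tw hρ hβ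
    obtain ⟨β'', hβ'', e2⟩ := desc_tw hρ hG dG hβ'
    obtain ⟨β₃, hβ₃, e3⟩ := desc_tw hπ hkl.cl hkl.dl hβ''
    obtain ⟨β₄, hβ₄, e4⟩ := desc_tw hπ hkl.cl hkl.dl hβ'
    have e5 : β₃ = β := by
      have := hβc 0
      simp only [Function.comp_apply] at this
      rw [e1, e2, e3] at this
      exact deck_unique hπ hβ₃ hβ this
    have e6 : β₄ = β := by
      have := comm_of_hmt hπ hkl.lk β hβ 0
      simp only [Function.comp_apply] at this
      rw [e1, e4] at this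
      exact deck_unique hπ hβ₄ hβ this
    have e7 : β' = β'' := hkl.symm.tw_inj hρ hβ' hβ'' (γ' := β)
      (by rw [← e6]; exact e4) (by rw [← e5]; exact e3)
    have e8 : β' q = q := by
      apply hqu
      rw [e2, ← e7, hq]
    have e9 : β' = 1 := deck_unique hρ hβ' (one_mem _) (x := q) (by rw [e8]; rfl)
    exact hkl.tw_inj hπ hβ (one_mem _) (γ' := β') e1 (fun x => by rw [e9]; rfl)
  have hfc : ∀ n : ℕ, Continuous (f^[n]) := fun n => f.continuous.iterate n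
  have hgc : ∀ n : ℕ, Continuous (g^[n]) := fun n => g.continuous.iterate n
  have hlift : ∀ (φ : M → M), Continuous φ → ∀ a b : E, π b = φ (π a) →
      ∃ Φ : E → E, Continuous Φ ∧ (∀ x, π (Φ x) = φ (π x)) ∧ Φ a = b := by
    intro φ hφ a b hab
    exact exists_lift hπ (hφ.comp hπ.continuous) hab
  have hlift' : ∀ (φ : N → N), Continuous φ → ∀ a b : E, ρ b = φ (ρ a) →
      ∃ Φ : E → E, Continuous Φ ∧ (∀ x, ρ (Φ x) = φ (ρ x)) ∧ Φ a = b := by
    intro φ hφ a b hab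
    exact exists_lift hρ (hφ.comp hρ.continuous) hab
  constructor
  · intro p p' n hn hp hp' hpp
    obtain ⟨a, rfl⟩ := surj hπ p
    obtain ⟨b', rfl⟩ := surj hπ p'
    obtain ⟨γ', hγ', hγb⟩ := exists_deck hρ (x := H b') (y := H a) (by rw [hHπ, hHπ, hpp])
    obtain ⟨γ, hγ, hγk⟩ := hkl.tw_surj hπ hρ hγ'
    set b := γ b' with hb
    have hbπ : π b = π b' := hγ b'
    have hHb : H b = H a := by rw [hb, hHtw γ hγ γ' hγ' hγk, hγb]
    rw [← hbπ] at hp' ⊢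
    obtain ⟨F, hF, hFl, hFa⟩ := hlift _ (hfc n) a a hp.symm
    obtain ⟨F', hF', hFl', hFb⟩ := hlift _ (hfc n) b b hp'.symm
    obtain ⟨G, hG, hGl, hGa⟩ := hlift' _ (hgc n) (H a) (H a) (by
      rw [hHπ, ← hit, hp])
    have e1 : ∀ x, H (F x) = G (H x) := by
      have := lift_unique hρ (hH.comp hF) (hG.comp hH) (fun x => by
        simp only [Function.comp_apply]
        rw [hHπ, hFl, hit, hGl, hHπ]) a (by simp only [Function.comp_apply, hFa, hGa])
      exact fun x => congrFun this x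
    have e2 : ∀ x, H (F' x) = G (H x) := by
      have := lift_unique hρ (hH.comp hF') (hG.comp hH) (fun x => by
        simp only [Function.comp_apply]
        rw [hHπ, hFl', hit, hGl, hHπ]) b (by simp only [Function.comp_apply, hFb, hHb, hGa])
      exact fun x => congrFun this x
    obtain ⟨δ, hδ, hδF⟩ := exists_deck_lift hπ hF hF' (fun x => by rw [hFl, hFl'])
    obtain ⟨δ', hδ', hδk⟩ := hkl.tw hρ hδ
    have e3 : δ' = 1 := by
      apply deck_unique hρ hδ' (one_mem _) (x := H (F a))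
      rw [← hHtw δ hδ δ' hδ' hδk, hδF, e2, ← e1]
      rfl
    have e3' : δ = 1 := hkl.tw_inj hπ hδ (one_mem _) (γ' := δ') hδk (fun x => by rw [e3]; rfl)
    have e4 : F b = b := by
      have := hδF b
      rw [e3', hFb] at this
      exact this
    obtain ⟨p₀, -, hu⟩ := huniq n hn F G hF hG hFl hGl e1 (H a) hGa
    rw [hu a hFa, hu b e4]
  · intro q n hn hq
    obtain ⟨a, rfl⟩ := surj hρ q
    obtain ⟨G, hG, hGl, hGa⟩ := hlift' _ (hgc n) a a hq.symm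
    obtain ⟨y, hy⟩ := surj hπ (f^[n] (π 0))
    obtain ⟨F₀, hF₀, hFl₀, -⟩ := hlift _ (hfc n) 0 y hy
    obtain ⟨δ', hδ', hδF⟩ := exists_deck_lift hρ (Φ := fun x => H (F₀ x)) (Ψ := fun x => G (H x))
      (hH.comp hF₀) (hG.comp hH) (fun x => by rw [hHπ, hFl₀, hit, hGl, hHπ])
    obtain ⟨δ, hδ, hδk⟩ := hkl.tw_surj hπ hρ hδ'
    have e1 : ∀ x, H (δ (F₀ x)) = G (H x) := fun x => by rw [hHtw δ hδ δ' hδ' hδk, hδF]
    obtain ⟨p, hp, -⟩ := huniq n hn (fun x => δ (F₀ x)) G (δ.continuous.comp hF₀) hG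
      (fun x => by rw [hδ, hFl₀]) hGl e1 a hGa
    refine ⟨π p, ?_, ?_⟩
    · rw [← hFl₀, ← hδ (F₀ p), hp]
    · rw [← hHπ]
      congr 1
      apply hNF n hn G hG hGl _ _ _ hGa
      rw [← e1, hp]

end Pool.Agent.V5helper18.Nf
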