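import Pool.Agent.V5helper18.Nf.O
import Pool.Agent.V5helper18.Nf.J

/-!
# Homotopy equivalences that are semiconjugacies
-/

set_option autoImplicit false
set_option linter.unusedSectionVars false

open scoped Manifold ContDiff Topology
open Set Metric Filter

namespace Pool.Agent.V5helper18.Nf

open Pool.Agent.H721R2 Pool.Agent.H789R2.AN Pool.Agent.V5helper18.Mb Pool.Agent.V5helper18.Ma
open Pool.Agent.Y331.EP Pool.Agent.TH289 Pool.Agent.TH289.K Pool.Agent.TH289.L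

variable {E : Type*} [NormedAddCommGroup E] [NormedSpace ℝ E] [FiniteDimensional ℝ E]
  {M : Type*} [TopologicalSpace M] [T2Space M] [CompactSpace M] [ConnectedSpace M]
  [ChartedSpace E M] [IsManifold 𝓘(ℝ, E) ∞ M] {π : E → M}
  {N : Type*} [TopologicalSpace N] [T2Space N] [CompactSpace N] [ConnectedSpace N]
  [ChartedSpace E N] [IsManifold 𝓘(ℝ, E) ∞ N] {ρ : E → N}

theorem concl2 (f : Diffeomorph 𝓘(ℝ, E) 𝓘(ℝ, E) M M 1) (g : Diffeomorph 𝓘(ℝ, E) 𝓘(ℝ, E) N N 1)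
    (Es Eu : ∀ x : M, Submodule ℝ (TangentSpace 𝓘(ℝ, E) x)) (hf : IsAnosov f Es Eu)
    (Es' Eu' : ∀ x : N, Submodule ℝ (TangentSpace 𝓘(ℝ, E) x)) (hg : IsAnosov g Es' Eu')
    {h : M → N} (hc : Continuous h) (hh : ∀ x, h (f x) = g (h x))
    (hinj : ∀ p p' (n : ℕ), 1 ≤ n → f^[n] p = p → f^[n] p' = p' → h p = h p' → p = p')
    (hper : ∀ q (n : ℕ), 1 ≤ n → g^[n] q = q → ∃ p, f^[n] p = p ∧ h p = q) :
    (∀ n ≥ 1, BijOn h {p | f^[n] p = p} {q | g^[n] q = q}) ∧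
    (∀ x ∈ closure {p | ∃ n ≥ 1, f^[n] p = p}, ∀ x', h x' = h x → x' = x) ∧
    h '' closure {p | ∃ n ≥ 1, f^[n] p = p} = closure {q | ∃ n ≥ 1, g^[n] q = q} ∧
    (TopTransitive g → TopTransitive f ∧ Function.Bijective h) := by
  obtain ⟨m, e, hee, hemb, hinje⟩ :=
    exists_embedding_euclidean_of_compact (I := 𝓘(ℝ, E)) (M := M)
  let _ : MetricSpace M := hemb.isEmbedding.comapMetricSpace e
  obtain ⟨m', e', hee', hemb', hinje'⟩ :=
    exists_embedding_euclidean_of_compact (I := 𝓘(ℝ, E)) (M := N)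
  let _ : MetricSpace N := hemb'.isEmbedding.comapMetricSpace e'
  obtain ⟨eg, hG⟩ := ex_of_expansive (expansive_of_anosov g Es' Eu' hg)
  have hSg := man_shad g Es' Eu' hg
  obtain ⟨ef, hF⟩ := ex_of_expansive (expansive_of_anosov f Es Eu hf)
  have hSf := man_shad f Es Eu hf
  have hit : ∀ (n : ℕ) x, h (f^[n] x) = g^[n] (h x) := fun n x =>
    (Function.Semiconj.iterate_right (f := h) (ga := f) (gb := g) hh n) x
  have hmaps : ∀ n : ℕ, ∀ p, f^[n] p = p → g^[n] (h p) = h p := fun n p hp => by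
    rw [← hit, hp]
  refine ⟨fun n hn => ⟨fun p hp => hmaps n p hp, fun p hp p' hp' hpp =>
      hinj p p' n hn hp hp' hpp, fun q hq => ?_⟩, fun x hx x' hxx => ?_, ?_, fun hT => ?_⟩
  · obtain ⟨p, hp, hpq⟩ := hper q n hn hq
    exact ⟨p, hp, hpq⟩
  · exact (Dy.fib_rec (f := f.toHomeomorph) (g := g.toHomeomorph) hF hSf hG hc hh hinj hx
      hxx.symm).symm
  · apply Subset.antisymm
    · refine (image_closure_subset_closure_image hc).trans (closure_mono ?_)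
      rintro _ ⟨p, ⟨n, hn, hp⟩, rfl⟩
      exact ⟨n, hn, hmaps n p hp⟩
    · apply closure_minimal
      · rintro q ⟨n, hn, hq⟩
        obtain ⟨p, hp, hpq⟩ := hper q n hn hq
        exact ⟨p, subset_closure ⟨n, hn, hp⟩, hpq⟩
      · exact (isClosed_closure.isCompact.image hc).isClosed
  · exact Dy.abs_main (f := f.toHomeomorph) (g := g.toHomeomorph) hF hSf hG hSg
      (show Dy.TT g.toHomeomorph from hT) hc hh hinj hper

theorem tt_of_surj2 {X Y : Type*} [TopologicalSpace X] [TopologicalSpace Y] {f : X → X}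
    {g : Y → Y} {h : X → Y} (hc : Continuous h) (hs : Function.Surjective h)
    (hh : ∀ x, h (f x) = g (h x)) (hT : TopTransitive f) : TopTransitive g := by
  intro U V hU hUn hV hVn
  obtain ⟨n, y, ⟨x, hx, hxy⟩, hy⟩ := hT (h ⁻¹' U) (h ⁻¹' V) (hU.preimage hc)
    (hUn.preimage hs) (hV.preimage hc) (hVn.preimage hs)
  refine ⟨n, h y, ⟨h x, hx, ?_⟩, hy⟩
  rw [← hxy]
  exact ((Function.Semiconj.iterate_right (f := h) (ga := f) (gb := g) hh n) x).symm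

/-- **Homotopy equivalences that are semiconjugacies.** -/
theorem main1' (hπ : IsCoveringMap π) (hd : IsLocalDiffeomorph 𝓘(ℝ, E) 𝓘(ℝ, E) 1 π)
    (hρ : IsCoveringMap ρ) (hd' : IsLocalDiffeomorph 𝓘(ℝ, E) 𝓘(ℝ, E) 1 ρ)
    (f : Diffeomorph 𝓘(ℝ, E) 𝓘(ℝ, E) M M 1) (g : Diffeomorph 𝓘(ℝ, E) 𝓘(ℝ, E) N N 1)
    (Es Eu : ∀ x : M, Submodule ℝ (TangentSpace 𝓘(ℝ, E) x)) (hf : IsAnosov f Es Eu)
    (Es' Eu' : ∀ x : N, Submodule ℝ (TangentSpace 𝓘(ℝ, E) x)) (hg : IsAnosov g Es' Eu')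
    (hNF : UniqueFixedLifts ρ g) (h : ContinuousMap.HomotopyEquiv M N)
    (hh : ∀ x, h (f x) = g (h x)) :
    (∀ n ≥ 1, BijOn h {p | f^[n] p = p} {q | g^[n] q = q}) ∧
    (∀ x ∈ closure {p | ∃ n ≥ 1, f^[n] p = p}, ∀ x', h x' = h x → x' = x) ∧
    h '' closure {p | ∃ n ≥ 1, f^[n] p = p} = closure {q | ∃ n ≥ 1, g^[n] q = q} ∧
    (TopTransitive f ↔ TopTransitive g) ∧ (TopTransitive g → Function.Bijective h) := by
  obtain ⟨k, l, hkl, hk⟩ := exists_HE hπ hρ h.toFun h.invFun h.left_inv h.right_inv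
  have hhc : Continuous h := h.toFun.continuous
  obtain ⟨hinj, hper⟩ := core2 hπ hd hρ hd' f g Es Eu hf Es' Eu' hg hNF hkl hh hkl.ck hk
    (fun γ _ γ' _ h => h) (fun n hn F G hF hG hFl hGl hHF =>
      ⟨fun p => G (k p.2), hG.comp (hkl.ck.comp continuous_snd), fun x => rfl,
        fun x => (hHF x).symm, fun γ hγ t x => by
          show ρ (G (k (γ x))) = ρ (G (k x))
          rw [hGl, hGl, hkl.dk γ hγ]⟩)
  have hsurj : Function.Surjective h := by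
    intro y
    obtain ⟨w, rfl⟩ := surj hρ y
    obtain ⟨R, hR, hR0, hR1, hRe⟩ := hkl.kl
    obtain ⟨x, hx⟩ := surj_of_homotopy hρ hR hR0 (fun γ hγ t x => by
      obtain ⟨γ', hγ', h1⟩ := hmt_equi hρ hR hRe γ hγ
      have h2 := h1 0 x
      rw [hR0, hR0] at h2
      have h3 : γ = γ' := deck_unique hρ hγ hγ' (x := x) h2
      rw [h1, h3]) w
    rw [hR1] at hx
    refine ⟨π (l x), ?_⟩
    rw [← hx]
    exact (hk (l x)).symm
  obtain ⟨c1, c2, c3, c4⟩ := concl2 f g Es Eu hf Es' Eu' hg hhc hh hinj hper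
  exact ⟨c1, c2, c3, ⟨fun hT => tt_of_surj2 hhc hsurj hh hT, fun hT => (c4 hT).1⟩,
    fun hT => (c4 hT).2⟩

end Pool.Agent.V5helper18.Nf
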