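import Pool.Agent.V5helper18.Nf.Q

/-!
# Coarsely hyperbolic Anosov diffeomorphisms and homotopy conjugacies
-/

set_option autoImplicit false
set_option linter.unusedSectionVars false

open scoped Manifold ContDiff Topology
open Set Metric Filter

namespace Pool.Agent.V5helper18.Nf

open Pool.Agent.H721R2 Pool.Agent.H789R2.AN Pool.Agent.V5helper18.Mb Pool.Agent.V5helper18.Ma
open Pool.Agent.Y331.EP Pool.Agent.TH289 Pool.Agent.TH289.K Pool.Agent.TH289.L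

section hmt2

variable {E : Type*} [NormedAddCommGroup E] [NormedSpace ℝ E] {M N : Type*} [TopologicalSpace M]
  [TopologicalSpace N] {π : E → M} {ρ : E → N}

/-- `F` and `G` are joined by a homotopy of lifts of maps from `M` to `N` -/
def Hmt2 (π : E → M) (ρ : E → N) (F G : E → E) : Prop :=
  ∃ K : ℝ × E → E, Continuous K ∧ (∀ x, K (0, x) = G x) ∧ (∀ x, K (1, x) = F x) ∧
    ∀ γ ∈ Deck π, ∀ t x, ρ (K (t, γ x)) = ρ (K (t, x))

theorem hmt2_equi (hρ : IsCoveringMap ρ) {K : ℝ × E → E} (hK : Continuous K)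
    (h : ∀ γ ∈ Deck π, ∀ t x, ρ (K (t, γ x)) = ρ (K (t, x))) :
    ∀ γ ∈ Deck π, ∃ γ' ∈ Deck ρ, ∀ t x, K (t, γ x) = γ' (K (t, x)) := by
  intro γ hγ
  obtain ⟨γ', h1, h2⟩ := exists_deck_lift hρ (A := ℝ × E) hK
    (hK.comp (continuous_fst.prodMk (γ.continuous.comp continuous_snd)))
    (fun a => (h γ hγ a.1 a.2).symm)
  exact ⟨γ', h1, fun t x => (h2 (t, x)).symm⟩

theorem Hmt2.trans {F N' G : E → E} (h1 : Hmt2 π ρ F N') (h2 : Hmt2 π ρ N' G) :
    Hmt2 π ρ F G := by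
  obtain ⟨K, hK, hK0, hK1, hKe⟩ := h1
  obtain ⟨L, hL, hL0, hL1, hLe⟩ := h2
  refine ⟨fun p => if p.1 ≤ 1 / 2 then L (2 * p.1, p.2) else K (2 * p.1 - 1, p.2), ?_, ?_, ?_, ?_⟩
  · apply Continuous.if_le (hL.comp (by fun_prop)) (hK.comp (by fun_prop)) continuous_fst
      continuous_const
    intro p hp
    have e1 : 2 * p.1 = 1 := by rw [hp]; norm_num
    rw [Function.comp_apply, Function.comp_apply, e1, hL1, sub_self, hK0]
  · intro x
    have : (0 : ℝ) ≤ 1 / 2 := by norm_num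
    simp only [this, if_true, mul_zero, hL0]
  · intro x
    have : ¬ (1 : ℝ) ≤ 1 / 2 := by norm_num
    simp only [this, if_false]
    rw [← hK1]
    norm_num
  · intro γ hγ t x
    by_cases h : t ≤ 1 / 2
    · simp only [h, if_true, hLe γ hγ]
    · simp only [h, if_false, hKe γ hγ]

end hmt2

section semi

variable {E : Type*} [NormedAddCommGroup E] [NormedSpace ℝ E] [FiniteDimensional ℝ E]
  {M : Type*} [TopologicalSpace M] [T2Space M] {π : E → M}
  {N : Type*} [TopologicalSpace N] [T2Space N] {ρ : E → N}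

theorem conj_tw (hρ : IsCoveringMap ρ) {f : M ≃ₜ M} {g : N ≃ₜ N} {F G : E ≃ₜ E}
    (hF : ∀ x, π (F x) = f (π x)) (hG : ∀ x, ρ (G x) = g (ρ x)) {k : E → E} (hk : Continuous k)
    (dk : ∀ γ ∈ Deck π, ∀ x, ρ (k (γ x)) = ρ (k x))
    (hFG : ∀ γ ∈ Deck π, ∀ γ' ∈ Deck ρ, (∀ x, k (γ x) = γ' (k x)) →
      ∀ x, k ((F * γ * F⁻¹) x) = (G * γ' * G⁻¹) (k x)) {γ γ' : E ≃ₜ E} (hγ : γ ∈ Deck π)
    (hγ' : γ' ∈ Deck ρ) (h : ∀ x, k (γ x) = γ' (k x)) (n : ℤ) :
    ∀ x, k ((F ^ n * γ * (F ^ n)⁻¹) x) = (G ^ n * γ' * (G ^ n)⁻¹) (k x) := by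
  have hFG' : ∀ γ ∈ Deck π, ∀ γ' ∈ Deck ρ, (∀ x, k (γ x) = γ' (k x)) →
      ∀ x, k ((F⁻¹ * γ * F) x) = (G⁻¹ * γ' * G) (k x) := by
    intro γ hγ γ' hγ' h
    have h1 : F⁻¹ * γ * F ∈ Deck π := by
      have := conj_mem hF hγ (-1)
      simpa using this
    obtain ⟨δ, hδ, h2⟩ := desc_tw hρ hk dk h1
    have h3 := hFG _ h1 δ hδ h2
    have h4 : F * (F⁻¹ * γ * F) * F⁻¹ = γ := by group
    rw [h4] at h3
    have h5 : G * δ * G⁻¹ ∈ Deck ρ := by
      have := conj_mem hG hδ 1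
      simpa using this
    have h6 : G * δ * G⁻¹ = γ' := deck_unique hρ h5 hγ' (x := k 0) (by rw [← h3, h])
    have h7 : δ = G⁻¹ * γ' * G := by rw [← h6]; group
    rw [← h7]
    exact h2
  induction n using Int.induction_on with
  | zero => simpa using h
  | succ n ih =>
    have h1 : F ^ ((n : ℤ) + 1) * γ * (F ^ ((n : ℤ) + 1))⁻¹ =
        F * (F ^ (n : ℤ) * γ * (F ^ (n : ℤ))⁻¹) * F⁻¹ := by group
    have h2 : G ^ ((n : ℤ) + 1) * γ' * (G ^ ((n : ℤ) + 1))⁻¹ =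
        G * (G ^ (n : ℤ) * γ' * (G ^ (n : ℤ))⁻¹) * G⁻¹ := by group
    rw [h1, h2]
    exact hFG _ (conj_mem hF hγ n) _ (conj_mem hG hγ' n) ih
  | pred n ih =>
    have h1 : F ^ (-(n : ℤ) - 1) * γ * (F ^ (-(n : ℤ) - 1))⁻¹ =
        F⁻¹ * (F ^ (-(n : ℤ)) * γ * (F ^ (-(n : ℤ)))⁻¹) * F := by group
    have h2 : G ^ (-(n : ℤ) - 1) * γ' * (G ^ (-(n : ℤ) - 1))⁻¹ =
        G⁻¹ * (G ^ (-(n : ℤ)) * γ' * (G ^ (-(n : ℤ)))⁻¹) * G := by group
    rw [h1, h2]
    exact hFG' _ (conj_mem hF hγ (-n)) _ (conj_mem hG hγ' (-n)) ih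

/-- **The semiconjugacy, two manifolds.** -/
theorem exists_semi2 (hρ : IsCoveringMap ρ) {f : M ≃ₜ M} {g : N ≃ₜ N}
    {F G : E ≃ₜ E} (hF : ∀ x, π (F x) = f (π x)) (hG : ∀ x, ρ (G x) = g (ρ x)) {k : E → E}
    (hk : Continuous k) (dk : ∀ γ ∈ Deck π, ∀ x, ρ (k (γ x)) = ρ (k x))
    (hFG : ∀ γ ∈ Deck π, ∀ γ' ∈ Deck ρ, (∀ x, k (γ x) = γ' (k x)) →
      ∀ x, k ((F * γ * F⁻¹) x) = (G * γ' * G⁻¹) (k x)) {R₀ : ℝ}
    (hn : ∀ x, Near ρ R₀ (G (k x)) (k (F x))) (hc : CoarselyHyperbolic ρ G) :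
    ∃ H : E → E, Continuous H ∧ (∀ γ ∈ Deck π, ∀ γ' ∈ Deck ρ, (∀ x, k (γ x) = γ' (k x)) →
      ∀ x, H (γ x) = γ' (H x)) ∧ ∀ x, H (F x) = G (H x) := by
  obtain ⟨S, hS⟩ := hc.shadowing R₀
  have h1 : ∀ x, ∃ y, ∀ n : ℤ, Near ρ S (k ((F ^ n) x)) ((G ^ n) y) := by
    intro x
    refine hS (fun n => k ((F ^ n) x)) fun n => ?_
    have : (F ^ (n + 1)) x = F ((F ^ n) x) := by
      rw [add_comm, zpow_one_add]; rfl
    rw [this]
    exact hn _
  choose H hH using h1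
  obtain ⟨T, hT⟩ := near_trans hρ S
  have huniq : ∀ x y y', (∀ n : ℤ, Near ρ S (k ((F ^ n) x)) ((G ^ n) y)) →
      (∀ n : ℤ, Near ρ S (k ((F ^ n) x)) ((G ^ n) y')) → y = y' := by
    intro x y y' h h'
    exact hc.expansive y y' T fun n => hT _ _ _ (h n) (h' n)
  refine ⟨H, ?_, ?_, ?_⟩
  · rw [continuous_iff_seqContinuous]
    intro x x₀ hx
    obtain ⟨R, hR⟩ := (isBounded_range_of_tendsto _
      ((hk.tendsto x₀).comp hx)).exists_norm_le
    obtain ⟨T', hT'⟩ := near_bound hρ R S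
    have hb : ∀ n, ‖H (x n)‖ ≤ T' := fun n => by
      apply hT' (k (x n)) _ (hR _ (mem_range_self n))
      have := hH (x n) 0
      simpa using this
    refine tendsto_of_subseq_tendsto fun ns hns => ?_
    obtain ⟨a, -, φ, hφ, hlim⟩ := (isCompact_closedBall (0 : E) T').tendsto_subseq
      (x := fun n => H (x (ns n))) (fun n => by
        rw [mem_closedBall_zero_iff]; exact hb _)
    refine ⟨φ, ?_⟩
    have hx' : Tendsto (fun n => x (ns (φ n))) atTop (𝓝 x₀) :=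
      hx.comp (hns.comp hφ.tendsto_atTop)
    have e1 : a = H x₀ := by
      refine huniq x₀ _ _ (fun n => ?_) (hH x₀)
      exact near_closed hρ (((hk.comp (F ^ n).continuous).tendsto x₀).comp hx')
        (((G ^ n).continuous.tendsto a).comp hlim) (fun j => hH _ n)
    rw [← e1]
    exact hlim
  · intro γ hγ γ' hγ' hkγ x
    refine huniq (γ x) _ _ (hH (γ x)) fun n => ?_
    have e1 : (F ^ n) (γ x) = (F ^ n * γ * (F ^ n)⁻¹) ((F ^ n) x) := by
      show _ = (F ^ n) (γ ((F ^ n).symm ((F ^ n) x)))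
      rw [Homeomorph.symm_apply_apply]
    have e2 : (G ^ n) (γ' (H x)) = (G ^ n * γ' * (G ^ n)⁻¹) ((G ^ n) (H x)) := by
      show _ = (G ^ n) (γ' ((G ^ n).symm ((G ^ n) (H x))))
      rw [Homeomorph.symm_apply_apply]
    rw [e1, e2, conj_tw hρ hF hG hk dk hFG hγ hγ' hkγ n]
    exact (hH x n).deck (conj_mem hG hγ' n)
  · intro x
    refine huniq (F x) _ _ (hH (F x)) fun n => ?_
    have := hH x (n + 1)
    rw [zpow_add_one, zpow_add_one] at this
    exact this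

end semi

section main

variable {E : Type*} [NormedAddCommGroup E] [NormedSpace ℝ E] [FiniteDimensional ℝ E]
  {M : Type*} [TopologicalSpace M] [T2Space M] [CompactSpace M] [ConnectedSpace M]
  [ChartedSpace E M] [IsManifold 𝓘(ℝ, E) ∞ M] {π : E → M}
  {N : Type*} [TopologicalSpace N] [T2Space N] [CompactSpace N] [ConnectedSpace N]
  [ChartedSpace E N] [IsManifold 𝓘(ℝ, E) ∞ N] {ρ : E → N}

/-- **Main theorem, second part, two manifolds.** -/
theorem main2' (hπ : IsCoveringMap π) (hd : IsLocalDiffeomorph 𝓘(ℝ, E) 𝓘(ℝ, E) 1 π)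
    (hρ : IsCoveringMap ρ) (hd' : IsLocalDiffeomorph 𝓘(ℝ, E) 𝓘(ℝ, E) 1 ρ)
    (g : Diffeomorph 𝓘(ℝ, E) 𝓘(ℝ, E) N N 1)
    (Es' Eu' : ∀ x : N, Submodule ℝ (TangentSpace 𝓘(ℝ, E) x)) (hg : IsAnosov g Es' Eu')
    {G : E ≃ₜ E} (hG : ∀ x, ρ (G x) = g (ρ x)) (hc : CoarselyHyperbolic ρ G)
    (f : Diffeomorph 𝓘(ℝ, E) 𝓘(ℝ, E) M M 1)
    (Es Eu : ∀ x : M, Submodule ℝ (TangentSpace 𝓘(ℝ, E) x)) (hf : IsAnosov f Es Eu)
    (k₀ : ContinuousMap.HomotopyEquiv M N)
    (hfg : (k₀.toFun.comp (⟨f, f.continuous⟩ : C(M, M))).Homotopic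
      ((⟨g, g.continuous⟩ : C(N, N)).comp k₀.toFun)) :
    TopTransitive f ∧ ∃ h : M ≃ₜ N, ∀ x, h (f x) = g (h x) := by
  have hNF : UniqueFixedLifts ρ g := nf_of_coarse hρ (g := g.toHomeomorph) hG hc
  have hT := tt_of_coarse hρ g Es' Eu' hg hG hc
  obtain ⟨k, l, hkl, hk⟩ := exists_HE hπ hρ k₀.toFun k₀.invFun k₀.left_inv k₀.right_inv
  -- lift of the homotopy
  obtain ⟨Q⟩ := hfg.symm
  let c : ℝ × E → N := fun p => Q (projIcc 0 1 zero_le_one p.1, π p.2)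
  have hcc : Continuous c := by
    apply Q.continuous.comp
    exact (continuous_projIcc.comp continuous_fst).prodMk (hπ.continuous.comp continuous_snd)
  have hc0 : ∀ x, c (0, x) = g (k₀.toFun (π x)) := fun x => by
    show Q (projIcc 0 1 zero_le_one 0, π x) = g (k₀.toFun (π x))
    rw [projIcc_left]
    exact Q.apply_zero (π x)
  have hc1 : ∀ x, c (1, x) = k₀.toFun (f (π x)) := fun x => by
    show Q (projIcc 0 1 zero_le_one 1, π x) = k₀.toFun (f (π x))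
    rw [projIcc_right]
    exact Q.apply_one (π x)
  have hcγ : ∀ γ ∈ Deck π, ∀ t x, c (t, γ x) = c (t, x) := fun γ hγ t x => by
    show Q (_, π (γ x)) = Q (_, π x)
    rw [hγ x]
  obtain ⟨L, hL, hLl, hL0'⟩ := exists_lift hρ hcc (a := (0, 0)) (e := G (k 0)) (by
    rw [hG, hk, hc0])
  have hL0 : ∀ x, L (0, x) = G (k x) := by
    have := lift_unique hρ (Φ := fun x => L (0, x)) (Ψ := fun x => G (k x))
      (hL.comp (by fun_prop)) (G.continuous.comp hkl.ck) (fun x => by rw [hLl, hc0, hG, hk]) 0 hL0'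
    exact fun x => congrFun this x
  obtain ⟨y, hy⟩ := surj hπ (f (π 0))
  obtain ⟨F₁, hF₁, hF₁l, -⟩ := exists_lift hπ (f.continuous.comp hπ.continuous) (a := (0 : E)) hy
  simp only [Function.comp_apply] at hF₁l
  obtain ⟨δ', hδ', hδ1⟩ := exists_deck_lift hρ (Φ := fun x => k (F₁ x)) (Ψ := fun x => L (1, x))
    (hkl.ck.comp hF₁) (hL.comp (by fun_prop)) (fun x => by rw [hk, hF₁l, hLl, hc1])
  obtain ⟨δ, hδ, hδk⟩ := hkl.tw_surj hπ hρ hδ'
  obtain ⟨F, hF⟩ := lift_homeo hπ f.toHomeomorph (Φ := fun x => δ (F₁ x))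
    (δ.continuous.comp hF₁) (fun x => by rw [hδ, hF₁l]; rfl)
  have hFl : ∀ x, π (F x) = f (π x) := fun x => by rw [hF, hδ, hF₁l]
  have hL1 : ∀ x, L (1, x) = k (F x) := fun x => by rw [hF, hδk, hδ1]
  have hLγ : ∀ γ ∈ Deck π, ∀ t x, ρ (L (t, γ x)) = ρ (L (t, x)) := fun γ hγ t x => by
    rw [hLl, hLl, hcγ γ hγ]
  have hLe := hmt2_equi hρ hL hLγ
  have hFG : ∀ γ ∈ Deck π, ∀ γ' ∈ Deck ρ, (∀ x, k (γ x) = γ' (k x)) →
      ∀ x, k ((F * γ * F⁻¹) x) = (G * γ' * G⁻¹) (k x) := by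
    intro γ hγ γ' hγ' h x
    obtain ⟨γ'', hγ'', h1⟩ := hLe γ hγ
    have h5 : G * γ' * G⁻¹ ∈ Deck ρ := by
      have := conj_mem (g := g.toHomeomorph) hG hγ' 1
      simpa using this
    have e1 : γ'' = G * γ' * G⁻¹ := by
      apply deck_unique hρ hγ'' h5 (x := L (0, 0))
      rw [← h1, hL0, hL0, h]
      show G (γ' (k 0)) = G (γ' (G.symm (G (k 0))))
      rw [Homeomorph.symm_apply_apply]
    have e2 := h1 1 (F.symm x)
    rw [hL1, hL1, Homeomorph.apply_symm_apply, e1] at e2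
    exact e2
  obtain ⟨r, hr, hD⟩ := exists_ball hπ
  have hc0' : Continuous fun x : E => L (0, x) := hL.comp (by fun_prop)
  have hc1' : Continuous fun x : E => L (1, x) := hL.comp (by fun_prop)
  obtain ⟨R₁, hR₁⟩ := ((isCompact_closedBall (0 : E) r).image hc0').isBounded.exists_norm_le
  obtain ⟨R₂, hR₂⟩ := ((isCompact_closedBall (0 : E) r).image hc1').isBounded.exists_norm_le
  have hn : ∀ x, Near ρ (max R₁ R₂) (G (k x)) (k (F x)) := by
    intro x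
    obtain ⟨γ, hγ, hγx⟩ := hD x
    obtain ⟨γ', hγ', h1⟩ := hLe γ⁻¹ (inv_mem hγ)
    have e0 : γ⁻¹ (γ x) = x := γ.symm_apply_apply x
    have e1 : G (k x) = γ' (L (0, γ x)) := by
      rw [← h1, e0, hL0]
    have e2 : k (F x) = γ' (L (1, γ x)) := by
      rw [← h1, e0, hL1]
    rw [e1, e2]
    refine (near_of_norm ?_ ?_).deck hγ'
    · exact (hR₁ _ ⟨γ x, by simpa using hγx, rfl⟩).trans (le_max_left _ _)
    · exact (hR₂ _ ⟨γ x, by simpa using hγx, rfl⟩).trans (le_max_right _ _)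
  obtain ⟨H, hH, hHtw, hHF⟩ := exists_semi2 hρ (f := f.toHomeomorph) (g := g.toHomeomorph) hFl hG
    hkl.ck hkl.dk hFG hn hc
  -- the induced map
  obtain ⟨s, hs⟩ := (surj hπ).hasRightInverse
  set h : M → N := fun x => ρ (H (s x)) with hhd
  have hHπ : ∀ x, ρ (H x) = h (π x) := by
    intro x
    obtain ⟨γ, hγ, hγx⟩ := exists_deck hπ (x := s (π x)) (y := x) (hs (π x))
    obtain ⟨γ', hγ', hγk⟩ := hkl.tw hρ hγ
    have e1 : H x = γ' (H (s (π x))) := by rw [← hHtw γ hγ γ' hγ' hγk, hγx]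
    show ρ (H x) = ρ (H (s (π x)))
    rw [e1]
    exact hγ' _
  have hhc : Continuous h := by
    rw [(hπ.isQuotientMap (surj hπ)).continuous_iff]
    have : h ∘ π = fun x => ρ (H x) := funext fun x => (hHπ x).symm
    rw [this]
    exact hρ.continuous.comp hH
  have hh : ∀ x, h (f x) = g (h x) := by
    intro x
    obtain ⟨z, rfl⟩ := surj hπ x
    rw [← hHπ, ← hG, ← hHF, hHπ, hFl]
  obtain ⟨hinj, hper⟩ := core2 hπ hd hρ hd' f g Es Eu hf Es' Eu' hg hNF hkl hh hH hHπ hHtw (by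
    intro n hn F' G' hF' hG' hFl' hGl' hHF'
    -- iterates of the homotopy
    have hLn : ∀ n : ℕ, Hmt2 π ρ (fun x => k ((F ^ n) x)) (fun x => (G ^ n) (k x)) := by
      intro n
      induction n with
      | zero => exact ⟨fun p => k p.2, hkl.ck.comp continuous_snd, fun x => rfl, fun x => rfl,
          fun γ hγ t x => hkl.dk γ hγ x⟩
      | succ n ih =>
        have m1 : Hmt2 π ρ (fun x => k ((F ^ (n + 1)) x)) (fun x => G (k ((F ^ n) x))) := by
          refine ⟨fun p => L (p.1, (F ^ n) p.2), hL.comp (continuous_fst.prodMk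
            ((F ^ n).continuous.comp continuous_snd)), fun x => by simp only [hL0], fun x => ?_,
            fun γ hγ t x => ?_⟩
          · show L (1, (F ^ n) x) = k ((F ^ (n + 1)) x)
            rw [hL1, pow_succ']; rfl
          · show ρ (L (t, (F ^ n) (γ x))) = ρ (L (t, (F ^ n) x))
            have e1 : (F ^ n) (γ x) = (F ^ (n : ℤ) * γ * (F ^ (n : ℤ))⁻¹) ((F ^ n) x) := by
              rw [zpow_natCast]
              show _ = (F ^ n) (γ ((F ^ n).symm ((F ^ n) x)))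
              rw [Homeomorph.symm_apply_apply]
            rw [e1, hLγ _ (conj_mem (g := f.toHomeomorph) hFl hγ n)]
        have m2 : Hmt2 π ρ (fun x => G (k ((F ^ n) x))) (fun x => (G ^ (n + 1)) (k x)) := by
          obtain ⟨K, hK, hK0, hK1, hKe⟩ := ih
          refine ⟨fun p => G (K p), G.continuous.comp hK, fun x => ?_, fun x => ?_,
            fun γ hγ t x => ?_⟩
          · show G (K (0, x)) = (G ^ (n + 1)) (k x)
            rw [hK0, pow_succ']; rfl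
          · show G (K (1, x)) = G (k ((F ^ n) x))
            rw [hK1]
          · show ρ (G (K (t, γ x))) = ρ (G (K (t, x)))
            rw [hG, hG, hKe γ hγ]
        exact m1.trans m2
    obtain ⟨K, hK, hK0, hK1, hKe⟩ := hLn n
    obtain ⟨a, ha, haF⟩ := exists_deck_lift hπ (F ^ n).continuous hF' (fun x => by
      rw [lift_pow (g := f.toHomeomorph) hFl, hFl']; rfl)
    obtain ⟨b, hb, hbG⟩ := exists_deck_lift hρ (G ^ n).continuous hG' (fun x => by
      rw [lift_pow (g := g.toHomeomorph) hG, hGl']; rfl)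
    obtain ⟨a', ha', hak⟩ := hkl.tw hρ ha
    have hHn : ∀ (n : ℕ) x, H ((F ^ n) x) = (G ^ n) (H x) := by
      intro n
      induction n with
      | zero => intro x; rfl
      | succ n ih =>
        intro x
        rw [pow_succ', pow_succ']
        show H (F ((F ^ n) x)) = G ((G ^ n) (H x))
        rw [hHF, ih]
    have hab : a' = b := by
      apply deck_unique hρ ha' hb (x := (G ^ n) (H 0))
      rw [hbG, ← hHF', ← haF, hHtw a ha a' ha' hak, hHn]
    refine ⟨fun p => b (K p), b.continuous.comp hK, fun x => ?_, fun x => ?_, fun γ hγ t x => ?_⟩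
    · show b (K (0, x)) = G' (k x)
      rw [hK0, hbG]
    · show b (K (1, x)) = k (F' x)
      rw [hK1, ← hab, ← hak, haF]
    · show ρ (b (K (t, γ x))) = ρ (b (K (t, x)))
      rw [hb, hb, hKe γ hγ])
  obtain ⟨-, -, -, c4⟩ := concl2 f g Es Eu hf Es' Eu' hg hhc hh hinj hper
  obtain ⟨c5, c6⟩ := c4 hT
  exact ⟨c5, Continuous.homeoOfEquivCompactToT2 (f := Equiv.ofBijective h c6) hhc, hh⟩

end main

end Pool.Agent.V5helper18.Nf
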